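import Pool.Agent.P.MP_a76a9f_al.Defs

set_option autoImplicit false

namespace Pool.Agent.P.MP_a76a9f_al

open Filter
open scoped Pointwise

attribute [local instance] Ultrafilter.semigroup

variable {S : Type} [Group S]

theorem ev_mul (U V : Ultrafilter S) (p : S → Prop) :
    (∀ᶠ m in ((U * V : Ultrafilter S) : Filter S), p m) ↔
      ∀ᶠ m in (U : Filter S), ∀ᶠ m' in (V : Filter S), p (m * m') := Iff.rfl

theorem mem_mul_iff (U V : Ultrafilter S) (A : Set S) :
    A ∈ U * V ↔ ∀ᶠ m in (U : Filter S), ∀ᶠ m' in (V : Filter S), m * m' ∈ A := Iff.rfl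

theorem cont_mul (V : Ultrafilter S) : Continuous fun U : Ultrafilter S => U * V :=
  Ultrafilter.continuous_mul_left V

theorem map_mul' {T : Type} [Group T] (f : S →* T) (U V : Ultrafilter S) :
    (U * V).map f = U.map f * V.map f := by
  ext A
  simp only [Ultrafilter.mem_map, mem_mul_iff, Ultrafilter.coe_map, eventually_map, Set.mem_preimage,
    map_mul]

theorem pure_one_mul (w : Ultrafilter S) : (pure 1 : Ultrafilter S) * w = w := by
  ext A
  simp [mem_mul_iff]

theorem mem_act {w : Ultrafilter S} {K : Subgroup S} {h : S} :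
    h ∈ act w K ↔ ∀ᶠ g in (w : Filter S), g⁻¹ * h * g ∈ K := Iff.rfl

theorem mem_HH {η : Ultrafilter S} {e : S} :
    e ∈ HH η ↔ ∀ᶠ x in (η : Filter S), Commute x e := Iff.rfl

theorem mem_Cen {F : Finset S} {x : S} : x ∈ Cen F ↔ ∀ f ∈ F, Commute x f := by
  simp only [Cen, Subgroup.mem_centralizer_iff, Finset.mem_coe]
  exact forall₂_congr fun f _ => ⟨fun h => h.symm, fun h => h.symm⟩

theorem mem_smul {α : MulAut S} {K : Subgroup S} {x : S} : x ∈ α • K ↔ α⁻¹ x ∈ K :=
  Subgroup.mem_pointwise_smul_iff_inv_smul_mem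

theorem act_mul (v w : Ultrafilter S) (K : Subgroup S) : act (v * w) K = act v (act w K) := by
  ext h
  simp only [mem_act, ev_mul, mul_inv_rev, mul_assoc]

theorem act_inf (w : Ultrafilter S) (K L : Subgroup S) : act w (K ⊓ L) = act w K ⊓ act w L := by
  ext h
  simp only [mem_act, Subgroup.mem_inf, eventually_and]

theorem act_mono (w : Ultrafilter S) {K L : Subgroup S} (h : K ≤ L) : act w K ≤ act w L :=
  fun _ hx => mem_act.2 ((mem_act.1 hx).mono fun _ hg => h hg)

theorem act_bot (w : Ultrafilter S) : act w (⊥ : Subgroup S) = ⊥ := by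
  rw [eq_bot_iff]
  intro h hh
  obtain ⟨g, hg⟩ := (mem_act.1 hh).exists
  rw [Subgroup.mem_bot] at hg ⊢
  have : h = g * (g⁻¹ * h * g) * g⁻¹ := by group
  rw [this, hg]; simp

theorem act_top (w : Ultrafilter S) : act w (⊤ : Subgroup S) = ⊤ := by
  ext h
  simp [mem_act]

theorem mem_act_pure {g h : S} {K : Subgroup S} :
    h ∈ act (pure g : Ultrafilter S) K ↔ g⁻¹ * h * g ∈ K := by
  simp [mem_act]

theorem act_pure_one (K : Subgroup S) : act (pure 1 : Ultrafilter S) K = K := by
  ext h
  simp [mem_act_pure]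

theorem smul_act (α : MulAut S) (w : Ultrafilter S) (K : Subgroup S) :
    α • act w K = act (am α w) (α • K) := by
  ext h
  simp only [am, mem_smul, mem_act, Ultrafilter.coe_map, eventually_map, map_mul, map_inv,
    MulAut.inv_apply_self]

theorem smul_inf'' (α : MulAut S) (K L : Subgroup S) : α • (K ⊓ L) = α • K ⊓ α • L := by
  ext x
  simp only [mem_smul, Subgroup.mem_inf]

theorem smul_eq_bot_iff (α : MulAut S) (K : Subgroup S) : α • K = ⊥ ↔ K = ⊥ := by
  constructor
  · intro h
    rw [eq_bot_iff] at h ⊢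
    intro x hx
    have : α x ∈ α • K := mem_smul.2 (by simpa using hx)
    simpa using h this
  · rintro rfl
    ext x
    simp

theorem act_of_normalizer {w : Ultrafilter S} {K : Subgroup S}
    (h : (Subgroup.normalizer (K : Set S) : Set S) ∈ w) : act w K = K := by
  ext x
  rw [mem_act]
  constructor
  · intro hx
    obtain ⟨g, h1, h2⟩ := (hx.and h).exists
    exact (Subgroup.mem_normalizer_iff''.1 h2 x).2 h1
  · intro hx
    filter_upwards [h] with g hg
    exact (Subgroup.mem_normalizer_iff''.1 hg x).1 hx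

theorem act_iInf {ι : Type} [Finite ι] (w : Ultrafilter S) (K : ι → Subgroup S) :
    act w (⨅ i, K i) = ⨅ i, act w (K i) := by
  ext h
  simp only [mem_act, Subgroup.mem_iInf, eventually_all]

theorem IsMin.mul_left {w : Ultrafilter S} (hw : IsMin w) (v : Ultrafilter S) : IsMin (v * w) := by
  intro v1
  obtain ⟨v', h⟩ := hw (v1 * v)
  refine ⟨v * v', ?_⟩
  calc v * v' * v1 * (v * w) = v * (v' * (v1 * v) * w) := by simp only [mul_assoc]
    _ = v * w := by rw [h]

theorem IsMin.mul_right {w : Ultrafilter S} (hw : IsMin w) (z : Ultrafilter S) :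
    IsMin (w * z) := by
  intro v
  obtain ⟨v', h⟩ := hw v
  exact ⟨v', by rw [← mul_assoc, h]⟩

theorem am_mul (α : MulAut S) (U V : Ultrafilter S) : am α (U * V) = am α U * am α V :=
  map_mul' (α : S →* S) U V

theorem am_am (α β : MulAut S) (U : Ultrafilter S) : am α (am β U) = am (α * β) U := rfl

theorem am_one (U : Ultrafilter S) : am 1 U = U := rfl

theorem IsMin.am {w : Ultrafilter S} (hw : IsMin w) (α : MulAut S) : IsMin (am α w) := by
  intro v
  obtain ⟨v', h⟩ := hw (MP_a76a9f_al.am α⁻¹ v)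
  refine ⟨MP_a76a9f_al.am α v', ?_⟩
  conv_rhs => rw [← h]
  rw [am_mul, am_mul, am_am, mul_inv_cancel, am_one]

theorem IsMin.act_ne_bot {w : Ultrafilter S} (hw : IsMin w) {K : Subgroup S}
    (h : act w K ≠ ⊥) (v : Ultrafilter S) : act v (act w K) ≠ ⊥ := by
  intro h0
  obtain ⟨v', h1⟩ := hw v
  apply h
  rw [← h1, act_mul, act_mul, h0, act_bot]

end Pool.Agent.P.MP_a76a9f_al
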