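import Pool.Agent.P.MP_a76a9f_al.Basic

set_option autoImplicit false

namespace Pool.Agent.P.MP_a76a9f_al

open Filter
open scoped Pointwise

attribute [local instance] Ultrafilter.semigroup

variable {Q : Type} [Group Q]

/-- the conjugate `g K g⁻¹` -/
def Atom_cj (g : Q) (K : Subgroup Q) : Subgroup Q := K.comap (MulAut.conj g⁻¹).toMonoidHom

theorem Atom_mem_cj {g x : Q} {K : Subgroup Q} : x ∈ Atom_cj g K ↔ g⁻¹ * x * g ∈ K := by
  simp [Atom_cj]

theorem Atom_cj_mul (g h : Q) (K : Subgroup Q) :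
    Atom_cj (g * h) K = Atom_cj g (Atom_cj h K) := by
  ext x
  simp only [Atom_mem_cj, mul_inv_rev, mul_assoc]

theorem Atom_cj_one (K : Subgroup Q) : Atom_cj 1 K = K := by
  ext x
  simp [Atom_mem_cj]

theorem Atom_cj_inf (g : Q) (K L : Subgroup Q) :
    Atom_cj g (K ⊓ L) = Atom_cj g K ⊓ Atom_cj g L := by
  ext x
  simp only [Atom_mem_cj, Subgroup.mem_inf]

theorem Atom_cj_ne_bot (g : Q) {K : Subgroup Q} (h : K ≠ ⊥) : Atom_cj g K ≠ ⊥ := by
  intro h0
  apply h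
  rw [eq_bot_iff] at h0 ⊢
  intro x hx
  have h1 : g * x * g⁻¹ ∈ Atom_cj g K := Atom_mem_cj.2 (by simpa [mul_assoc] using hx)
  have h2 := Subgroup.mem_bot.1 (h0 h1)
  rw [Subgroup.mem_bot]
  have : x = g⁻¹ * (g * x * g⁻¹) * g := by group
  rw [this, h2]
  simp

theorem Atom_cj_of_mem {g : Q} {K : Subgroup Q} (h : g ∈ Subgroup.normalizer (K : Set Q)) :
    Atom_cj g K = K := by
  ext x
  rw [Atom_mem_cj]
  exact (Subgroup.mem_normalizer_iff''.1 h x).symm

theorem Atom_fi_of_relIndex {H K : Subgroup Q} (h : H.relIndex K ≠ 0) (hK : K.FiniteIndex) :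
    H.FiniteIndex := by
  refine ⟨?_⟩
  rw [← Subgroup.relIndex_top_right]
  refine Subgroup.relIndex_ne_zero_trans h ?_
  rw [Subgroup.relIndex_top_right]
  exact hK.index_ne_zero

theorem Atom_vn_inf {K L : Subgroup Q} (hK : VN K) (hL : VN L) : VN (K ⊓ L) := by
  have : (Subgroup.normalizer (K : Set Q)).FiniteIndex := hK
  have : (Subgroup.normalizer (L : Set Q)).FiniteIndex := hL
  exact Subgroup.finiteIndex_of_le Subgroup.inf_normalizer_le_normalizer_inf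

theorem Atom_vn_cj (g : Q) {K : Subgroup Q} (hK : VN K) : VN (Atom_cj g K) := by
  have h1 : (Atom_cj g (Subgroup.normalizer (K : Set Q))).FiniteIndex := by
    refine ⟨?_⟩
    unfold Atom_cj
    rw [Subgroup.index_comap_of_surjective _ (MulAut.conj g⁻¹).surjective]
    exact hK.index_ne_zero
  exact @Subgroup.finiteIndex_of_le _ _ _ _ h1 (Subgroup.le_normalizer_comap _)

theorem Atom_vn_top : VN (⊤ : Subgroup Q) := by
  unfold VN
  rw [Subgroup.normalizer_eq_top]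
  infer_instance

theorem Atom_finite_cj {K : Subgroup Q} (hK : VN K) :
    (Set.range fun g : Q => Atom_cj g K).Finite := by
  have : (Subgroup.normalizer (K : Set Q)).FiniteIndex := hK
  refine (Set.finite_range fun q : Q ⧸ Subgroup.normalizer (K : Set Q) =>
    Atom_cj q.out K).subset ?_
  rintro _ ⟨g, rfl⟩
  refine ⟨QuotientGroup.mk g, ?_⟩
  obtain ⟨h, hh⟩ := QuotientGroup.mk_out_eq_mul (Subgroup.normalizer (K : Set Q)) g
  simp only [hh, Atom_cj_mul, Atom_cj_of_mem h.2]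

theorem VN.infinite (hicc : ICC Q) {K : Subgroup Q} (hK : VN K) (hne : K ≠ ⊥) :
    (K : Set Q).Infinite := by
  classical
  intro hfin
  have : Finite K := hfin.to_subtype
  apply hne
  rw [eq_bot_iff]
  intro k hk
  rw [Subgroup.mem_bot]
  apply hicc
  refine Atom_fi_of_relIndex (relIndex_of_col
    (fun g : Q => if h : g⁻¹ * k * g ∈ K then (⟨g⁻¹ * k * g, h⟩ : K) else 1) ?_) hK
  intro d hd d' hd' hc
  have h1 : d⁻¹ * k * d ∈ K := (Subgroup.mem_normalizer_iff''.1 hd k).1 hk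
  have h2 : d'⁻¹ * k * d' ∈ K := (Subgroup.mem_normalizer_iff''.1 hd' k).1 hk
  simp only [h1, h2, dif_pos, Subtype.mk.injEq] at hc
  rw [Subgroup.mem_centralizer_singleton_iff]
  calc d' * d⁻¹ * k = d' * (d⁻¹ * k * d) * d⁻¹ := by group
    _ = k * (d' * d⁻¹) := by rw [hc]; group

/-- finitely many virtually normal subgroups meeting a uniform one meet simultaneously -/
theorem Atom_fin_inf {S0 : Subgroup Q} (hS0 : VN S0) (hne : S0 ≠ ⊥)
    (hu : ∀ K K' : Subgroup Q, K ≤ S0 → K' ≤ S0 → VN K → VN K' → K ≠ ⊥ → K' ≠ ⊥ → K ⊓ K' ≠ ⊥)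
    {T : Set (Subgroup Q)} (hT : T.Finite) (h : ∀ X ∈ T, VN X ∧ X ⊓ S0 ≠ ⊥) :
    VN (S0 ⊓ sInf T) ∧ S0 ⊓ sInf T ≠ ⊥ := by
  induction T, hT using Set.Finite.induction_on with
  | empty => simpa using ⟨hS0, hne⟩
  | @insert X T _ _ ih =>
    obtain ⟨h1, h2⟩ := ih fun Y hY => h Y (Set.mem_insert_of_mem _ hY)
    obtain ⟨h3, h4⟩ := h X (Set.mem_insert _ _)
    have e : S0 ⊓ sInf (insert X T) = (X ⊓ S0) ⊓ (S0 ⊓ sInf T) := by
      rw [sInf_insert]
      ext x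
      simp only [Subgroup.mem_inf]
      tauto
    rw [e]
    exact ⟨Atom_vn_inf (Atom_vn_inf h3 hS0) h1,
      hu _ _ inf_le_right inf_le_left (Atom_vn_inf h3 hS0) h1 h4 h2⟩

/-- a bound on disjoint families gives a uniform virtually normal subgroup -/
theorem Atom_exists_unif [Infinite Q] (N : ℕ)
    (hN : ∀ 𝒦 : Finset (Subgroup Q), (∀ K ∈ 𝒦, VN K ∧ K ≠ ⊥) →
      (∀ K ∈ 𝒦, ∀ K' ∈ 𝒦, K ≠ K' → K ⊓ K' = ⊥) → 𝒦.card ≤ N) :
    ∃ S0 : Subgroup Q, VN S0 ∧ S0 ≠ ⊥ ∧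
      ∀ K K' : Subgroup Q, K ≤ S0 → K' ≤ S0 → VN K → VN K' → K ≠ ⊥ → K' ≠ ⊥ → K ⊓ K' ≠ ⊥ := by
  classical
  by_contra hno
  have step : ∀ n : ℕ, ∃ 𝒦 : Finset (Subgroup Q), (∀ K ∈ 𝒦, VN K ∧ K ≠ ⊥) ∧
      (∀ K ∈ 𝒦, ∀ K' ∈ 𝒦, K ≠ K' → K ⊓ K' = ⊥) ∧ 𝒦.card = n + 1 := by
    intro n
    induction n with
    | zero =>
      refine ⟨{⊤}, ?_, ?_, rfl⟩
      · intro K hK
        rw [Finset.mem_singleton.1 hK]
        exact ⟨Atom_vn_top, top_ne_bot⟩
      · intro K hK K' hK' hne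
        exact absurd ((Finset.mem_singleton.1 hK).trans (Finset.mem_singleton.1 hK').symm) hne
    | succ n ih =>
      obtain ⟨𝒦, h1, h2, h3⟩ := ih
      obtain ⟨S0, hS0⟩ : 𝒦.Nonempty := Finset.card_pos.1 (by omega)
      have : ¬ ∀ K K' : Subgroup Q, K ≤ S0 → K' ≤ S0 → VN K → VN K' → K ≠ ⊥ → K' ≠ ⊥ →
          K ⊓ K' ≠ ⊥ := fun hu => hno ⟨S0, (h1 S0 hS0).1, (h1 S0 hS0).2, hu⟩
      push Not at this
      obtain ⟨K, K', hK, hK', vK, vK', nK, nK', hd⟩ := this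
      have dis : ∀ L : Subgroup Q, L ≤ S0 → ∀ M ∈ 𝒦.erase S0, L ⊓ M = ⊥ := by
        intro L hL M hM
        obtain ⟨hM1, hM2⟩ := Finset.mem_erase.1 hM
        rw [eq_bot_iff, ← h2 S0 hS0 M hM2 hM1.symm]
        exact inf_le_inf_right _ hL
      have nm : ∀ L : Subgroup Q, L ≤ S0 → L ≠ ⊥ → L ∉ 𝒦.erase S0 := by
        intro L hL hn hm
        exact hn (by simpa using dis L hL L hm)
      have nKK : K ≠ K' := by
        rintro rfl
        exact nK (by simpa using hd)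
      refine ⟨insert K (insert K' (𝒦.erase S0)), ?_, ?_, ?_⟩
      · intro M hM
        simp only [Finset.mem_insert] at hM
        rcases hM with rfl | rfl | hM
        · exact ⟨vK, nK⟩
        · exact ⟨vK', nK'⟩
        · exact h1 M (Finset.mem_of_mem_erase hM)
      · intro M hM M' hM' hne
        simp only [Finset.mem_insert] at hM hM'
        rcases hM with rfl | rfl | hM <;> rcases hM' with rfl | rfl | hM'
        · exact absurd rfl hne
        · exact hd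
        · exact dis _ hK _ hM'
        · rw [inf_comm]; exact hd
        · exact absurd rfl hne
        · exact dis _ hK' _ hM'
        · rw [inf_comm]; exact dis _ hK _ hM
        · rw [inf_comm]; exact dis _ hK' _ hM
        · exact h2 M (Finset.mem_of_mem_erase hM) M' (Finset.mem_of_mem_erase hM') hne
      · rw [Finset.card_insert_of_notMem, Finset.card_insert_of_notMem (nm K' hK' nK'),
          Finset.card_erase_of_mem hS0, h3]
        · omega
        · simp only [Finset.mem_insert, not_or]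
          exact ⟨nKK, nm K hK nK⟩
  obtain ⟨𝒦, h1, h2, h3⟩ := step N
  have := hN 𝒦 h1 h2
  omega

/-- a bound on disjoint families of virtually normal subgroups gives an atom -/
theorem exists_atom [Infinite Q] (hicc : ICC Q) (N : ℕ)
    (hN : ∀ 𝒦 : Finset (Subgroup Q), (∀ K ∈ 𝒦, VN K ∧ K ≠ ⊥) →
      (∀ K ∈ 𝒦, ∀ K' ∈ 𝒦, K ≠ K' → K ⊓ K' = ⊥) → 𝒦.card ≤ N) :
    ∃ A : Subgroup Q, Atom A := by
  obtain ⟨S0, hS0, hne, hu⟩ := Atom_exists_unif N hN
  have hinv : ∀ g : Q, Atom_cj g S0 ⊓ S0 ≠ ⊥ → Atom_cj g⁻¹ S0 ⊓ S0 ≠ ⊥ := by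
    intro g hg
    have := Atom_cj_ne_bot g⁻¹ hg
    rwa [Atom_cj_inf, ← Atom_cj_mul, inv_mul_cancel, Atom_cj_one, inf_comm] at this
  let H0 : Subgroup Q :=
    { carrier := {g | Atom_cj g S0 ⊓ S0 ≠ ⊥}
      one_mem' := by simpa [Atom_cj_one] using hne
      inv_mem' := fun {g} hg => hinv g hg
      mul_mem' := by
        intro g h hg hh
        have h1 := hu _ _ inf_le_right inf_le_right (Atom_vn_inf (Atom_vn_cj h hS0) hS0)
          (Atom_vn_inf (Atom_vn_cj g⁻¹ hS0) hS0) hh (hinv g hg)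
        have h2 : Atom_cj h S0 ⊓ Atom_cj g⁻¹ S0 ≠ ⊥ := by
          intro h0
          apply h1
          rw [eq_bot_iff, ← h0]
          exact inf_le_inf inf_le_left inf_le_left
        have h3 := Atom_cj_ne_bot g h2
        rw [Atom_cj_inf, ← Atom_cj_mul, ← Atom_cj_mul, mul_inv_cancel, Atom_cj_one] at h3
        exact h3 }
  have mH0 : ∀ g, g ∈ H0 ↔ Atom_cj g S0 ⊓ S0 ≠ ⊥ := fun g => Iff.rfl
  have : (Subgroup.normalizer (S0 : Set Q)).FiniteIndex := hS0
  have fH0 : H0.FiniteIndex := by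
    refine Subgroup.finiteIndex_of_le (H := Subgroup.normalizer (S0 : Set Q)) ?_
    intro g hg
    rw [mH0, Atom_cj_of_mem hg, inf_idem]
    exact hne
  set T : Set (Subgroup Q) := (fun g => Atom_cj g S0) '' (H0 : Set Q) with hT
  have fT : T.Finite := (Atom_finite_cj hS0).subset (Set.image_subset_range _ _)
  obtain ⟨v1, n1⟩ := Atom_fin_inf hS0 hne hu fT (by
    rintro _ ⟨g, hg, rfl⟩
    exact ⟨Atom_vn_cj g hS0, hg⟩)
  set S1 : Subgroup Q := S0 ⊓ sInf T with hS1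
  have mS1 : ∀ x, x ∈ S1 ↔ ∀ h ∈ H0, h⁻¹ * x * h ∈ S0 := by
    intro x
    rw [hS1, Subgroup.mem_inf, Subgroup.mem_sInf]
    constructor
    · rintro ⟨_, h2⟩ h hh
      exact Atom_mem_cj.1 (h2 _ ⟨h, hh, rfl⟩)
    · intro h
      refine ⟨by simpa using h 1 H0.one_mem, ?_⟩
      rintro _ ⟨g, hg, rfl⟩
      exact Atom_mem_cj.2 (h g hg)
  have nS1 : ∀ g ∈ H0, ∀ x ∈ S1, g * x * g⁻¹ ∈ S1 := by
    intro g hg x hx
    rw [mS1] at hx ⊢
    intro h hh
    have := hx (g⁻¹ * h) (H0.mul_mem (H0.inv_mem hg) hh)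
    simpa [mul_assoc] using this
  have hN0 : H0.normalCore.Normal := inferInstance
  have lN0 : H0.normalCore ≤ H0 := H0.normalCore_le
  have nA : H0 ≤ Subgroup.normalizer ((H0.normalCore ⊓ S1 : Subgroup Q) : Set Q) := by
    rw [Subgroup.le_normalizer_iff]
    intro g hg x hx
    exact ⟨hN0.conj_mem x hx.1 g, nS1 g hg x hx.2⟩
  have l01 : S1 ≤ S0 := inf_le_left
  refine ⟨H0.normalCore ⊓ S1, ?_, Subgroup.finiteIndex_of_le nA, ?_, ?_⟩
  · refine ne_bot_of_infinite (infinite_inf ?_ (VN.infinite hicc v1 n1))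
    exact Subgroup.FiniteIndex.index_ne_zero
  · intro g
    by_cases hg : g ∈ H0
    · exact Or.inl (nA hg)
    · right
      intro s hs s' hs'
      rw [mH0, not_not] at hg
      have a1 : g * s * g⁻¹ * s' * (g * s * g⁻¹)⁻¹ * s'⁻¹ ∈ S0 :=
        l01 (S1.mul_mem (nS1 _ (lN0 (hN0.conj_mem s hs.1 g)) s' hs'.2) (S1.inv_mem hs'.2))
      have a2 : s * (g⁻¹ * s' * g⁻¹⁻¹ * s⁻¹ * (g⁻¹ * s' * g⁻¹⁻¹)⁻¹) ∈ S0 :=
        l01 (S1.mul_mem hs.2 (nS1 _ (lN0 (hN0.conj_mem s' hs'.1 g⁻¹)) s⁻¹ (S1.inv_mem hs.2)))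
      have a3 : g * s * g⁻¹ * s' * (g * s * g⁻¹)⁻¹ * s'⁻¹ ∈ Atom_cj g S0 := by
        rw [Atom_mem_cj]
        convert a2 using 1
        group
      have a4 : g * s * g⁻¹ * s' * (g * s * g⁻¹)⁻¹ * s'⁻¹ = 1 := by
        rw [← Subgroup.mem_bot, ← hg]
        exact ⟨a3, a1⟩
      exact commutatorElement_eq_one_iff_commute.1 a4
  · intro K K' hK hK'
    exact hu K K' (hK.trans (inf_le_right.trans l01)) (hK'.trans (inf_le_right.trans l01))

theorem Atom_nmh_apply (A : Subgroup Q) (g : Subgroup.normalizer (A : Set Q)) (x : A) :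
    ((A.normalizerMonoidHom g x : A) : Q) = (g : Q) * x * (g : Q)⁻¹ := rfl

theorem Atom.c3 {A : Subgroup Q} (hA : Atom A) : C3 A.normalizerMonoidHom.range := by
  classical
  intro k X hX hα
  have vX : ∀ i, VN ((X i).map A.subtype) := by
    intro i
    choose j hj using fun g : Subgroup.normalizer (A : Set Q) =>
      hα (A.normalizerMonoidHom g⁻¹) ⟨g⁻¹, rfl⟩ i
    refine Atom_fi_of_relIndex (relIndex_of_col
      (fun g : Q => if h : g ∈ Subgroup.normalizer (A : Set Q) then j ⟨g, h⟩ else i) ?_) hA.vn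
    intro d hd d' hd' hc
    simp only [hd, hd', dif_pos] at hc
    have e : A.normalizerMonoidHom (⟨d', hd'⟩ * ⟨d, hd⟩⁻¹) • X i = X i := by
      rw [map_mul, mul_smul, hj, hc, ← hj, ← mul_smul, ← map_mul, mul_inv_cancel, map_one,
        one_smul]
    have e' : A.normalizerMonoidHom (⟨d', hd'⟩ * ⟨d, hd⟩⁻¹)⁻¹ • X i = X i := by
      rw [map_inv, inv_smul_eq_iff, e]
    have key : ∀ g : Subgroup.normalizer (A : Set Q), A.normalizerMonoidHom g • X i = X i →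
        ∀ x ∈ (X i).map A.subtype, (g : Q) * x * (g : Q)⁻¹ ∈ (X i).map A.subtype := by
      rintro g hg _ ⟨y, hy, rfl⟩
      refine ⟨A.normalizerMonoidHom g y, ?_, rfl⟩
      rw [← hg]
      exact mem_smul.2 (by simpa using hy)
    rw [Subgroup.mem_normalizer_iff]
    intro x
    refine ⟨key _ e x, fun hx => ?_⟩
    have := key _ e' _ hx
    simpa [mul_assoc] using this
  obtain ⟨-, h2⟩ := Atom_fin_inf hA.vn hA.ne hA.unif
    (Set.finite_range fun i => (X i).map A.subtype) (by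
      rintro _ ⟨i, rfl⟩
      refine ⟨vX i, ?_⟩
      rw [inf_eq_left.2 (Subgroup.map_subtype_le _)]
      intro h0
      exact hX i ((Subgroup.map_eq_bot_iff_of_injective _ A.subtype_injective).1 h0))
  intro h0
  apply h2
  rw [eq_bot_iff]
  rintro x ⟨hx1, hx2⟩
  have : (⟨x, hx1⟩ : A) ∈ ⨅ i, X i := by
    rw [Subgroup.mem_iInf]
    intro i
    obtain ⟨y, hy, hyx⟩ := Subgroup.mem_sInf.1 hx2 _ ⟨i, rfl⟩
    have : y = ⟨x, hx1⟩ := Subtype.ext hyx
    rwa [this] at hy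
  rw [h0, Subgroup.mem_bot] at this
  exact Subgroup.mem_bot.2 (congrArg Subtype.val this)

theorem Atom.inn (A : Subgroup Q) (g : A) : MulAut.conj g ∈ A.normalizerMonoidHom.range :=
  ⟨⟨g, Subgroup.le_normalizer g.2⟩, by ext x; rfl⟩

end Pool.Agent.P.MP_a76a9f_al
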