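import Pool.Agent.P.MP_a76a9f_al.Atom

set_option autoImplicit false

namespace Pool.Agent.P.MP_a76a9f_al

open Filter
open scoped Pointwise

attribute [local instance] Ultrafilter.semigroup

variable {Q : Type} [Group Q]

theorem atomB_mem_cen {a x : Q} : x ∈ Subgroup.centralizer ({a} : Set Q) ↔ Commute x a := by
  rw [Subgroup.mem_centralizer_singleton_iff]
  rfl

theorem atomB_cen {K : Subgroup Q} (F : Finset Q)
    (h : ∀ f ∈ F, (Subgroup.centralizer ({f} : Set Q)).relIndex K ≠ 0) :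
    (Cen F).relIndex K ≠ 0 := by
  classical
  induction F using Finset.induction_on with
  | empty =>
    have : Cen (∅ : Finset Q) = ⊤ := by
      ext x
      simp [mem_Cen]
    simp [this]
  | insert a F _ ih =>
    have : Cen (insert a F) = Subgroup.centralizer ({a} : Set Q) ⊓ Cen F := by
      ext x
      simp [mem_Cen, atomB_mem_cen]
    rw [this]
    exact Subgroup.relIndex_inf_ne_zero (h a (by simp)) (ih fun f hf => h f (by simp [hf]))

theorem atomB_conj_mem {A : Subgroup Q} {b a : Q} (hb : b ∈ Subgroup.normalizer (A : Set Q))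
    (ha : a ∈ A) : b * a * b⁻¹ ∈ A := (Subgroup.mem_normalizer_iff.1 hb a).1 ha

/-- the elements of `A` with finitely many `A`-conjugates -/
def atomBZ (A : Subgroup Q) : Subgroup Q where
  carrier := {a | a ∈ A ∧ (Subgroup.centralizer ({a} : Set Q)).relIndex A ≠ 0}
  one_mem' := by
    refine ⟨A.one_mem, ?_⟩
    have : Subgroup.centralizer ({1} : Set Q) = ⊤ := by
      ext x
      simp [atomB_mem_cen]
    simp [this]
  mul_mem' := by
    rintro a b ⟨ha, ha'⟩ ⟨hb, hb'⟩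
    refine ⟨A.mul_mem ha hb, fun h => Subgroup.relIndex_inf_ne_zero ha' hb'
      (Subgroup.relIndex_eq_zero_of_le_left ?_ h)⟩
    intro x hx
    rw [Subgroup.mem_inf, atomB_mem_cen, atomB_mem_cen] at hx
    exact atomB_mem_cen.2 (hx.1.mul_right hx.2)
  inv_mem' := by
    rintro a ⟨ha, ha'⟩
    refine ⟨A.inv_mem ha, fun h => ha' (Subgroup.relIndex_eq_zero_of_le_left ?_ h)⟩
    intro x hx
    exact atomB_mem_cen.2 (atomB_mem_cen.1 hx).inv_right

theorem atomBZ_conj {A : Subgroup Q} {b a : Q} (hb : b ∈ Subgroup.normalizer (A : Set Q))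
    (ha : a ∈ atomBZ A) : b * a * b⁻¹ ∈ atomBZ A := by
  refine ⟨atomB_conj_mem hb ha.1, ?_⟩
  obtain ⟨ι, _, col, hcol⟩ := exists_col ha.2
  refine relIndex_of_col (fun d => col (b⁻¹ * d * b)) fun d hd d' hd' e => ?_
  have h1 : ∀ d ∈ A, b⁻¹ * d * b ∈ A := fun d hd => by
    simpa using atomB_conj_mem (inv_mem hb) hd
  have h2 := atomB_mem_cen.1 (hcol _ (h1 d hd) _ (h1 d' hd') e)
  rw [atomB_mem_cen]
  have h3 := h2.conj b
  convert h3 using 1
  group

theorem Atom.icc (hicc : ICC Q) {A : Subgroup Q} (hA : Atom A) {Bs : Set Q} {L : ℕ}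
    (hC : NoChain (MulAut.conj '' Bs) L) : ICC A := by
  intro g hg
  by_contra hne
  have hgZ : (g : Q) ∈ atomBZ A := by
    refine ⟨g.2, ?_⟩
    have : (Subgroup.centralizer ({(g : Q)} : Set Q)).subgroupOf A
        = Subgroup.centralizer ({g} : Set A) := by
      ext x
      rw [Subgroup.mem_subgroupOf, atomB_mem_cen, atomB_mem_cen]
      exact ⟨fun h => Subtype.ext h, fun h => congrArg Subtype.val h⟩
    rw [Subgroup.relIndex, this]
    exact hg.index_ne_zero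
  have hZ : atomBZ A ≠ ⊥ := fun h => hne (Subtype.ext (by simpa [h] using hgZ))
  have hle : Subgroup.normalizer (A : Set Q) ≤ Subgroup.normalizer (atomBZ A : Set Q) := by
    intro b hb
    rw [Subgroup.mem_normalizer_iff]
    refine fun a => ⟨atomBZ_conj hb, fun h => ?_⟩
    have := atomBZ_conj (inv_mem hb) h
    simpa [mul_assoc] using this
  have hvn : VN (atomBZ A) := by
    have := hA.vn
    unfold VN at this ⊢
    exact Subgroup.finiteIndex_of_le hle
  have hinf := hvn.infinite hicc hZ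
  refine hC ⟨fun _ => atomBZ A, fun m _ F hF => infinite_inf (fun h => ?_) hinf⟩
  refine atomB_cen (K := A) F (fun f hf => ?_)
    (Subgroup.relIndex_eq_zero_of_le_right (show atomBZ A ≤ A from fun a ha => ha.1) h)
  obtain ⟨_, -, _, ⟨b, -, rfl⟩, d, hd, rfl⟩ := hF f hf
  rw [MulAut.conj_apply]
  rcases hA.conj b with hb | hb
  · exact (atomBZ_conj hb hd).2
  · rw [Subgroup.relIndex_eq_one.2 fun s hs => atomB_mem_cen.2 (hb d hd.1 s hs).symm]
    exact one_ne_zero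

theorem atomB_hom (A : Subgroup Q) (b : Subgroup.normalizer (A : Set Q)) (s : A) :
    (A.normalizerMonoidHom b s : Q) = b * s * (b : Q)⁻¹ := rfl

theorem Atom.noChain {A : Subgroup Q} (hA : Atom A) {Bs : Set Q} (hB : Bs.Finite) {L : ℕ}
    (hC : NoChain (MulAut.conj '' Bs) L) :
    ∃ Γ : Set (MulAut A), Γ.Finite ∧ (∀ γ ∈ Γ, γ ∈ A.normalizerMonoidHom.range) ∧
      NoChain Γ L := by
  classical
  refine ⟨A.normalizerMonoidHom '' (Subtype.val ⁻¹' Bs),
    (hB.preimage Subtype.val_injective.injOn).image _, ?_, ?_⟩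
  · rintro _ ⟨b, -, rfl⟩
    exact ⟨b, rfl⟩
  rintro ⟨D, hD⟩
  refine hC ⟨fun n => (D n).map A.subtype, fun m hm F hF => ?_⟩
  set F' : Finset A := (F.preimage Subtype.val Subtype.val_injective.injOn).filter fun f =>
    ∃ n < m, ∃ γ ∈ A.normalizerMonoidHom '' (Subtype.val ⁻¹' Bs), ∃ d ∈ D n, f = γ d with hF'
  have h1 := hD m hm F' fun f hf => (Finset.mem_filter.1 hf).2
  refine (h1.image Subtype.val_injective.injOn).mono ?_
  rintro _ ⟨x, hx, rfl⟩
  refine ⟨mem_Cen.2 fun f hf => ?_, ⟨x, hx.2, rfl⟩⟩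
  obtain ⟨n, hn, _, ⟨b, hbB, rfl⟩, _, ⟨d, hd, rfl⟩, rfl⟩ := hF f hf
  rcases hA.conj b with hb | hb
  · have h2 : A.normalizerMonoidHom ⟨b, hb⟩ d ∈ F' :=
      Finset.mem_filter.2 ⟨Finset.mem_preimage.2 hf, n, hn, _, ⟨⟨b, hb⟩, hbB, rfl⟩, d, hd, rfl⟩
    exact congrArg Subtype.val (mem_Cen.1 hx.1 _ h2)
  · exact (hb d d.2 x x.2).symm

theorem atomB_sub {A : Subgroup Q} {η : Ultrafilter A} {c : Q}
    (h : (((Subgroup.centralizer ({c} : Set Q)).subgroupOf A : Subgroup A) : Set A) ∈ η) :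
    {x | Commute x c} ∈ η.map A.subtype := by
  rw [Ultrafilter.mem_map]
  filter_upwards [h] with x hx
  exact atomB_mem_cen.1 (Subgroup.mem_subgroupOf.1 hx)

theorem Atom.c2 {A : Subgroup Q} (hA : Atom A) [Infinite A] (hicc : ICC A) (h2 : H2 Q) :
    C2 A := by
  intro η hmin hη
  have hbot : ((⊥ : Subgroup A) : Set A) ∉ η := fun h => by
    have := (hmin.finiteIndex h).index_ne_zero
    rw [Subgroup.index_bot, Nat.card_eq_zero_of_infinite] at this
    exact this rfl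
  have hη' : η.map A.subtype * η.map A.subtype = η.map A.subtype := by
    rw [← map_mul', hη]
  have h1 : ({1} : Set Q) ∉ η.map A.subtype := fun h => hbot (by
    rw [Ultrafilter.mem_map] at h
    filter_upwards [h] with x hx
    exact Subgroup.mem_bot.2 (Subtype.ext hx))
  obtain ⟨b, c, hT, hb, hc⟩ := h2 _ hη' h1
  rw [Ultrafilter.mem_map] at hT
  set T : Set A := A.subtype ⁻¹' {x | Commute (x⁻¹ * b * x) c} with hTdef
  have hT' : ∀ x ∈ T, Commute ((x : Q)⁻¹ * b * x) c := fun x hx => hx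
  obtain ⟨y, hy⟩ := Ultrafilter.nonempty_of_mem hT
  set N := Subgroup.normalizer (A : Set Q) with hN
  set C := Subgroup.centralizer (A : Set Q) with hC
  have hout : ∀ g, g ∉ N → ∀ s ∈ A, g * s * g⁻¹ ∈ C := fun g hg s hs =>
    Subgroup.mem_centralizer_iff.2 fun s' hs' => (((hA.conj g).resolve_left hg) s hs s' hs').symm
  have hctr : ∀ z ∈ A, z ∈ C → z = 1 := fun z hz hzC => by
    have : Subgroup.centralizer ({(⟨z, hz⟩ : A)} : Set A) = ⊤ := by
      rw [eq_top_iff]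
      intro x _
      exact atomB_mem_cen.2 (Subtype.ext (Subgroup.mem_centralizer_iff.1 hzC x x.2))
    have := hicc ⟨z, hz⟩ (by rw [this]; infer_instance)
    exact congrArg Subtype.val this
  have hcm : ∀ z ∈ C, ∀ s ∈ A, s * z = z * s := fun z hz s hs =>
    Subgroup.mem_centralizer_iff.1 hz s hs
  have k1 : ∀ x ∈ T, ∀ x' ∈ T, Commute ((x' : Q)⁻¹ * (b⁻¹ * (x' * (x : Q)⁻¹) * b) * x) c := by
    intro x hx x' hx'
    rw [show (x' : Q)⁻¹ * (b⁻¹ * (x' * (x : Q)⁻¹) * b) * x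
      = ((x' : Q)⁻¹ * b * x')⁻¹ * ((x : Q)⁻¹ * b * x) by group]
    exact (hT' x' hx').inv_left.mul_left (hT' x hx)
  have k2 : ∀ x ∈ T, Commute b ((x : Q) * c * (x : Q)⁻¹) := fun x hx => by
    convert (hT' x hx).conj (x : Q) using 1
    group
  -- the basic identity when `b` is outside the normaliser
  have k3 : b ∉ N → ∀ x ∈ T, ∀ x' ∈ T,
      c⁻¹ * ((x' : Q)⁻¹ * x) * c * (c⁻¹ * (b⁻¹ * (x' * (x : Q)⁻¹) * b) * c)
        = (x' : Q)⁻¹ * x * (b⁻¹ * (x' * (x : Q)⁻¹) * b) := by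
    intro hbN x hx x' hx'
    have e1 : b⁻¹ * ((x' : Q) * (x : Q)⁻¹) * b ∈ C := by
      simpa using hout b⁻¹ (fun h => hbN (inv_mem_iff.1 h)) _ (A.mul_mem x'.2 (A.inv_mem x.2))
    have e2 := (k1 x hx x' hx').eq
    generalize b⁻¹ * ((x' : Q) * (x : Q)⁻¹) * b = s' at e1 e2
    rw [mul_assoc _ s', ← hcm s' e1 x x.2, ← mul_assoc] at e2
    calc c⁻¹ * ((x' : Q)⁻¹ * x) * c * (c⁻¹ * s' * c) = c⁻¹ * ((x' : Q)⁻¹ * x * s' * c) := by group
      _ = (x' : Q)⁻¹ * x * s' := by rw [e2]; group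
  by_cases hbN : b ∈ N
  · by_cases hcN : c ∈ N
    · refine ⟨A.normalizerMonoidHom ⟨b⁻¹, inv_mem hbN⟩, A.normalizerMonoidHom ⟨c⁻¹, inv_mem hcN⟩,
        T, hT, fun x hx x' hx' => Subtype.ext ?_, fun h => hb ?_, fun h => hc ?_⟩
      · have := (k1 x hx x' hx').eq
        simp only [atomB_hom, Subgroup.coe_mul, Subgroup.coe_inv, inv_inv]
        rw [mul_assoc c⁻¹, this]
        group
      · rw [Ultrafilter.mem_map]
        filter_upwards [h] with s hs
        have := congrArg Subtype.val hs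
        simp only [atomB_hom, inv_inv] at this
        show (s : Q) * b = b * s
        conv_rhs => rw [← this]
        group
      · rw [Ultrafilter.mem_map]
        filter_upwards [h] with s hs
        have := congrArg Subtype.val hs
        simp only [atomB_hom, inv_inv] at this
        show (s : Q) * c = c * s
        conv_rhs => rw [← this]
        group
    · refine (hb (atomB_sub (mem_of_rightCoset hη (g := y) ?_))).elim
      filter_upwards [hT] with x hx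
      rw [Subgroup.mem_subgroupOf, atomB_mem_cen]
      have hs : (x : Q) * (y : Q)⁻¹ ∈ A := A.mul_mem x.2 (A.inv_mem y.2)
      have ht : (x : Q)⁻¹ * y ∈ A := A.mul_mem (A.inv_mem x.2) y.2
      have e1 := hout c hcN _ ht
      have e2 : b⁻¹ * (c * ((x : Q)⁻¹ * y) * c⁻¹) * b ∈ C := by
        have := hout (b⁻¹ * c) (fun h => hcN (by simpa using N.mul_mem hbN h)) _ ht
        convert this using 1
        group
      have e3 : Commute b ((x : Q) * (c * ((x : Q)⁻¹ * y) * c⁻¹) * (y : Q)⁻¹) := by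
        rw [show (x : Q) * (c * ((x : Q)⁻¹ * y) * c⁻¹) * (y : Q)⁻¹
          = (x : Q) * c * (x : Q)⁻¹ * ((y : Q) * c * (y : Q)⁻¹)⁻¹ by group]
        exact (k2 x hx).mul_right (k2 y hy).inv_right
      generalize c * ((x : Q)⁻¹ * y) * c⁻¹ = s' at e1 e2 e3
      rw [mul_assoc, ← hcm s' e1 _ (A.inv_mem y.2), ← mul_assoc] at e3
      simp only [Subgroup.coe_mul, Subgroup.coe_inv]
      generalize (x : Q) * (y : Q)⁻¹ = s at hs e3
      have e4 : s⁻¹ * (b⁻¹ * s * b) = s' * (b⁻¹ * s' * b)⁻¹ := by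
        calc s⁻¹ * (b⁻¹ * s * b) = s⁻¹ * b⁻¹ * (s * s' * b) * (b⁻¹ * s' * b)⁻¹ := by group
          _ = s' * (b⁻¹ * s' * b)⁻¹ := by rw [← e3.eq]; group
      have e5 := hctr _ (A.mul_mem (A.inv_mem hs) (by simpa using atomB_conj_mem (inv_mem hbN) hs))
        (e4 ▸ C.mul_mem e1 (C.inv_mem e2) : s⁻¹ * (b⁻¹ * s * b) ∈ C)
      show s * b = b * s
      calc s * b = b * s * (s⁻¹ * (b⁻¹ * s * b)) := by group
        _ = b * s := by rw [e5, mul_one]
  have hs' : ∀ x x' : A, b⁻¹ * ((x' : Q) * (x : Q)⁻¹) * b ∈ C := fun x x' => by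
    simpa using hout b⁻¹ (fun h => hbN (inv_mem_iff.1 h)) _ (A.mul_mem x'.2 (A.inv_mem x.2))
  have hs'' : c⁻¹ * b⁻¹ ∉ N → ∀ x x' : A, c⁻¹ * (b⁻¹ * ((x' : Q) * (x : Q)⁻¹) * b) * c ∈ C :=
    fun h x x' => by
      convert hout _ h _ (A.mul_mem x'.2 (A.inv_mem x.2)) using 1
      group
  by_cases hcN : c ∈ N
  · refine (hc (atomB_sub (mem_of_leftCoset hη (g := y) ?_))).elim
    filter_upwards [hT] with x hx
    rw [Subgroup.mem_subgroupOf, atomB_mem_cen]
    have hs : (y : Q)⁻¹ * x ∈ A := A.mul_mem (A.inv_mem y.2) x.2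
    have e1 := hs' x y
    have e2 := hs'' (fun h => hbN (by simpa using N.mul_mem hcN h)) x y
    have e3 := k3 hbN x hx y hy
    simp only [Subgroup.coe_mul, Subgroup.coe_inv]
    generalize b⁻¹ * ((y : Q) * (x : Q)⁻¹) * b = s' at e1 e2 e3
    generalize (y : Q)⁻¹ * x = s at hs e3
    have e4 : s⁻¹ * (c⁻¹ * s * c) = s' * (c⁻¹ * s' * c)⁻¹ := by
      calc s⁻¹ * (c⁻¹ * s * c) = s⁻¹ * (c⁻¹ * s * c * (c⁻¹ * s' * c)) * (c⁻¹ * s' * c)⁻¹ := by group
        _ = s' * (c⁻¹ * s' * c)⁻¹ := by rw [e3]; group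
    have e5 := hctr _ (A.mul_mem (A.inv_mem hs) (by simpa using atomB_conj_mem (inv_mem hcN) hs))
      (e4 ▸ C.mul_mem e1 (C.inv_mem e2) : s⁻¹ * (c⁻¹ * s * c) ∈ C)
    show s * c = c * s
    calc s * c = c * s * (s⁻¹ * (c⁻¹ * s * c)) := by group
      _ = c * s := by rw [e5, mul_one]
  have hs0 : ∀ x x' : A, c⁻¹ * ((x' : Q)⁻¹ * x) * c ∈ C := fun x x' => by
    simpa using hout c⁻¹ (fun h => hcN (inv_mem_iff.1 h)) _ (A.mul_mem (A.inv_mem x'.2) x.2)
  by_cases hg : c⁻¹ * b⁻¹ ∈ N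
  swap
  · refine (hbot (mem_of_leftCoset hη (g := y) ?_)).elim
    filter_upwards [hT] with x hx
    have e3 := k3 hbN x hx y hy
    have e4 : (y : Q)⁻¹ * x ∈ C := by
      rw [← mul_inv_eq_iff_eq_mul] at e3
      exact e3 ▸ C.mul_mem (C.mul_mem (hs0 x y) (hs'' hg x y)) (C.inv_mem (hs' x y))
    exact Subgroup.mem_bot.2 (Subtype.ext (hctr _ (A.mul_mem (A.inv_mem y.2) x.2) e4))
  exfalso
  have key : ∀ x ∈ T, ∀ x' ∈ T,
      c⁻¹ * (b⁻¹ * ((x' : Q) * (x : Q)⁻¹) * b) * c = (x' : Q)⁻¹ * x := by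
    intro x hx x' hx'
    have e0 : c⁻¹ * (b⁻¹ * ((x' : Q) * (x : Q)⁻¹) * b) * c ∈ A := by
      convert atomB_conj_mem hg (A.mul_mem x'.2 (A.inv_mem x.2)) using 1
      group
    have e1 := hs' x x'
    have e2 := hs0 x x'
    have e3 := k3 hbN x hx x' hx'
    have hs : (x' : Q)⁻¹ * x ∈ A := A.mul_mem (A.inv_mem x'.2) x.2
    generalize c⁻¹ * (b⁻¹ * ((x' : Q) * (x : Q)⁻¹) * b) * c = p at e0 e3
    generalize b⁻¹ * ((x' : Q) * (x : Q)⁻¹) * b = s' at e1 e3
    generalize c⁻¹ * ((x' : Q)⁻¹ * x) * c = r at e2 e3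
    generalize (x' : Q)⁻¹ * x = s at hs e3
    rw [← hcm r e2 p e0] at e3
    have e4 : s⁻¹ * p = s' * r⁻¹ := by
      calc s⁻¹ * p = s⁻¹ * (p * r) * r⁻¹ := by group
        _ = s' * r⁻¹ := by rw [e3]; group
    have e5 := hctr _ (A.mul_mem (A.inv_mem hs) e0)
      (e4 ▸ C.mul_mem e1 (C.inv_mem e2) : s⁻¹ * p ∈ C)
    exact (inv_mul_eq_one.1 e5).symm
  have hT2 : T ∈ η * η := by rw [hη]; exact hT
  obtain ⟨k, hk, hk1⟩ := (((mem_mul_iff η η T).1 hT2).and
    (Ultrafilter.compl_mem_iff_notMem.2 hbot)).exists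
  have hk2 : ∀ᶠ h : A in (η : Filter A),
      c⁻¹ * (b⁻¹ * (k : Q) * b) * c = (h : Q)⁻¹ * (k : Q)⁻¹ * h := by
    filter_upwards [hk, hT] with h h1 h2
    simpa [mul_assoc] using key h h2 _ h1
  obtain ⟨h₀, hh₀⟩ := hk2.exists
  have hcen : (Subgroup.centralizer ({k} : Set A) : Set A) ∈ η := by
    refine mem_of_rightCoset hη (g := h₀) ?_
    filter_upwards [hk2] with h hh
    rw [hh₀] at hh
    refine atomB_mem_cen.2 (Commute.inv_right_iff.1 (Subtype.ext ?_))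
    simp only [Subgroup.coe_mul, Subgroup.coe_inv]
    calc (h : Q) * (h₀ : Q)⁻¹ * (k : Q)⁻¹
        = h * ((h₀ : Q)⁻¹ * (k : Q)⁻¹ * h₀) * (h₀ : Q)⁻¹ := by group
      _ = (k : Q)⁻¹ * (h * (h₀ : Q)⁻¹) := by rw [hh]; group
  exact hk1 (Subgroup.mem_bot.2 (hicc k (hmin.finiteIndex hcen)))

end Pool.Agent.P.MP_a76a9f_al
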