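import Pool.Agent.P.MP_a76a9f_al.Idx

set_option autoImplicit false

namespace Pool.Agent.P.MP_a76a9f_al

open Filter
open scoped Pointwise

attribute [local instance] Ultrafilter.semigroup

variable {S : Type} [Group S]

theorem basic_cover {ι : Type} (A : ι → Set S) (h : ∀ v : Ultrafilter S, ∃ i, A i ∈ v) :
    ∃ F : Finset ι, ∀ v : Ultrafilter S, ∃ i ∈ F, A i ∈ v := by
  obtain ⟨F, hF⟩ := (isCompact_univ (X := Ultrafilter S)).elim_finite_subcover
    (fun i => {v : Ultrafilter S | A i ∈ v}) (fun i => ultrafilter_isOpen_basic (A i))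
    (fun v _ => Set.mem_iUnion.2 (h v))
  refine ⟨F, fun v => ?_⟩
  obtain ⟨i, hi, hv⟩ := Set.mem_iUnion₂.1 (hF (Set.mem_univ v))
  exact ⟨i, hi, hv⟩

theorem exists_isMin (S : Type) [Group S] : ∃ w : Ultrafilter S, IsMin w := by
  let T : Set (Set (Ultrafilter S)) :=
    {N | IsClosed N ∧ N.Nonempty ∧ ∀ v : Ultrafilter S, ∀ w ∈ N, v * w ∈ N}
  have hex : ∃ N, Minimal (· ∈ T) N := by
    refine zorn_superset _ fun c hcs hc => ?_
    refine ⟨⋂₀ c, ⟨isClosed_sInter fun t ht => (hcs ht).1, ?_, fun v w hw => ?_⟩,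
      fun s hs => Set.sInter_subset_of_mem hs⟩
    · obtain rfl | hcne := c.eq_empty_or_nonempty
      · rw [Set.sInter_empty]
        exact ⟨pure 1, Set.mem_univ _⟩
      · haveI : Nonempty c := hcne.coe_sort
        rw [Set.sInter_eq_iInter]
        refine IsCompact.nonempty_iInter_of_directed_nonempty_isCompact_isClosed
          ((↑) : c → Set (Ultrafilter S)) ?_ (fun i => (hcs i.2).2.1)
          (fun i => (hcs i.2).1.isCompact) (fun i => (hcs i.2).1)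
        exact DirectedOn.directed_val (IsChain.directedOn hc.symm)
    · exact Set.mem_sInter.2 fun t ht => (hcs ht).2.2 v w (Set.mem_sInter.1 hw t ht)
  obtain ⟨N, hN⟩ := hex
  obtain ⟨-, ⟨w, hw⟩, hmul⟩ := hN.prop
  refine ⟨w, fun v => ?_⟩
  have hR : Set.range (fun u : Ultrafilter S => u * (v * w)) = N := by
    symm
    apply hN.eq_of_superset
    · refine ⟨(isCompact_range (cont_mul (v * w))).isClosed, ⟨_, ⟨w, rfl⟩⟩, ?_⟩
      rintro a _ ⟨b, rfl⟩
      exact ⟨a * b, mul_assoc _ _ _⟩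
    · rintro _ ⟨b, rfl⟩
      exact hmul b _ (hmul v w hw)
  rw [← hR] at hw
  obtain ⟨v', hv'⟩ := hw
  exact ⟨v', by rw [mul_assoc]; exact hv'⟩

/-- a minimal idempotent with the two-sided property -/
theorem exists_good (S : Type) [Group S] : ∃ u : Ultrafilter S, IsMin u ∧ u * u = u ∧
    ∀ U ∈ u, ∃ w : Ultrafilter S, IsMin w ∧ {x | x⁻¹ ∈ U} ∈ w := by
  obtain ⟨w, hw⟩ := exists_isMin S
  have hT : ∀ z : Ultrafilter S,
      (∀ U ∈ z, ∃ w : Ultrafilter S, IsMin w ∧ {x | x⁻¹ ∈ U} ∈ w) → ∀ v : Ultrafilter S,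
      ∀ U ∈ v * z, ∃ w : Ultrafilter S, IsMin w ∧ {x | x⁻¹ ∈ U} ∈ w := by
    intro z hz v U hU
    obtain ⟨g, hg⟩ := ((mem_mul_iff v z U).1 hU).exists
    obtain ⟨w', hw', hmem⟩ := hz {y | g * y ∈ U} hg
    refine ⟨w' * pure g⁻¹, hw'.mul_right _, ?_⟩
    rw [mem_mul_iff]
    filter_upwards [hmem] with m hm
    simpa using hm
  have h0 : ∀ U ∈ w.map (fun x => x⁻¹), ∃ w : Ultrafilter S, IsMin w ∧ {x | x⁻¹ ∈ U} ∈ w :=
    fun U hU => ⟨w, hw, hU⟩
  obtain ⟨u, ⟨a, rfl⟩, hu⟩ := exists_idempotent_in_compact_subsemigroup (M := Ultrafilter S)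
    cont_mul (Set.range fun u : Ultrafilter S => u * (w * w.map fun x => x⁻¹))
    ⟨_, ⟨w, rfl⟩⟩ (isCompact_range (cont_mul _)) (by
      rintro _ ⟨a, rfl⟩ _ ⟨b, rfl⟩
      exact ⟨a * (w * w.map fun x => x⁻¹) * b, mul_assoc _ _ _⟩)
  exact ⟨_, (hw.mul_right _).mul_left a, hu, hT _ (hT _ h0 w) a⟩

/-- syndeticity -/
theorem IsMin.synd {w : Ultrafilter S} (hw : IsMin w) {U : Set S} (hU : U ∈ w) :
    ∃ F : Finset S, ∀ s : S, ∃ m ∈ F, ∀ᶠ x in (w : Filter S), m * s * x ∈ U := by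
  obtain ⟨F, hF⟩ := basic_cover (fun m : S => {s : S | ∀ᶠ x in (w : Filter S), m * s * x ∈ U})
    (fun v => by
      obtain ⟨v', hv'⟩ := hw v
      rw [← hv', mem_mul_iff, ev_mul] at hU
      obtain ⟨m, hm⟩ := hU.exists
      rw [hv'] at *
      exact ⟨m, hm⟩)
  refine ⟨F, fun s => ?_⟩
  obtain ⟨m, hm, h⟩ := hF (pure s)
  exact ⟨m, hm, by simpa using h⟩

theorem IsMin.finiteIndex {w : Ultrafilter S} (hw : IsMin w) {K : Subgroup S}
    (hK : (K : Set S) ∈ w) : K.FiniteIndex := by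
  obtain ⟨F, hF⟩ := hw.synd hK
  refine Subgroup.finiteIndex_of_leftCoset_cover_const (s := F) (g := fun m => m⁻¹) ?_
  rw [Set.eq_univ_iff_forall]
  intro s
  obtain ⟨m, hm, h⟩ := hF s
  obtain ⟨x, h1, h2⟩ := (h.and hK).exists
  refine Set.mem_iUnion₂.2 ⟨m, hm, ?_⟩
  rw [mem_leftCoset_iff, inv_inv]
  have := K.mul_mem h1 (K.inv_mem h2)
  simpa using this

/-- confinement -/
theorem IsMin.confined {w : Ultrafilter S} (hw : IsMin w) {K : Subgroup S} (h : act w K ≠ ⊥) :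
    ∃ P : Finset S, (∀ p ∈ P, p ≠ 1) ∧ ∀ v : Ultrafilter S, ∃ p ∈ P, p ∈ act v (act w K) := by
  classical
  obtain ⟨F, hF⟩ := basic_cover
    (fun p : {p : S // p ≠ 1} => {g : S | g⁻¹ * p.1 * g ∈ act w K})
    (fun v => by
      obtain ⟨p, hp, hp1⟩ := (Subgroup.bot_or_exists_ne_one _).resolve_left (hw.act_ne_bot h v)
      exact ⟨⟨p, hp1⟩, hp⟩)
  refine ⟨F.image Subtype.val, ?_, fun v => ?_⟩
  · intro p hp
    obtain ⟨q, -, rfl⟩ := Finset.mem_image.1 hp
    exact q.2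
  · obtain ⟨p, hp, hv⟩ := hF v
    exact ⟨p.1, Finset.mem_image_of_mem _ hp, hv⟩

theorem IsMin.act_infinite (hicc : ICC S) {w : Ultrafilter S} (hw : IsMin w) {K : Subgroup S}
    (h : act w K ≠ ⊥) : (act w K : Set S).Infinite := by
  classical
  intro hfin
  obtain ⟨P, hP1, hP⟩ := hw.confined h
  let s : Finset (S × S) := (P ×ˢ hfin.toFinset).filter fun q => ∃ g : S, g⁻¹ * q.1 * g = q.2
  let g0 : S × S → S := fun q => if hq : ∃ g : S, g⁻¹ * q.1 * g = q.2 then hq.choose else 1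
  have hg0 : ∀ q ∈ s, (g0 q)⁻¹ * q.1 * g0 q = q.2 := by
    intro q hq
    have hq' := (Finset.mem_filter.1 hq).2
    simp only [g0, dif_pos hq']
    exact hq'.choose_spec
  obtain ⟨q, hq, hfi⟩ := Subgroup.exists_finiteIndex_of_leftCoset_cover (s := s) (g := g0)
    (H := fun q => Subgroup.centralizer ({q.2} : Set S)) (by
      rw [Set.eq_univ_iff_forall]
      intro g
      obtain ⟨p, hp, hv⟩ := hP (pure g)
      rw [mem_act_pure] at hv
      have hq : (p, g⁻¹ * p * g) ∈ s :=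
        Finset.mem_filter.2 ⟨Finset.mem_product.2 ⟨hp, hfin.mem_toFinset.2 hv⟩, g, rfl⟩
      refine Set.mem_iUnion₂.2 ⟨_, hq, ?_⟩
      rw [mem_leftCoset_iff, SetLike.mem_coe, Subgroup.mem_centralizer_singleton_iff]
      have e := hg0 _ hq
      simp only at e ⊢
      generalize g0 (p, g⁻¹ * p * g) = a at e ⊢
      calc a⁻¹ * g * (g⁻¹ * p * g) = (a⁻¹ * p * a) * (a⁻¹ * g) := by group
        _ = g⁻¹ * p * g * (a⁻¹ * g) := by rw [e])
  have h1 := hicc _ hfi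
  have e := hg0 q hq
  rw [h1] at e
  have hp := (Finset.mem_product.1 (Finset.mem_filter.1 hq).1).1
  apply hP1 _ hp
  calc q.1 = g0 q * ((g0 q)⁻¹ * q.1 * g0 q) * (g0 q)⁻¹ := by group
    _ = 1 := by rw [e]; simp

theorem IsMin.infinite (hicc : ICC S) {w : Ultrafilter S} (hw : IsMin w) {K : Subgroup S}
    (h : act w K ≠ ⊥) : (K : Set S).Infinite := by
  intro hfin
  have h0 : (⊥ : Subgroup S).relIndex K ≠ 0 := by
    rw [Subgroup.relIndex_bot_left]
    haveI : Finite K := hfin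
    exact Nat.card_pos.ne'
  have h1 := act_relIndex w h0
  have h2 := infinite_inf h1 (hw.act_infinite hicc h)
  rw [act_bot] at h2
  exact h2 (by simp)

end Pool.Agent.P.MP_a76a9f_al
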