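import Pool.Agent.P.MP_a76a9f_al.Basic
import Pool.Agent.Lib.Ramsey.Basic

set_option autoImplicit false

namespace Pool.Agent.P.MP_a76a9f_al

open Filter
open scoped Pointwise

attribute [local instance] Ultrafilter.semigroup

variable {G : Type} [Group G]

theorem Cover.typeP {b b' x y : G} (hx : x * b * x⁻¹ = b') (hy : y * b * y⁻¹ = b')
    (hxy : x * y * b * (x * y)⁻¹ = b') : b = b' := by
  have h1 : x * b' * x⁻¹ = x * b * x⁻¹ := by
    calc x * b' * x⁻¹ = x * (y * b * y⁻¹) * x⁻¹ := by rw [hy]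
      _ = x * y * b * (x * y)⁻¹ := by group
      _ = x * b * x⁻¹ := by rw [hxy, hx]
  exact (mul_left_cancel (mul_right_cancel h1)).symm

theorem Cover.typeQ {b c x y : G} (hx : Commute (x⁻¹ * b * x) c)
    (hy : Commute (y⁻¹ * b * y) c) (hxy : Commute ((x * y)⁻¹ * b * (x * y)) c)
    (h1 : Commute y x) (h2 : Commute y (b⁻¹ * x * b)) : Commute b c := by
  have h3 : Commute y ((b⁻¹ * x * b)⁻¹ * x) := h2.inv_right.mul_right h1
  have h4 : (y⁻¹ * b * y)⁻¹ * ((x * y)⁻¹ * b * (x * y)) = (b⁻¹ * x * b)⁻¹ * x := by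
    calc (y⁻¹ * b * y)⁻¹ * ((x * y)⁻¹ * b * (x * y))
        = y⁻¹ * (((b⁻¹ * x * b)⁻¹ * x) * y) := by group
      _ = y⁻¹ * (y * ((b⁻¹ * x * b)⁻¹ * x)) := by rw [h3.eq]
      _ = (b⁻¹ * x * b)⁻¹ * x := by group
  have h5 : Commute ((b⁻¹ * x * b)⁻¹ * x) c := h4 ▸ hy.inv_left.mul_left hxy
  have h6 : b = (x⁻¹ * b * x) * ((b⁻¹ * x * b)⁻¹ * x)⁻¹ := by group
  have h7 := hx.mul_left h5.inv_left
  rwa [← h6] at h7

/-- the covering sets, indexed by one finite type -/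
def Cover.In (P Q : Set (G × G)) (c : Option (↥P ⊕ ↥Q)) (x : G) : Prop :=
  c.elim (x = 1) fun s => s.elim (fun p => x * p.1.1 * x⁻¹ = p.1.2)
    fun q => Commute (x⁻¹ * q.1.1 * x) q.1.2

theorem Cover.exists_in {P Q : Set (G × G)}
    (h : ∀ x : G, x ≠ 1 →
      (∃ p ∈ P, x * p.1 * x⁻¹ = p.2) ∨ ∃ q ∈ Q, Commute (x⁻¹ * q.1 * x) q.2) (x : G) :
    ∃ c, Cover.In P Q c x := by
  by_cases hx : x = 1
  · exact ⟨none, hx⟩
  · rcases h x hx with ⟨p, hp, h1⟩ | ⟨q, hq, h1⟩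
    · exact ⟨some (Sum.inl ⟨p, hp⟩), h1⟩
    · exact ⟨some (Sum.inr ⟨q, hq⟩), h1⟩

theorem Cover.chain {Γ : Set (MulAut G)} (hΓ : Γ.Finite) {L : ℕ} {D : ℕ → Subgroup G}
    (hD : ∀ m < L, ∀ F : Finset G, (∀ f ∈ F, ∃ n < m, ∃ γ ∈ Γ, ∃ d ∈ D n, f = γ d) →
      ((Cen F ⊓ D m : Subgroup G) : Set G).Infinite) :
    ∀ m ≤ L, ∃ p : ℕ → G, (∀ n < m, (p n)⁻¹ * p (n + 1) ∈ D n) ∧
      (∀ n < m, ∀ k < n, ∀ γ ∈ Γ, Commute ((p n)⁻¹ * p (n + 1)) (γ ((p k)⁻¹ * p (k + 1)))) ∧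
      ∀ i j, i < j → j ≤ m → p i ≠ p j := by
  classical
  intro m
  induction m with
  | zero =>
    intro _
    exact ⟨fun _ => 1, fun n hn => absurd hn (Nat.not_lt_zero _),
      fun n hn => absurd hn (Nat.not_lt_zero _), fun i j h1 h2 => by omega⟩
  | succ m ih =>
    intro hm
    obtain ⟨p, h1, h2, h3⟩ := ih (by omega)
    have hinf := hD m (by omega)
      ((hΓ.toFinset ×ˢ Finset.range m).image fun z => z.1 ((p z.2)⁻¹ * p (z.2 + 1))) (by
        intro f hf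
        obtain ⟨z, hz, rfl⟩ := Finset.mem_image.1 hf
        rw [Finset.mem_product, Set.Finite.mem_toFinset, Finset.mem_range] at hz
        exact ⟨z.2, hz.2, z.1, hz.1, _, h1 _ hz.2, rfl⟩)
    obtain ⟨y, hy, hy'⟩ := hinf.exists_notMem_finset
      ((Finset.range (m + 1)).image fun i => (p m)⁻¹ * p i)
    have hy0 := Subgroup.mem_inf.1 hy
    have hle : ∀ i ≤ m, Function.update p (m + 1) (p m * y) i = p i := fun i hi =>
      Function.update_of_ne (by omega) _ _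
    have htop : Function.update p (m + 1) (p m * y) (m + 1) = p m * y := Function.update_self ..
    refine ⟨Function.update p (m + 1) (p m * y), ?_, ?_, ?_⟩
    · intro n hn
      rcases Nat.lt_succ_iff_lt_or_eq.1 hn with hn | rfl
      · rw [hle n hn.le, hle (n + 1) hn]
        exact h1 n hn
      · rw [hle n le_rfl, htop, inv_mul_cancel_left]
        exact hy0.2
    · intro n hn k hk γ hγ
      rw [hle k (by omega), hle (k + 1) (by omega)]
      rcases Nat.lt_succ_iff_lt_or_eq.1 hn with hn | rfl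
      · rw [hle n hn.le, hle (n + 1) hn]
        exact h2 n hn k hk γ hγ
      · rw [hle n le_rfl, htop, inv_mul_cancel_left]
        refine mem_Cen.1 hy0.1 _ (Finset.mem_image.2 ⟨(γ, k), ?_, rfl⟩)
        rw [Finset.mem_product, Set.Finite.mem_toFinset, Finset.mem_range]
        exact ⟨hγ, hk⟩
    · intro i j hij hj
      rw [hle i (by omega)]
      rcases Nat.lt_or_eq_of_le hj with hj | rfl
      · rw [hle j (by omega)]
        exact h3 i j hij (by omega)
      · rw [htop]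
        intro he
        apply hy'
        refine Finset.mem_image.2 ⟨i, Finset.mem_range.2 hij, ?_⟩
        rw [he, inv_mul_cancel_left]

theorem Cover.blocks {γ : MulAut G} {m : ℕ} {p : ℕ → G}
    (h : ∀ n < m, ∀ k < n, Commute ((p n)⁻¹ * p (n + 1)) (γ ((p k)⁻¹ * p (k + 1))))
    {i j k : ℕ} (hij : i ≤ j) (hjk : j ≤ k) (hk : k ≤ m) :
    Commute ((p j)⁻¹ * p k) (γ ((p i)⁻¹ * p j)) := by
  have step : ∀ n < m, ∀ t, i ≤ t → t ≤ n →
      Commute ((p n)⁻¹ * p (n + 1)) (γ ((p i)⁻¹ * p t)) := by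
    intro n hn t ht
    induction t, ht using Nat.le_induction with
    | base => intro _; simp
    | succ t ht ih =>
      intro htn
      have e : (p i)⁻¹ * p (t + 1) = (p i)⁻¹ * p t * ((p t)⁻¹ * p (t + 1)) := by group
      rw [e, map_mul]
      exact (ih (by omega)).mul_right (h n hn t (by omega))
  induction k, hjk using Nat.le_induction with
  | base => simp
  | succ k hjk ih =>
    have e : (p j)⁻¹ * p (k + 1) = (p j)⁻¹ * p k * ((p k)⁻¹ * p (k + 1)) := by group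
    rw [e]
    exact (ih (by omega)).mul_left (step k (by omega) j hij hjk)

/-- (H1) a cover excludes long commuting chains -/
theorem Cover.noChain (h : Cover G) :
    ∃ Bs : Set G, Bs.Finite ∧ ∃ L : ℕ, NoChain (MulAut.conj '' Bs) L := by
  classical
  obtain ⟨P, Q, hP, hQ, hP1, hQ1, hcov⟩ := h
  have := hP.to_subtype
  have := hQ.to_subtype
  obtain ⟨N, hN⟩ := Pool.Agent.Lib.Ramsey.ramsey (Option (↥P ⊕ ↥Q)) 2 3
  have hBs : (insert (1 : G) ((fun q : G × G => q.1⁻¹) '' Q)).Finite := (hQ.image _).insert _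
  refine ⟨insert 1 ((fun q : G × G => q.1⁻¹) '' Q), hBs, N, ?_⟩
  rintro ⟨D, hD⟩
  obtain ⟨p, -, h2, h3⟩ := Cover.chain (hBs.image _) hD N le_rfl
  choose col hcol using Cover.exists_in hcov
  obtain ⟨B, hB, hc, c, hcB⟩ := hN ℕ (Finset.range N) (by simp)
    fun f => col ((p (f 0))⁻¹ * p (f 1))
  let e := B.orderEmbOfFin hc
  have hmem : ∀ t, e t ∈ B := fun t => Finset.orderEmbOfFin_mem B hc t
  have hin : ∀ s t : Fin 3, s < t → Cover.In P Q c ((p (e s))⁻¹ * p (e t)) := by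
    intro s t hst
    have hg : StrictMono (![s, t] : Fin 2 → Fin 3) := by
      rw [Fin.strictMono_iff_lt_succ]
      intro i
      fin_cases i
      exact hst
    have h0 := hcB (fun u => e (![s, t] u)) (e.strictMono.comp hg) fun u => hmem _
    have h1 := hcol ((p (e s))⁻¹ * p (e t))
    have h4 : col ((p (e s))⁻¹ * p (e t)) = c := h0
    rwa [h4] at h1
  have h01 : e 0 < e 1 := e.strictMono (by decide)
  have h12 : e 1 < e 2 := e.strictMono (by decide)
  have h2N : e 2 ≤ N := (Finset.mem_range.1 (hB (hmem 2))).le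
  have hx := hin 0 1 (by decide)
  have hy := hin 1 2 (by decide)
  have hxy := hin 0 2 (by decide)
  have hprod : (p (e 0))⁻¹ * p (e 2) = (p (e 0))⁻¹ * p (e 1) * ((p (e 1))⁻¹ * p (e 2)) := by
    group
  rw [hprod] at hxy
  have hcomm : ∀ b ∈ insert (1 : G) ((fun q : G × G => q.1⁻¹) '' Q),
      Commute ((p (e 1))⁻¹ * p (e 2)) (b * ((p (e 0))⁻¹ * p (e 1)) * b⁻¹) := fun b hb =>
    Cover.blocks (γ := MulAut.conj b) (fun n hn k hk => h2 n hn k hk _ ⟨b, hb, rfl⟩)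
      h01.le h12.le h2N
  rcases c with _ | q | q
  · exact h3 (e 0) (e 1) h01 (by omega) (inv_mul_eq_one.1 hx)
  · exact hP1 q.1 q.2 (Cover.typeP hx hy hxy)
  · refine hQ1 q.1 q.2 (Cover.typeQ hx hy hxy ?_ ?_)
    · simpa using hcomm 1 (Set.mem_insert _ _)
    · simpa using hcomm q.1.1⁻¹ (Set.mem_insert_of_mem _ ⟨q.1, q.2, rfl⟩)

/-- the cover read along an idempotent ultrafilter -/
theorem Cover.idem (h : Cover G) {η : Ultrafilter G} (hη : η * η = η) (h1 : ({1} : Set G) ∉ η) :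
    ∃ b c : G, ¬ Commute b c ∧ {x | Commute (x⁻¹ * b * x) c} ∈ η := by
  obtain ⟨P, Q, hP, hQ, hP1, hQ1, hcov⟩ := h
  have := hP.to_subtype
  have := hQ.to_subtype
  have h2 : ∀ᶠ x in (η : Filter G), ∃ c, Cover.In P Q c x :=
    Eventually.of_forall (Cover.exists_in hcov)
  obtain ⟨c, hc⟩ := Ultrafilter.eventually_exists_iff.1 h2
  rcases c with _ | q | q
  · exact absurd hc h1
  · have h3 : ∀ᶠ x in ((η * η : Ultrafilter G) : Filter G), Cover.In P Q (some (Sum.inl q)) x := by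
      rw [hη]
      exact hc
    obtain ⟨x, hx, hx'⟩ := (hc.and ((ev_mul η η _).1 h3)).exists
    obtain ⟨y, hy, hy'⟩ := (hc.and hx').exists
    exact absurd (Cover.typeP hx hy hy') (hP1 q.1 q.2)
  · exact ⟨q.1.1, q.1.2, hQ1 q.1 q.2, hc⟩

end Pool.Agent.P.MP_a76a9f_al
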