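import Mathlib

set_option autoImplicit false

namespace Pool.Agent.P.MP_a76a9f_al

open Filter
open scoped Pointwise

attribute [local instance] Ultrafilter.semigroup

section Grp

variable {S : Type} [Group S]

/-- limit of the conjugates `g K g⁻¹` along the ultrafilter `w` -/
def act (w : Ultrafilter S) (K : Subgroup S) : Subgroup S where
  carrier := {h | ∀ᶠ g in (w : Filter S), g⁻¹ * h * g ∈ K}
  one_mem' := by simp
  mul_mem' := by
    intro a b ha hb
    simp only [Set.mem_ofPred_eq] at *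
    filter_upwards [ha, hb] with g h1 h2
    have := K.mul_mem h1 h2
    simpa [mul_assoc] using this
  inv_mem' := by
    intro a ha
    simp only [Set.mem_ofPred_eq] at *
    filter_upwards [ha] with g h1
    have := K.inv_mem h1
    simpa [mul_assoc] using this

/-- image of an ultrafilter under an automorphism -/
def am (α : MulAut S) (w : Ultrafilter S) : Ultrafilter S := w.map α

/-- `w` lies in a minimal left ideal -/
def IsMin (w : Ultrafilter S) : Prop :=
  ∀ v : Ultrafilter S, ∃ v' : Ultrafilter S, v' * v * w = w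

/-- every non-trivial conjugacy class is infinite -/
def ICC (S : Type) [Group S] : Prop :=
  ∀ g : S, (Subgroup.centralizer ({g} : Set S)).FiniteIndex → g = 1

/-- centraliser of a finite set -/
def Cen (F : Finset S) : Subgroup S := Subgroup.centralizer (F : Set S)

/-- no commuting chain of length `L` -/
def NoChain (Γ : Set (MulAut S)) (L : ℕ) : Prop :=
  ¬ ∃ D : ℕ → Subgroup S, ∀ m < L, ∀ F : Finset S,
    (∀ f ∈ F, ∃ n < m, ∃ γ ∈ Γ, ∃ d ∈ D n, f = γ d) →
      ((Cen F ⊓ D m : Subgroup S) : Set S).Infinite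

/-- the elements whose centraliser is `η`-large -/
def HH (η : Ultrafilter S) : Subgroup S where
  carrier := {e | ∀ᶠ x in (η : Filter S), Commute x e}
  one_mem' := by simp
  mul_mem' := by
    intro a b ha hb
    simp only [Set.mem_ofPred_eq] at *
    filter_upwards [ha, hb] with g h1 h2
    exact h1.mul_right h2
  inv_mem' := by
    intro a ha
    simp only [Set.mem_ofPred_eq] at *
    filter_upwards [ha] with g h1
    exact h1.inv_right

/-- a proper filter of subgroups which is closed under passing to finite index -/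
structure Pt (ζ : Set (Subgroup S)) : Prop where
  top : ⊤ ∈ ζ
  bot : ⊥ ∉ ζ
  inf : ∀ K ∈ ζ, ∀ L ∈ ζ, K ⊓ L ∈ ζ
  fi : ∀ K ∈ ζ, ∀ L : Subgroup S, L.relIndex K ≠ 0 → L ∈ ζ

/-- the subgroups fixed by `u` -/
def LL (u : Ultrafilter S) : Type := {K : Subgroup S // act u K = K}

/-- condition on minimal idempotents coming from the commutator sets -/
def C2 (S : Type) [Group S] : Prop :=
  ∀ η : Ultrafilter S, IsMin η → η * η = η → ∃ β κ : MulAut S, ∃ T ∈ η,
    (∀ x ∈ T, ∀ x' ∈ T, κ (x'⁻¹ * β (x' * x⁻¹) * x) = x'⁻¹ * β (x' * x⁻¹) * x) ∧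
      {s | β s = s} ∉ η ∧ {s | κ s = s} ∉ η

/-- uniformity -/
def C3 (AA : Subgroup (MulAut S)) : Prop :=
  ∀ (k : ℕ) (X : Fin k → Subgroup S), (∀ i, X i ≠ ⊥) →
    (∀ α ∈ AA, ∀ i, ∃ j, α • X i = X j) → ⨅ i, X i ≠ ⊥

/-- the non-trivial elements are covered by finitely many sub-basic closed sets missing `1` -/
def Cover (G : Type) [Group G] : Prop :=
  ∃ P Q : Set (G × G), P.Finite ∧ Q.Finite ∧ (∀ p ∈ P, p.1 ≠ p.2) ∧
    (∀ q ∈ Q, ¬ Commute q.1 q.2) ∧
    ∀ x : G, x ≠ 1 → (∃ p ∈ P, x * p.1 * x⁻¹ = p.2) ∨ ∃ q ∈ Q, Commute (x⁻¹ * q.1 * x) q.2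

/-- what the cover says about idempotent ultrafilters -/
def H2 (Q : Type) [Group Q] : Prop :=
  ∀ η : Ultrafilter Q, η * η = η → ({1} : Set Q) ∉ η → ∃ b c : Q,
    {x | Commute (x⁻¹ * b * x) c} ∈ η ∧ {x | Commute x b} ∉ η ∧ {x | Commute x c} ∉ η

/-- virtually normal subgroup -/
def VN (K : Subgroup S) : Prop := (Subgroup.normalizer (K : Set S)).FiniteIndex

/-- an atomic virtually normal subgroup -/
structure Atom (A : Subgroup S) : Prop where
  ne : A ≠ ⊥
  vn : VN A
  conj : ∀ g : S, g ∈ Subgroup.normalizer (A : Set S) ∨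
    ∀ s ∈ A, ∀ s' ∈ A, Commute (g * s * g⁻¹) s'
  unif : ∀ K K' : Subgroup S, K ≤ A → K' ≤ A → VN K → VN K' → K ≠ ⊥ → K' ≠ ⊥ → K ⊓ K' ≠ ⊥

end Grp

section Lat

variable {Λ : Type} [SemilatticeInf Λ] [OrderBot Λ]

/-- maximal proper filter -/
structure Ultra (φ : Set Λ) : Prop where
  bot : ⊥ ∉ φ
  inf : ∀ K ∈ φ, ∀ L ∈ φ, K ⊓ L ∈ φ
  max : ∀ K, K ∉ φ → ∃ L ∈ φ, L ⊓ K = ⊥

end Lat

end Pool.Agent.P.MP_a76a9f_al
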