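import Pool.Agent.P.MP_a76a9f_al.Inf

set_option autoImplicit false

namespace Pool.Agent.P.MP_a76a9f_al

open Filter
open scoped Pointwise

attribute [local instance] Ultrafilter.semigroup

variable {S : Type} [Group S]

theorem fin_alg (κ : MulAut S) {g g' f : S} (h : κ (g⁻¹ * f * g) = g⁻¹ * f * g)
    (h' : κ (g'⁻¹ * f * g') = g'⁻¹ * f * g') : Commute (g * κ (g⁻¹ * g') * g'⁻¹) f := by
  simp only [map_mul, map_inv] at h h' ⊢
  calc g * ((κ g)⁻¹ * κ g') * g'⁻¹ * f = g * (κ g)⁻¹ * κ g' * (g'⁻¹ * f * g') * g'⁻¹ := by group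
    _ = g * ((κ g)⁻¹ * κ f * κ g) * (κ g)⁻¹ * κ g' * g'⁻¹ := by rw [← h']; group
    _ = f * (g * ((κ g)⁻¹ * κ g') * g'⁻¹) := by rw [h]; group

/-- rank one -/
theorem tfin_one (hicc : ICC S) {u : Ultrafilter S} (hm : IsMin u) (hu : u * u = u)
    (htwo : ∀ U ∈ u, ∃ w : Ultrafilter S, IsMin w ∧ {x | x⁻¹ ∈ U} ∈ w)
    {Γ : Set (MulAut S)} (hΓ : Γ.Finite) {L : ℕ} (hC : NoChain Γ L) (h2 : C2 S)
    (hone : ∀ K K' : LL u, K ≠ ⊥ → K' ≠ ⊥ → K ⊓ K' ≠ ⊥) : False := by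
  obtain ⟨β, κ, T, hT, hfix, hβ, hκ⟩ := h2 u hm hu
  let Fx : Subgroup S := (κ : S →* S).eqLocus (MonoidHom.id S)
  have hFx : ∀ s, s ∈ Fx ↔ κ s = s := fun s => Iff.rfl
  have hE : mk hu Fx ≠ ⊥ := by
    have h1 : ∀ᶠ k in (u : Filter S), ∀ᶠ x in (u : Filter S), k * x ∈ T :=
      (mem_mul_iff u u T).1 (by rwa [hu])
    have h3 : ∀ᶠ k in (u : Filter S), ¬ β k = k := Ultrafilter.compl_mem_iff_notMem.2 hβ
    obtain ⟨k, hk1, hk2⟩ := (h1.and h3).exists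
    intro e
    have : k⁻¹ * β k ∈ act u Fx := by
      rw [mem_act]
      filter_upwards [hk1, hT] with x hx1 hx2
      have := hfix x hx2 _ hx1
      rw [mul_inv_cancel_right, mul_inv_rev, mul_assoc x⁻¹] at this
      exact (hFx _).2 this
    rw [← mk_val hu, e] at this
    exact hk2 (inv_mul_eq_one.1 (Subgroup.mem_bot.1 this)).symm
  refine eprime hicc hm hu hΓ hC (mk hu Fx) (fun K hK => hone _ _ hE hK) fun F hF => ?_
  have hU : {g | ∀ f ∈ F, g⁻¹ * f * g ∈ Fx} ∈ u :=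
    (eventually_all_finset F).2 fun f hf => mem_act.1 (hF f hf)
  obtain ⟨w, hw, hUw⟩ := htwo _ hU
  obtain ⟨F0, hF0⟩ := hw.synd hUw
  obtain ⟨m, -, hm0⟩ := (Ultrafilter.eventually_exists_mem_iff (f := u) F0.finite_toSet).1
    (Eventually.of_forall hF0)
  obtain ⟨s, hs⟩ := hm0.exists
  have hex : ∃ s', (∀ᶠ x in (w : Filter S), m * s' * x ∈ {x | x⁻¹ ∈ {g | ∀ f ∈ F, g⁻¹ * f * g ∈ Fx}})
      ∧ m * s' * (m * s)⁻¹ ∉ Fx := by
    by_contra hc
    push Not at hc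
    apply hκ
    have h1 : ((Fx.comap (MulAut.conj m : S →* S) : Subgroup S) : Set S) ∈ u := by
      apply mem_of_rightCoset hu (g := s)
      filter_upwards [hm0] with s' hs'
      have := hc s' hs'
      rw [Subgroup.mem_comap]
      convert this using 1
      simp [mul_assoc]
    have h3 := (hm.finiteIndex h1).index_ne_zero
    rw [Subgroup.index_comap_of_surjective _ (MulAut.conj m).surjective] at h3
    exact mem_of_relIndex hu (K := ⊤) (K' := Fx) (by rw [Subgroup.coe_top]; exact univ_mem)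
      (by rwa [Subgroup.relIndex_top_right])
  obtain ⟨s', hs', hn⟩ := hex
  refine ⟨pure (m * s) * w, hw.mul_left _, fun e => hn ?_⟩
  have : κ (m * s' * (m * s)⁻¹)⁻¹ * (m * s' * (m * s)⁻¹) ∈ act (pure (m * s) * w) (Cen F) := by
    rw [mem_act, ev_mul, Ultrafilter.coe_pure, eventually_pure]
    filter_upwards [hs, hs'] with x hx hx'
    rw [mem_Cen]
    intro f hf
    have := fin_alg κ ((hFx _).1 (hx f hf)) ((hFx _).1 (hx' f hf))
    convert this using 1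
    rw [show (m * s * x)⁻¹⁻¹ * (m * s' * x)⁻¹ = (m * s' * (m * s)⁻¹)⁻¹ by group]
    group
  rw [e, Subgroup.mem_bot, map_inv, inv_mul_eq_one] at this
  exact (hFx _).2 this

/-- generalised frame -/
structure GF {k : ℕ} (N : Fin k → Subgroup S) : Prop where
  disj : ∀ i j, i ≠ j → N i ⊓ N j = ⊥
  ne : ∀ w i, act w (N i) ≠ ⊥

/-- the lattice has rank `k` -/
def Rank (u : Ultrafilter S) (k : ℕ) : Prop :=
  ∀ M : Fin k → LL u, (∀ i, M i ≠ ⊥) → (∀ i j, i ≠ j → M i ⊓ M j = ⊥) →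
    (∀ K : LL u, K ≠ ⊥ → ∃ i, K ⊓ M i ≠ ⊥) ∧
      ∀ i, ∀ K K' : LL u, K ⊓ M i ≠ ⊥ → K' ⊓ M i ≠ ⊥ → K ⊓ K' ⊓ M i ≠ ⊥

theorem GF.act {k : ℕ} {N : Fin k → Subgroup S} (h : GF N) (z : Ultrafilter S) :
    GF fun i => act z (N i) :=
  ⟨fun i j hij => by rw [← act_inf, h.disj i j hij, act_bot],
    fun w i => by rw [← act_mul]; exact h.ne _ i⟩

theorem GF.smul {k : ℕ} {N : Fin k → Subgroup S} (h : GF N) (α : MulAut S) :
    GF fun i => α • N i :=
  ⟨fun i j hij => by rw [← smul_inf'', h.disj i j hij, smul_eq_bot_iff], fun w i e => by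
    apply h.ne (am α⁻¹ w) i
    rw [← smul_eq_bot_iff α, smul_act, am_am, mul_inv_cancel, am_one, e]⟩

theorem GF.rank {u : Ultrafilter S} (hu : u * u = u) {k : ℕ} (hr : Rank u k)
    {N : Fin k → Subgroup S} (h : GF N) (w : Ultrafilter S) :
    (∀ K : LL u, K ≠ ⊥ → ∃ i, K ⊓ MP_a76a9f_al.mk hu (MP_a76a9f_al.act w (N i)) ≠ ⊥) ∧
      ∀ i, ∀ K K' : LL u, K ⊓ MP_a76a9f_al.mk hu (MP_a76a9f_al.act w (N i)) ≠ ⊥ →
        K' ⊓ MP_a76a9f_al.mk hu (MP_a76a9f_al.act w (N i)) ≠ ⊥ →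
          K ⊓ K' ⊓ MP_a76a9f_al.mk hu (MP_a76a9f_al.act w (N i)) ≠ ⊥ :=
  hr _ (fun i e => (h.act w).ne u i (LL.eq_bot_iff.1 e)) (fun i j hij => by
    rw [← mk_inf, (h.act w).disj i j hij, LL.eq_bot_iff, mk_val, act_bot])

theorem mk_act_ne {u w : Ultrafilter S} (hu : u * u = u) (hw : IsMin w) {K : Subgroup S} :
    mk hu (act w K) ≠ ⊥ ↔ act w K ≠ ⊥ := by
  rw [Ne, LL.eq_bot_iff, mk_val]
  exact ⟨fun h e => h (by rw [e, act_bot]), fun h => hw.act_ne_bot h u⟩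

theorem act_ne_mono {w : Ultrafilter S} {K L : Subgroup S} (h : act w K ≠ ⊥) (hKL : K ≤ L) :
    act w L ≠ ⊥ := fun e => h (eq_bot_iff.2 (e ▸ act_mono w hKL))

theorem GF.g1 {u : Ultrafilter S} (hu : u * u = u) {k : ℕ} (hr : Rank u k)
    {N : Fin k → Subgroup S} (h : GF N) {w : Ultrafilter S} (hw : IsMin w) {K : Subgroup S}
    (hK : MP_a76a9f_al.act w K ≠ ⊥) : ∃ i, MP_a76a9f_al.act w (K ⊓ N i) ≠ ⊥ := by
  obtain ⟨i, hi⟩ := (h.rank hu hr w).1 _ ((mk_act_ne hu hw).2 hK)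
  exact ⟨i, by rwa [← mk_inf, ← act_inf, mk_act_ne hu hw] at hi⟩

theorem GF.g2 {u : Ultrafilter S} (hu : u * u = u) {k : ℕ} (hr : Rank u k)
    {N : Fin k → Subgroup S} (h : GF N) {w : Ultrafilter S} (hw : IsMin w) {K K' : Subgroup S}
    {i : Fin k} (hK : MP_a76a9f_al.act w (K ⊓ N i) ≠ ⊥)
    (hK' : MP_a76a9f_al.act w (K' ⊓ N i) ≠ ⊥) : MP_a76a9f_al.act w (K ⊓ K' ⊓ N i) ≠ ⊥ := by
  rw [← mk_act_ne hu hw, act_inf, mk_inf] at hK hK'
  have := (h.rank hu hr w).2 i _ _ hK hK'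
  rwa [← mk_inf, ← mk_inf, ← act_inf, ← act_inf, mk_act_ne hu hw] at this

theorem GF.g3 {u : Ultrafilter S} (hu : u * u = u) {k : ℕ} (hr : Rank u k)
    {N : Fin k → Subgroup S} (h : GF N) (w : Ultrafilter S) {φ : Set (LL u)} (hφ : Ultra φ)
    {A : LL u} (hA : A ∈ φ) : ∃ i, MP_a76a9f_al.mk hu (MP_a76a9f_al.act w (N i)) ∈ φ := by
  by_contra hc
  push Not at hc
  obtain ⟨B, hB, -, hB'⟩ := hφ.exists_private hA
    (Set.range fun i => MP_a76a9f_al.mk hu (MP_a76a9f_al.act w (N i))) (Set.finite_range _)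
    (by rintro _ ⟨i, rfl⟩; exact hc i)
  obtain ⟨i, hi⟩ := (h.rank hu hr w).1 B (hφ.ne_bot hB)
  exact hi (hB' _ ⟨i, rfl⟩)

theorem GF.frame (hicc : ICC S) {u : Ultrafilter S} (hm : IsMin u) {k : ℕ}
    {N : Fin k → Subgroup S} (h : GF N) {η : Ultrafilter S} (hη : η * η = η)
    (h1 : ((⊥ : Subgroup S) : Set S) ∉ η) {l j : Fin k} (hl : (N l : Set S) ∈ η) (hj : j ≠ l)
    (hc : ∀ d : S, ∃ i, (MP_a76a9f_al.act (pure d * η) (N i) : Set S) ∈ η) (w : Ultrafilter S) :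
    MP_a76a9f_al.act w (HH η ⊓ N j) ≠ ⊥ := by
  have := frame' hicc hm hη h1 (N j) (Set.range N) (Set.finite_range _)
    (by
      rintro _ ⟨i, rfl⟩
      by_cases hij : i = j
      · subst hij
        exact Or.inr ⟨le_rfl, N l, hl, h.disj _ _ hj⟩
      · exact Or.inl (h.disj _ _ hij))
    (fun d => by
      obtain ⟨i, hi⟩ := hc d
      exact ⟨_, ⟨i, rfl⟩, hi⟩)
    w (by rw [← act_mul, ← act_mul]; exact h.ne _ _)
  intro e
  exact this (by rw [e, act_bot])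

/-- consistency of directions -/
theorem cons [Infinite S] (hicc : ICC S) {u : Ultrafilter S} (hm : IsMin u) (hu : u * u = u)
    {Γ : Set (MulAut S)} (hΓ : Γ.Finite) {L : ℕ} (hC : NoChain Γ L) {k : ℕ} (hr : Rank u k)
    {N N' : Fin k → Subgroup S} (h : GF N) (h' : GF N') {w1 w2 : Ultrafilter S}
    (hw1 : IsMin w1) (hw2 : IsMin w2) {i l l' : Fin k} (h1 : act w1 (N' i ⊓ N l) ≠ ⊥)
    (h2 : act w2 (N' i ⊓ N l') ≠ ⊥) : l = l' := by
  classical
  by_contra hll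
  obtain ⟨φ, hφ0, hφ⟩ := exists_ultra {mk hu (act w1 (N' i ⊓ N l))} (Set.singleton_nonempty _)
    (fun e => (mk_act_ne hu hw1).2 h1 (Set.mem_singleton_iff.1 e).symm)
    (by rintro _ rfl _ rfl; simp)
  have hA := hφ0 (Set.mem_singleton _)
  have hpt := pt_of_ultra hicc hm hu hφ w1
  obtain ⟨η, hη, hηζ⟩ := exists_eta hpt
  have hbot : ((⊥ : Subgroup S) : Set S) ∉ η := fun e => hpt.bot ((hηζ _).1 e)
  have hcat : ∀ {M : Fin k → Subgroup S}, GF M → ∀ d : S,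
      ∃ i, (act (pure d * η) (M i) : Set S) ∈ η := by
    intro M hM d
    obtain ⟨j, hj⟩ := (hM.act (pure d * η)).g3 hu hr w1 hφ hA
    exact ⟨j, (hηζ _).2 hj⟩
  have hl : (N l : Set S) ∈ η := (hηζ _).2 (hpt.up (K := N' i ⊓ N l) hA inf_le_right)
  have hi : (N' i : Set S) ∈ η := (hηζ _).2 (hpt.up (K := N' i ⊓ N l) hA inf_le_left)
  have hall : ∀ j, act w2 (HH η ⊓ N j) ≠ ⊥ := by
    intro j
    by_cases hj : j = l
    · subst hj
      obtain ⟨j', hj'⟩ := h'.g1 hu hr hw2 (h.ne w2 j)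
      have hne : j' ≠ i := by
        rintro rfl
        have := h'.g2 hu hr hw2 hj' (by rwa [inf_comm] at h2)
        rw [h.disj _ _ hll, bot_inf_eq, act_bot] at this
        exact this rfl
      exact act_ne_mono (h'.g2 hu hr hw2 (h'.frame hicc hm hη hbot hi hne (hcat h') w2) hj')
        inf_le_left
    · exact h.frame hicc hm hη hbot hl hj (hcat h) w2
  refine eprime hicc hm hu hΓ hC (mk hu (act w2 (HH η))) (fun K hK => ?_) fun F hF => ?_
  · obtain ⟨j, hj⟩ := (h.rank hu hr w2).1 K hK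
    have := (h.rank hu hr w2).2 j (mk hu (act w2 (HH η))) K (by
      rw [← mk_inf, ← act_inf, mk_act_ne hu hw2]; exact hall j) hj
    intro e
    exact this (by rw [e, bot_inf_eq])
  · have h3 : ∀ᶠ g in ((u * w2 : Ultrafilter S) : Filter S), ∀ f ∈ F, g⁻¹ * f * g ∈ HH η :=
      (eventually_all_finset F).2 fun f hf => mem_act.1 (by rw [act_mul]; exact hF f hf)
    obtain ⟨g, hg⟩ := h3.exists
    have h4 : (Cen (F.image fun f => g⁻¹ * f * g) : Set S) ∈ η := cen_mem (by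
      intro f hf
      obtain ⟨f0, hf0, rfl⟩ := Finset.mem_image.1 hf
      exact hg f0 hf0)
    have h5 := (mk_act_ne hu hw1).1 (hφ.ne_bot ((hηζ _).1 h4))
    refine ⟨w1 * pure g⁻¹, hw1.mul_right _, ?_⟩
    rw [act_mul]
    refine act_ne_mono h5 fun x hx => ?_
    rw [mem_act_pure, mem_Cen]
    intro f hf
    have := (mem_Cen.1 hx _ (Finset.mem_image_of_mem _ hf)).eq
    show g⁻¹⁻¹ * x * g⁻¹ * f = f * (g⁻¹⁻¹ * x * g⁻¹)
    calc g⁻¹⁻¹ * x * g⁻¹ * f = g * (x * (g⁻¹ * f * g)) * g⁻¹ := by group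
      _ = f * (g⁻¹⁻¹ * x * g⁻¹) := by rw [this]; group

theorem cons' [Infinite S] (hicc : ICC S) {u : Ultrafilter S} (hm : IsMin u) (hu : u * u = u)
    {Γ : Set (MulAut S)} (hΓ : Γ.Finite) {L : ℕ} (hC : NoChain Γ L) {k : ℕ} (hr : Rank u k)
    {N N' : Fin k → Subgroup S} (h : GF N) (h' : GF N') (c : Fin k) :
    ∃ i, ∀ w, IsMin w → act w (N' i ⊓ N c) ≠ ⊥ := by
  obtain ⟨i, hi⟩ := h'.g1 hu hr hm (h.ne u c)
  refine ⟨i, fun w hw => ?_⟩
  obtain ⟨j, hj⟩ := h'.g1 hu hr hw (h.ne w c)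
  rw [cons hicc hm hu hΓ hC hr h' h hm hw hi hj, inf_comm]
  exact hj

theorem GF.pt (hicc : ICC S) {u : Ultrafilter S} (hm : IsMin u) (hu : u * u = u) {k : ℕ}
    (hr : Rank u k) {N : Fin k → Subgroup S} (h : GF N) (c : Fin k) :
    Pt {K : Subgroup S | ∀ w, IsMin w → MP_a76a9f_al.act w (K ⊓ N c) ≠ ⊥} := by
  refine ⟨fun w _ => by rw [top_inf_eq]; exact h.ne w c,
    fun e => e u hm (by rw [bot_inf_eq, act_bot]),
    fun K hK K' hK' w hw => h.g2 hu hr hw (hK w hw) (hK' w hw), fun K hK K' hK' w hw => ?_⟩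
  have h1 : K'.relIndex (K ⊓ N c) ≠ 0 := fun h0 =>
    hK' (Subgroup.relIndex_eq_zero_of_le_right inf_le_left h0)
  have h2 := ne_bot_of_infinite (infinite_inf (act_relIndex w h1) (hw.act_infinite hicc (hK w hw)))
  rw [← act_inf] at h2
  exact act_ne_mono h2 (inf_le_inf_left _ inf_le_right)

theorem mem_HH_iff {η : Ultrafilter S} {e : S} : e ∈ HH η ↔ (Cen {e} : Set S) ∈ η := by
  rw [mem_HH]
  have : (Cen {e} : Set S) = {x | Commute x e} := by
    ext x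
    simp [mem_Cen]
  rw [this]
  rfl

theorem smul_Cen (α : MulAut S) (e : S) : α • Cen {α⁻¹ e} = Cen {e} := by
  ext x
  simp only [mem_smul, mem_Cen, Finset.mem_singleton, forall_eq]
  exact ⟨fun h => by simpa using h.map α, fun h => h.map α⁻¹⟩

/-- the core theorem -/
theorem tfin [Infinite S] (hicc : ICC S) (AA : Subgroup (MulAut S))
    {Γ : Set (MulAut S)} (hΓ : Γ.Finite) {L : ℕ} (hC : NoChain Γ L) (h2 : C2 S) (h3 : C3 AA) : False := by
  obtain ⟨u, hm, hu, htwo⟩ := exists_good S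
  obtain ⟨N0, hN0⟩ := tinf hicc hm hu hΓ hC
  obtain ⟨k, ⟨M, hM1, hM2⟩, hr⟩ := exists_rank N0 hN0
  by_cases hk : ∀ i j : Fin k, i = j
  · refine tfin_one hicc hm hu htwo hΓ hC h2 fun K K' hK hK' e => ?_
    obtain ⟨i, hi⟩ := (hr M hM1 hM2).1 K hK
    obtain ⟨j, hj⟩ := (hr M hM1 hM2).1 K' hK'
    rw [hk j i] at hj
    exact (hr M hM1 hM2).2 i K K' hi hj (by rw [e, bot_inf_eq])
  push Not at hk
  obtain ⟨i0, j0, hij⟩ := hk
  have hN : GF fun i => (M i).1 := ⟨fun i j h => LL.inf_eq_bot_iff.1 (hM2 i j h), fun w i => by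
    have := hm.act_ne_bot (K := (M i).1)
      (by rw [(M i).2]; exact fun e => hM1 i (LL.eq_bot_iff.2 e)) w
    rwa [(M i).2] at this⟩
  choose η hη hηζ using fun c => exists_eta (hN.pt hicc hm hu hr c)
  simp only [Set.mem_ofPred_eq] at hηζ
  have hne : ∀ c, HH (η c) ≠ ⊥ := by
    intro c e
    obtain ⟨j, hj⟩ : ∃ j, j ≠ c := by
      by_cases h : i0 = c
      · exact ⟨j0, fun h' => hij (h.trans h'.symm)⟩
      · exact ⟨i0, h⟩
    refine hN.frame hicc hm (hη c) (fun e => (hN.pt hicc hm hu hr c).bot ((hηζ c _).1 e))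
      ((hηζ c _).2 fun w _ => by rw [inf_idem]; exact hN.ne w c) hj (fun d => ?_) u
      (by rw [e, bot_inf_eq, act_bot])
    obtain ⟨i, hi⟩ := cons' hicc hm hu hΓ hC hr hN (hN.act (pure d * η c)) c
    exact ⟨i, (hηζ c _).2 hi⟩
  have hperm : ∀ (α : MulAut S) c, ∃ c', α • HH (η c) = HH (η c') := by
    intro α c
    obtain ⟨c', hc'⟩ := cons' hicc hm hu hΓ hC hr (hN.smul α) hN c
    refine ⟨c', ?_⟩
    ext e
    rw [mem_smul, mem_HH_iff, mem_HH_iff, hηζ, hηζ]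
    constructor
    · intro h w hw
      have h1 := h _ (hw.am α⁻¹)
      rw [Ne, ← smul_eq_bot_iff α, smul_act, am_am, mul_inv_cancel, am_one, smul_inf'',
        smul_Cen] at h1
      exact act_ne_mono ((hN.smul α).g2 hu hr hw h1 (hc' w hw)) inf_le_left
    · intro h w hw
      rw [Ne, ← smul_eq_bot_iff α, smul_act, smul_inf'', smul_Cen]
      exact act_ne_mono (hN.g2 hu hr (hw.am α) (h _ (hw.am α))
        (by rw [inf_comm]; exact hc' _ (hw.am α))) inf_le_left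
  have hE := h3 k (fun c => HH (η c)) hne (fun α _ c => hperm α c)
  have hchar : ∀ (α : MulAut S), ∀ e ∈ ⨅ c, HH (η c), α e ∈ ⨅ c, HH (η c) := by
    intro α e he
    rw [Subgroup.mem_iInf] at he ⊢
    intro c
    obtain ⟨c', hc'⟩ := hperm α⁻¹ c
    have := he c'
    rwa [← hc', mem_smul, inv_inv] at this
  have hact : act u (⨅ c, HH (η c)) ≠ ⊥ := by
    intro e
    apply hE
    rw [eq_bot_iff, ← e]
    intro x hx
    exact mem_act.2 (Eventually.of_forall fun g => by simpa using hchar (MulAut.conj g⁻¹) x hx)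
  obtain ⟨c, hc⟩ := hN.g1 hu hr hm hact
  refine hC ⟨fun _ => ⨅ c, HH (η c), fun m _ F hF => ?_⟩
  have h1 : (Cen F : Set S) ∈ η c := cen_mem fun f hf => by
    obtain ⟨n, -, γ, -, d, hd, rfl⟩ := hF f hf
    exact Subgroup.mem_iInf.1 (hchar γ d hd) c
  exact hm.infinite hicc (act_ne_mono (hN.g2 hu hr hm ((hηζ c _).1 h1 u hm) hc) inf_le_left)

end Pool.Agent.P.MP_a76a9f_al
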