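import Pool.Agent.P.MP_a76a9f_al.Basic

set_option autoImplicit false

namespace Pool.Agent.P.MP_a76a9f_al

open Filter
open scoped Pointwise

attribute [local instance] Ultrafilter.semigroup

variable {S : Type} [Group S]

theorem Pt.up {ζ : Set (Subgroup S)} (h : Pt ζ) {K L : Subgroup S} (hK : K ∈ ζ) (hKL : K ≤ L) :
    L ∈ ζ :=
  h.fi K hK L (by rw [Subgroup.relIndex_eq_one.2 hKL]; exact one_ne_zero)

/-- a member of `ζ` is not covered by finitely many cosets of subgroups outside `ζ` -/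
theorem frame_not_cover {ζ : Set (Subgroup S)} (h : Pt ζ) {L : Subgroup S} (hL : L ∈ ζ)
    (C : Finset (Subgroup S × S)) (hC : ∀ c ∈ C, c.1 ∉ ζ) :
    ∃ x ∈ L, ∀ c ∈ C, c.2⁻¹ * x ∉ c.1 := by
  classical
  by_contra hcon
  push Not at hcon
  have hl : ∀ c : Subgroup S × S, ∃ l : L, ∀ x ∈ L, c.2⁻¹ * x ∈ c.1 → c.2⁻¹ * (l : S) ∈ c.1 := by
    intro c
    by_cases hx : ∃ x ∈ L, c.2⁻¹ * x ∈ c.1
    · obtain ⟨x, hx1, hx2⟩ := hx
      exact ⟨⟨x, hx1⟩, fun _ _ _ => hx2⟩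
    · exact ⟨1, fun x hx1 hx2 => absurd ⟨x, hx1, hx2⟩ hx⟩
  choose l hl using hl
  have hcov : ⋃ c ∈ C, l c • ((c.1.subgroupOf L : Subgroup L) : Set L) = Set.univ := by
    rw [Set.eq_univ_iff_forall]
    intro x
    obtain ⟨c, hc, hx⟩ := hcon x x.2
    simp only [Set.mem_iUnion]
    refine ⟨c, hc, ?_⟩
    rw [mem_leftCoset_iff, SetLike.mem_coe, Subgroup.mem_subgroupOf]
    have h2 := c.1.mul_mem (c.1.inv_mem (hl c x x.2 hx)) hx
    simpa [mul_assoc] using h2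
  obtain ⟨c, hc, hfi⟩ := Subgroup.exists_finiteIndex_of_leftCoset_cover hcov
  exact hC c hc (h.fi L hL c.1 hfi.index_ne_zero)

theorem frame_exists_ultra {ζ : Set (Subgroup S)} (h : Pt ζ) :
    ∃ η : Ultrafilter S, (∀ L ∈ ζ, (L : Set S) ∈ η) ∧
      ∀ M : Subgroup S, M ∉ ζ → ∀ g : S, {x | g⁻¹ * x ∈ M}ᶜ ∈ η := by
  classical
  let F : Filter S :=
    { sets := {U | ∃ L ∈ ζ, ∃ C : Finset (Subgroup S × S), (∀ c ∈ C, c.1 ∉ ζ) ∧
        ∀ x ∈ L, (∀ c ∈ C, c.2⁻¹ * x ∉ c.1) → x ∈ U}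
      univ_sets := ⟨⊤, h.top, ∅, by simp, by simp⟩
      sets_of_superset := by
        rintro U V ⟨L, hL, C, hC, hU⟩ hUV
        exact ⟨L, hL, C, hC, fun x hx hx' => hUV (hU x hx hx')⟩
      inter_sets := by
        rintro U V ⟨L, hL, C, hC, hU⟩ ⟨L', hL', C', hC', hV⟩
        refine ⟨L ⊓ L', h.inf L hL L' hL', C ∪ C', ?_, ?_⟩
        · intro c hc
          rcases Finset.mem_union.1 hc with hc | hc
          · exact hC c hc
          · exact hC' c hc
        · intro x hx hx'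
          exact ⟨hU x hx.1 fun c hc => hx' c (Finset.mem_union_left _ hc),
            hV x hx.2 fun c hc => hx' c (Finset.mem_union_right _ hc)⟩ }
  have hF : F.NeBot := by
    rw [← Filter.forall_mem_nonempty_iff_neBot]
    rintro U ⟨L, hL, C, hC, hU⟩
    obtain ⟨x, hx, hx'⟩ := frame_not_cover h hL C hC
    exact ⟨x, hU x hx hx'⟩
  refine ⟨Ultrafilter.of F, fun L hL => Ultrafilter.of_le F ?_,
    fun M hM g => Ultrafilter.of_le F ?_⟩
  · exact ⟨L, hL, ∅, by simp, fun x hx _ => hx⟩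
  · refine ⟨⊤, h.top, {(M, g)}, by simpa using hM, fun x _ hx => ?_⟩
    simpa using hx

/-- (ID) the idempotent attached to a filter of subgroups -/
theorem exists_eta {ζ : Set (Subgroup S)} (h : Pt ζ) :
    ∃ η : Ultrafilter S, η * η = η ∧ ∀ L : Subgroup S, (L : Set S) ∈ η ↔ L ∈ ζ := by
  let Sg : Set (Ultrafilter S) := {η | (∀ L ∈ ζ, (L : Set S) ∈ η) ∧
      ∀ M : Subgroup S, M ∉ ζ → ∀ g : S, {x | g⁻¹ * x ∈ M}ᶜ ∈ η}
  have hne : Sg.Nonempty := frame_exists_ultra h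
  have hcl : IsClosed Sg := by
    have : Sg = (⋂ L ∈ ζ, {η : Ultrafilter S | (L : Set S) ∈ η}) ∩
        ⋂ M ∈ ζᶜ, ⋂ g : S, {η : Ultrafilter S | {x | g⁻¹ * x ∈ M}ᶜ ∈ η} := by
      ext η
      simp only [Sg, Set.mem_inter_iff, Set.mem_iInter, Set.mem_ofPred_eq, Set.mem_compl_iff]
    rw [this]
    exact (isClosed_biInter fun L _ => ultrafilter_isClosed_basic _).inter
      (isClosed_biInter fun M _ => isClosed_iInter fun g => ultrafilter_isClosed_basic _)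
  have hmul : ∀ x ∈ Sg, ∀ y ∈ Sg, x * y ∈ Sg := by
    intro x hx y hy
    refine ⟨fun L hL => ?_, fun M hM g => ?_⟩
    · rw [mem_mul_iff]
      filter_upwards [hx.1 L hL] with a ha
      filter_upwards [hy.1 L hL] with b hb
      exact L.mul_mem ha hb
    · rw [mem_mul_iff]
      refine Filter.Eventually.of_forall fun a => ?_
      filter_upwards [hy.2 M hM (a⁻¹ * g)] with b hb
      simpa [mul_assoc] using hb
  obtain ⟨η, hη, hid⟩ :=
    exists_idempotent_in_compact_subsemigroup cont_mul Sg hne hcl.isCompact hmul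
  refine ⟨η, hid, fun L => ⟨fun hL => ?_, hη.1 L⟩⟩
  by_contra hn
  have h2 := hη.2 L hn 1
  rw [Ultrafilter.compl_mem_iff_notMem] at h2
  apply h2
  simpa using hL

/-- (FRAME) -/
theorem frame {η : Ultrafilter S} (hη : η * η = η) (h1 : ((⊥ : Subgroup S) : Set S) ∉ η)
    (B : Subgroup S) (M : Set (Subgroup S)) (hM : M.Finite)
    (halt : ∀ X ∈ M, X ⊓ B = ⊥ ∨ (B ≤ X ∧ ∃ A : Subgroup S, (A : Set S) ∈ η ∧ X ⊓ A = ⊥))
    (hc : ∀ d : S, ∃ X ∈ M, (act (pure d * η) X : Set S) ∈ η) :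
    (HH η ⊓ B).relIndex (act η B) ≠ 0 := by
  choose X hXM hX using hc
  have : Finite M := hM.to_subtype
  have hX' : ∀ d : S, ∀ᶠ x in (η : Filter S), d⁻¹ * x * d ∈ act η (X d) := by
    intro d
    filter_upwards [hX d] with x hx
    rw [act_mul, SetLike.mem_coe, mem_act_pure] at hx
    exact hx
  have hB1 : act η (act η B) = act η B := by rw [← act_mul, hη]
  refine relIndex_of_col (fun d => (⟨X d, hXM d⟩ : M)) ?_
  intro d hd d' hd' hcol
  have hXX : X d = X d' := congrArg Subtype.val hcol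
  have hXB : X d ⊓ B = ⊥ := by
    rcases halt (X d) (hXM d) with h0 | ⟨hle, A, hA, hXA⟩
    · exact h0
    · exfalso
      apply h1
      have hdX : d ∈ act η (X d) := act_mono η hle hd
      have hbot : act η (X d) ⊓ act η A = ⊥ := by rw [← act_inf, hXA, act_bot]
      rw [← hbot]
      filter_upwards [hX' d, hA] with x hx hxA
      refine ⟨?_, ?_⟩
      · have h2 := (act η (X d)).mul_mem ((act η (X d)).mul_mem hdX hx) ((act η (X d)).inv_mem hdX)
        simpa [mul_assoc] using h2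
      · refine mem_act.2 ?_
        filter_upwards [hA] with g hg
        exact A.mul_mem (A.mul_mem (A.inv_mem hg) hxA) hg
  have hbot : act η (X d) ⊓ act η B = ⊥ := by rw [← act_inf, hXB, act_bot]
  have he : d' * d⁻¹ ∈ act η B := (act η B).mul_mem hd' ((act η B).inv_mem hd)
  have he' : ∀ᶠ x in (η : Filter S), x⁻¹ * (d' * d⁻¹)⁻¹ * x ∈ act η B := by
    have h2 : (d' * d⁻¹)⁻¹ ∈ act η (act η B) := by
      rw [hB1]
      exact (act η B).inv_mem he
    exact mem_act.1 h2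
  have hcomm : ∀ᶠ x in (η : Filter S), Commute x (d' * d⁻¹) := by
    filter_upwards [hX' d, hX' d', he'] with x h2 h3 h4
    rw [← hXX] at h3
    have h5 : (d⁻¹ * x * d)⁻¹ * (d'⁻¹ * x * d') ∈ act η (X d) :=
      (act η (X d)).mul_mem ((act η (X d)).inv_mem h2) h3
    have h6 : (d⁻¹ * x * d)⁻¹ * (d'⁻¹ * x * d') ∈ act η B := by
      have h7 := (act η B).mul_mem ((act η B).mul_mem ((act η B).inv_mem hd) h4) hd'
      simpa [mul_assoc] using h7
    have h8 : (d⁻¹ * x * d)⁻¹ * (d'⁻¹ * x * d') = 1 := by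
      rw [← Subgroup.mem_bot, ← hbot]
      exact ⟨h5, h6⟩
    have h9 : d⁻¹ * x * d = d'⁻¹ * x * d' := inv_mul_eq_one.1 h8
    change x * (d' * d⁻¹) = d' * d⁻¹ * x
    calc x * (d' * d⁻¹) = d' * (d'⁻¹ * x * d') * d⁻¹ := by group
      _ = d' * (d⁻¹ * x * d) * d⁻¹ := by rw [h9]
      _ = d' * d⁻¹ * x := by group
  refine ⟨mem_HH.2 hcomm, ?_⟩
  obtain ⟨x, h2, h3⟩ := (hcomm.and (mem_act.1 he)).exists
  have h4 : x⁻¹ * (d' * d⁻¹) * x = d' * d⁻¹ := by
    rw [mul_assoc, ← h2.eq, ← mul_assoc, inv_mul_cancel, one_mul]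
  rw [h4] at h3
  exact h3

theorem cen_mem {η : Ultrafilter S} {F : Finset S} (hF : ∀ f ∈ F, f ∈ HH η) :
    (Cen F : Set S) ∈ η := by
  have h : ∀ᶠ x in (η : Filter S), ∀ f ∈ F, Commute x f :=
    (Filter.eventually_all_finset F).2 fun f hf => mem_HH.1 (hF f hf)
  filter_upwards [h] with x hx
  exact mem_Cen.2 hx

end Pool.Agent.P.MP_a76a9f_al
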