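import Pool.Agent.P.MP_a76a9f_al.Act

set_option autoImplicit false

namespace Pool.Agent.P.MP_a76a9f_al

open Filter
open scoped Pointwise

attribute [local instance] Ultrafilter.semigroup

variable {S : Type} [Group S]

theorem relIndex_of_col {K K' : Subgroup S} {ι : Type} [Finite ι] (col : S → ι)
    (h : ∀ d ∈ K, ∀ d' ∈ K, col d = col d' → d' * d⁻¹ ∈ K') : K'.relIndex K ≠ 0 := by
  have : Finite (K ⧸ K'.subgroupOf K) := by
    refine Finite.of_injective (fun q : K ⧸ K'.subgroupOf K => col ((q.out : K) : S)⁻¹) ?_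
    intro q q' hq
    rw [← q.out_eq', ← q'.out_eq', eq_comm, QuotientGroup.eq, Subgroup.mem_subgroupOf]
    simpa using h _ (K.inv_mem q.out.2) _ (K.inv_mem q'.out.2) hq
  exact Subgroup.index_ne_zero_of_finite

theorem exists_col {K K' : Subgroup S} (h : K'.relIndex K ≠ 0) :
    ∃ (ι : Type) (_ : Finite ι) (col : S → ι),
      ∀ d ∈ K, ∀ d' ∈ K, col d = col d' → d' * d⁻¹ ∈ K' := by
  classical
  refine ⟨K ⧸ K'.subgroupOf K, Nat.finite_of_card_ne_zero h,
    fun d => if hd : d ∈ K then QuotientGroup.mk (⟨d, hd⟩ : K)⁻¹ else QuotientGroup.mk 1,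
    fun d hd d' hd' hc => ?_⟩
  simp only [dif_pos hd, dif_pos hd'] at hc
  rw [eq_comm, QuotientGroup.eq, Subgroup.mem_subgroupOf] at hc
  simpa using hc

omit [Group S] in
theorem idx_exists_col {ι : Type} [Finite ι] (w : Ultrafilter S) (f : S → ι) :
    ∃ i, ∀ᶠ g in (w : Filter S), f g = i := by
  have : ∀ᶠ g in (w : Filter S), ∃ i, f g = i := Eventually.of_forall fun g => ⟨_, rfl⟩
  exact Ultrafilter.eventually_exists_iff.1 this

theorem act_relIndex (w : Ultrafilter S) {K K' : Subgroup S} (h : K'.relIndex K ≠ 0) :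
    (act w K').relIndex (act w K) ≠ 0 := by
  obtain ⟨ι, _, col, hc⟩ := exists_col h
  choose c hcc using fun d : S => idx_exists_col w fun g => col (g⁻¹ * d * g)
  refine relIndex_of_col c fun d hd d' hd' e => mem_act.2 ?_
  filter_upwards [mem_act.1 hd, mem_act.1 hd', hcc d, hcc d'] with g h1 h2 h3 h4
  have := hc _ h1 _ h2 (h3.trans (e.trans h4.symm))
  simpa [mul_assoc] using this

theorem infinite_inf {K K' : Subgroup S} (h : K'.relIndex K ≠ 0) (hK : (K : Set S).Infinite) :
    ((K' ⊓ K : Subgroup S) : Set S).Infinite := by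
  obtain ⟨ι, _, col, hc⟩ := exists_col h
  have := hK.to_subtype
  obtain ⟨i, hi⟩ := Finite.exists_infinite_fiber fun d : (K : Set S) => col d
  obtain ⟨⟨d0, h0⟩⟩ := hi.nonempty
  refine Set.infinite_of_injective_forall_mem
    (f := fun d : (fun d : (K : Set S) => col d) ⁻¹' {i} => (d.1 : S) * (d0 : S)⁻¹)
    (fun a b hab => Subtype.ext (Subtype.ext (mul_right_cancel hab))) fun d => ?_
  exact ⟨hc _ d0.2 _ d.1.2 ((Set.mem_singleton_iff.1 h0).trans (Set.mem_singleton_iff.1 d.2).symm),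
    K.mul_mem d.1.2 (K.inv_mem d0.2)⟩

theorem ne_bot_of_infinite {K : Subgroup S} (hK : (K : Set S).Infinite) : K ≠ ⊥ := by
  rintro rfl
  exact hK (by simp)

/-- an idempotent ultrafilter containing a left coset contains the subgroup -/
theorem mem_of_leftCoset {η : Ultrafilter S} (hη : η * η = η) {K : Subgroup S} {g : S}
    (h : ∀ᶠ x in (η : Filter S), g⁻¹ * x ∈ K) : (K : Set S) ∈ η := by
  have h2 := h
  rw [← hη, ev_mul] at h2
  obtain ⟨x, h3, h4⟩ := (h.and h2).exists
  refine mem_of_superset h4 fun y hy => ?_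
  have := K.mul_mem (K.inv_mem h3) hy
  simpa [mul_assoc] using this

theorem mem_of_rightCoset {η : Ultrafilter S} (hη : η * η = η) {K : Subgroup S} {g : S}
    (h : ∀ᶠ x in (η : Filter S), x * g⁻¹ ∈ K) : (K : Set S) ∈ η := by
  have h2 := h
  rw [← hη, ev_mul] at h2
  refine mem_of_superset h2 fun x hx => ?_
  obtain ⟨y, h3, h4⟩ := (h.and hx).exists
  have := K.mul_mem h4 (K.inv_mem h3)
  simpa [mul_assoc] using this

theorem mem_of_relIndex {η : Ultrafilter S} (hη : η * η = η) {K K' : Subgroup S}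
    (hK : (K : Set S) ∈ η) (h : K'.relIndex K ≠ 0) : (K' : Set S) ∈ η := by
  obtain ⟨ι, _, col, hc⟩ := exists_col h
  obtain ⟨i, hi⟩ := idx_exists_col η col
  have hK' : ∀ᶠ x in (η : Filter S), x ∈ K := hK
  obtain ⟨g, h1, h2⟩ := (hK'.and hi).exists
  refine mem_of_rightCoset hη (g := g) ?_
  filter_upwards [hK', hi] with x h3 h4
  exact hc _ h1 _ h3 (h2.trans h4.symm)

end Pool.Agent.P.MP_a76a9f_al
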