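import Pool.Agent.P.MP_a76a9f_al.Types

set_option autoImplicit false

namespace Pool.Agent.P.MP_a76a9f_al

open Filter
open scoped Pointwise

attribute [local instance] Ultrafilter.semigroup

variable {S : Type} [Group S]

theorem conf_LL {u : Ultrafilter S} (hm : IsMin u) (A : LL u) (hA : A ≠ ⊥) :
    ∃ P : Set (Set (LL u)), P.Finite ∧
      (∀ π ∈ P, ⊥ ∉ π ∧ ∀ K ∈ π, ∀ L ∈ π, K ⊓ L ∈ π) ∧ ∀ t ∈ GG hm, ∃ π ∈ P, t A ∈ π := by
  have h : act u A.1 ≠ ⊥ := by rw [A.2]; exact fun e => hA (LL.eq_bot_iff.2 e)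
  obtain ⟨P, hP1, hP⟩ := hm.confined h
  refine ⟨(fun p : S => {L : LL u | p ∈ L.1}) '' (P : Set S), P.finite_toSet.image _, ?_, ?_⟩
  · rintro π ⟨p, hp, rfl⟩
    exact ⟨fun h0 => hP1 p hp (Subgroup.mem_bot.1 h0), fun K hK L hL => ⟨hK, hL⟩⟩
  · rintro t ⟨w, hw⟩
    obtain ⟨p, hp, h1⟩ := hP (u * w)
    refine ⟨_, ⟨p, hp, rfl⟩, ?_⟩
    show p ∈ (t A).1
    rw [hw, one_smul, ← act_mul, ← A.2]
    exact h1

theorem inf_step [Infinite S] (hicc : ICC S) {u : Ultrafilter S} (hm : IsMin u) (hu : u * u = u)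
    {Γ : Set (MulAut S)} (hΓ : Γ.Finite) (r : MulAut S → LL u ≃o LL u)
    (hr : ∀ γ K, (r γ K).1 = act u (γ⁻¹ • K.1)) (A : LL u) (hA : A ≠ ⊥) (n : ℕ) (K : ℕ → LL u)
    (hK : ∀ i < n, K i ≠ ⊥) (hd : ∀ i < n, ∀ γ ∈ Γ, (r γ)⁻¹ (K i) ⊓ A = ⊥) :
    ∃ H : Subgroup S, (∀ E0 : Subgroup S, A ≤ mk hu E0 → ∀ F : Finset S, (∀ f ∈ F, f ∈ H) →
        ((Cen F ⊓ E0 : Subgroup S) : Set S).Infinite) ∧
      ∀ i < n, K i ⊓ mk hu (⨅ γ ∈ Γ, γ⁻¹ • H) ≠ ⊥ := by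
  have hty : ∀ γ, IsType u γ⁻¹ (r γ) := fun γ => ⟨pure 1, fun K => by rw [hr, act_pure_one]⟩
  obtain ⟨φ, hφ, hAφ, B, hB⟩ := sep (GG hm) (conf_LL hm) ((fun γ => (r γ)⁻¹) '' Γ) (hΓ.image _)
    (by
      rintro ρ ⟨γ, -, rfl⟩ t ht
      have h1 := (hty γ).inv hm
      have ht' : IsType u 1 t := ht
      constructor
      · have := (h1.mul ht').mul (h1.inv hm)
        show IsType u 1 _
        simpa using this
      · have := ((h1.inv hm).mul ht').mul h1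
        show IsType u 1 _
        simpa using this)
    A hA n K hK (by rintro i hi ρ ⟨γ, hγ, rfl⟩; exact hd i hi γ hγ)
  obtain ⟨η, hη, hηζ⟩ := exists_eta (pt_of_ultra hicc hm hu hφ (pure 1))
  simp only [Set.mem_ofPred_eq, act_pure_one] at hηζ
  have hbot : ((⊥ : Subgroup S) : Set S) ∉ η := fun h =>
    hφ.ne_bot ((hηζ _).1 h) (by rw [LL.eq_bot_iff, mk_val, act_bot])
  refine ⟨HH η, fun E0 hE0 F hF => ?_, fun i hi => ?_⟩
  · have h1 := hφ.inf _ ((hηζ _).1 (cen_mem hF)) _ (hφ.up hAφ hE0)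
    rw [← mk_inf] at h1
    exact hm.infinite hicc (fun e => hφ.ne_bot h1 (LL.eq_bot_iff.2 e))
  · obtain ⟨hB1, hB2, hB3⟩ := hB i hi
    have one : ∀ γ ∈ Γ, ∀ B' ≤ B i, B' ≠ ⊥ → B' ⊓ mk hu (γ⁻¹ • HH η) ≠ ⊥ := by
      intro γ hγ B' hB' hne
      obtain ⟨M, hMf, hMc, hMa⟩ := hB3 _ ⟨γ, hγ, rfl⟩
      have hle : (r γ)⁻¹ B' ≤ (r γ)⁻¹ (B i) := ((r γ)⁻¹).monotone hB'
      have hne' : act u ((r γ)⁻¹ B').1 ≠ ⊥ := by
        rw [((r γ)⁻¹ B').2]
        intro e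
        apply hne
        apply ((r γ)⁻¹).injective
        rw [OrderIso.map_bot]
        exact LL.eq_bot_iff.2 e
      have h := frame' hicc hm hη hbot ((r γ)⁻¹ B').1 (Subtype.val '' M) (hMf.image _)
        (by
          rintro _ ⟨X, hX, rfl⟩
          rcases hMa X hX with h | ⟨h, h'⟩
          · left
            rw [← LL.inf_eq_bot_iff, eq_bot_iff, ← h]
            exact inf_le_inf_left _ hle
          · right
            exact ⟨hle.trans h, A.1, (hηζ _).2 (by rwa [mk_self]), LL.inf_eq_bot_iff.1 h'⟩)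
        (by
          intro d
          obtain ⟨t, ht⟩ := exists_type hm hu 1 (pure d * η)
          obtain ⟨X, hX, h⟩ := hMc t ⟨_, ht⟩
          refine ⟨X.1, ⟨X, hX, rfl⟩, (hηζ _).2 ?_⟩
          convert h
          exact Subtype.ext (by rw [mk_val, ht, one_smul]))
        (am γ u) (by
          have := hm.act_ne_bot hne' (u * am γ u * η)
          rwa [((r γ)⁻¹ B').2, act_mul, act_mul] at this)
      intro e
      apply h
      have e2 : act (am γ u) (HH η ⊓ ((r γ)⁻¹ B').1) = ⊥ := by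
        rw [← smul_eq_bot_iff γ⁻¹, smul_act, am_am, inv_mul_cancel, am_one, smul_inf'', act_inf,
          ← hr, RelIso.apply_inv_self, inf_comm]
        exact LL.inf_eq_bot_iff.1 e
      rw [e2, act_bot]
    have key : ∀ Γ' : Set (MulAut S), Γ'.Finite → Γ' ⊆ Γ →
        B i ⊓ mk hu (⨅ γ ∈ Γ', γ⁻¹ • HH η) ≠ ⊥ := by
      intro Γ' hΓ'
      induction Γ', hΓ' using Set.Finite.induction_on with
      | empty =>
        intro _ e
        rw [LL.inf_eq_bot_iff, mk_val] at e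
        apply hB1
        simpa [act_top, LL.eq_bot_iff] using e
      | @insert γ Γ' _ _ ih =>
        intro hs
        have := one γ (hs (Set.mem_insert _ _)) _ inf_le_left
          (ih ((Set.subset_insert _ _).trans hs))
        rwa [iInf_insert, mk_inf, inf_comm (mk hu _), ← inf_assoc]
    intro e
    apply key Γ hΓ subset_rfl
    rw [eq_bot_iff, ← e]
    exact inf_le_inf_right _ hB2

theorem inf_chain [Infinite S] (hicc : ICC S) {u : Ultrafilter S} (hm : IsMin u) (hu : u * u = u)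
    {Γ : Set (MulAut S)} (hΓ : Γ.Finite) (r : MulAut S → LL u ≃o LL u)
    (hr : ∀ γ K, (r γ K).1 = act u (γ⁻¹ • K.1)) (n : ℕ) :
    ∀ (Rg : ℕ → LL u) (E0 : Subgroup S), (∀ i < n, Rg i ≠ ⊥ ∧ Rg i ≤ mk hu E0) →
      (∀ j < n, ∀ i < j, ∀ γ ∈ Γ, (r γ)⁻¹ (Rg i) ⊓ Rg j = ⊥) →
      ∃ D : ℕ → Subgroup S, (∀ i < n, D i ≤ E0) ∧ ∀ m < n, ∀ F : Finset S,
        (∀ f ∈ F, ∃ k < m, ∃ γ ∈ Γ, ∃ d ∈ D k, f = γ d) →
          ((Cen F ⊓ D m : Subgroup S) : Set S).Infinite := by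
  induction n with
  | zero => exact fun _ _ _ _ => ⟨fun _ => ⊥, by simp, by simp⟩
  | succ n ih =>
    intro Rg E0 h1 h2
    obtain ⟨H, hH1, hH2⟩ := inf_step hicc hm hu hΓ r hr (Rg n) (h1 n n.lt_succ_self).1 n Rg
      (fun i hi => (h1 i (hi.trans n.lt_succ_self)).1) (fun i hi => h2 n n.lt_succ_self i hi)
    obtain ⟨D, hD1, hD2⟩ := ih (fun i => Rg i ⊓ mk hu (⨅ γ ∈ Γ, γ⁻¹ • H))
      (E0 ⊓ ⨅ γ ∈ Γ, γ⁻¹ • H)
      (fun i hi => ⟨hH2 i hi, by
        rw [mk_inf]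
        exact inf_le_inf_right _ (h1 i (hi.trans n.lt_succ_self)).2⟩)
      (fun j hj i hi γ hγ => by
        rw [eq_bot_iff, ← h2 j (hj.trans n.lt_succ_self) i hi γ hγ]
        exact inf_le_inf (((r γ)⁻¹).monotone inf_le_left) inf_le_left)
    refine ⟨fun i => if i < n then D i else E0, fun i _ => ?_, fun m hm' F hF => ?_⟩
    · show (if i < n then D i else E0) ≤ E0
      split_ifs with h
      · exact (hD1 i h).trans inf_le_left
      · exact le_rfl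
    · show ((Cen F ⊓ (if m < n then D m else E0) : Subgroup S) : Set S).Infinite
      split_ifs with h
      · refine hD2 m h F fun f hf => ?_
        obtain ⟨k, hk, γ, hγ, d, hd, e⟩ := hF f hf
        simp only [if_pos (hk.trans h)] at hd
        exact ⟨k, hk, γ, hγ, d, hd, e⟩
      · refine hH1 E0 (h1 n n.lt_succ_self).2 F fun f hf => ?_
        obtain ⟨k, hk, γ, hγ, d, hd, rfl⟩ := hF f hf
        have hkn : k < n := by omega
        simp only [if_pos hkn] at hd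
        have := Subgroup.mem_iInf.1 (Subgroup.mem_iInf.1 (hD1 k hkn hd).2 γ) hγ
        simpa [mem_smul] using this

/-- the rank of the lattice is finite -/
theorem tinf [Infinite S] (hicc : ICC S) {u : Ultrafilter S} (hm : IsMin u) (hu : u * u = u)
    {Γ : Set (MulAut S)} (hΓ : Γ.Finite) {L : ℕ} (hC : NoChain Γ L) :
    ∃ N : ℕ, ∀ 𝒦 : Finset (LL u), (∀ K ∈ 𝒦, K ≠ ⊥) →
      (∀ K ∈ 𝒦, ∀ K' ∈ 𝒦, K ≠ K' → K ⊓ K' = ⊥) → 𝒦.card ≤ N := by
  choose r hr using fun γ : MulAut S => exists_type hm hu γ⁻¹ (pure 1)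
  simp only [act_pure_one] at hr
  obtain ⟨N, hN⟩ := regions ((fun γ => (r γ)⁻¹) '' Γ) (hΓ.image _) L
  refine ⟨N, fun 𝒦 h1 h2 => ?_⟩
  by_contra hc
  obtain ⟨Rg, h3, h4⟩ := hN 𝒦 (by omega) h1 h2
  obtain ⟨D, -, hD⟩ := inf_chain hicc hm hu hΓ r hr L Rg ⊤
    (fun i hi => ⟨(h3 i hi).1, by rw [LL.le_iff, mk_val, act_top]; exact le_top⟩)
    (fun j hj i hi γ hγ => h4 j hj i hi _ ⟨γ, hγ, rfl⟩)
  exact hC ⟨D, hD⟩

end Pool.Agent.P.MP_a76a9f_al
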