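import Pool.Agent.P.MP_a76a9f_al.Defs

set_option autoImplicit false

namespace Pool.Agent.P.MP_a76a9f_al

open Filter

attribute [local instance] Ultrafilter.semigroup

variable {Λ : Type} [SemilatticeInf Λ] [OrderBot Λ]

theorem Ultra.up {φ : Set Λ} (h : Ultra φ) {K L : Λ} (hK : K ∈ φ) (hKL : K ≤ L) : L ∈ φ := by
  by_contra hL
  obtain ⟨M, hM, hML⟩ := h.max L hL
  have h1 : M ⊓ K = ⊥ := le_bot_iff.1 (hML ▸ inf_le_inf_left M hKL)
  exact h.bot (h1 ▸ h.inf M hM K hK)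

theorem Ultra.ne_bot {φ : Set Λ} (h : Ultra φ) {K : Λ} (hK : K ∈ φ) : K ≠ ⊥ := by
  rintro rfl
  exact h.bot hK

theorem exists_ultra (φ0 : Set Λ) (hne : φ0.Nonempty) (hb : ⊥ ∉ φ0)
    (hi : ∀ K ∈ φ0, ∀ L ∈ φ0, K ⊓ L ∈ φ0) : ∃ φ : Set Λ, φ0 ⊆ φ ∧ Ultra φ := by
  let 𝒮 : Set (Set Λ) := {φ | ⊥ ∉ φ ∧ ∀ K ∈ φ, ∀ L ∈ φ, K ⊓ L ∈ φ}
  obtain ⟨φ, hφ0, hmax⟩ := zorn_subset_nonempty 𝒮 (by
    intro c hc hchain _
    refine ⟨⋃₀ c, ⟨?_, ?_⟩, fun s hs => Set.subset_sUnion_of_mem hs⟩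
    · rintro ⟨t, ht, hbt⟩
      exact (hc ht).1 hbt
    · rintro K ⟨t, ht, hK⟩ L ⟨t', ht', hL⟩
      rcases hchain.total ht ht' with h | h
      · exact ⟨t', ht', (hc ht').2 K (h hK) L hL⟩
      · exact ⟨t, ht, (hc ht).2 K hK L (h hL)⟩) φ0 ⟨hb, hi⟩
  refine ⟨φ, hφ0, hmax.prop.1, hmax.prop.2, ?_⟩
  intro K hK
  by_contra hcon
  push Not at hcon
  obtain ⟨L0, hL0⟩ := hne
  have hKb : K ≠ ⊥ := by
    rintro rfl
    exact hcon L0 (hφ0 hL0) (inf_bot_eq _)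
  let ψ : Set Λ := {X | X ∈ φ ∨ X = K ∨ ∃ L ∈ φ, X = L ⊓ K}
  have hψ : ψ ∈ 𝒮 := by
    refine ⟨?_, ?_⟩
    · rintro (h | h | ⟨L, hL, h⟩)
      · exact hmax.prop.1 h
      · exact hKb h.symm
      · exact hcon L hL h.symm
    · rintro X (hX | hX | ⟨L, hL, hX⟩) Y (hY | hY | ⟨L', hL', hY⟩)
      · exact Or.inl (hmax.prop.2 X hX Y hY)
      · exact Or.inr (Or.inr ⟨X, hX, by rw [hY]⟩)
      · exact Or.inr (Or.inr ⟨X ⊓ L', hmax.prop.2 X hX L' hL', by rw [hY, inf_assoc]⟩)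
      · exact Or.inr (Or.inr ⟨Y, hY, by rw [hX, inf_comm]⟩)
      · exact Or.inr (Or.inl (by rw [hX, hY, inf_idem]))
      · exact Or.inr (Or.inr ⟨L', hL', by rw [hX, hY, inf_left_comm, inf_idem]⟩)
      · exact Or.inr (Or.inr ⟨L ⊓ Y, hmax.prop.2 L hL Y hY, by rw [hX, inf_right_comm]⟩)
      · exact Or.inr (Or.inr ⟨L, hL, by rw [hX, hY, inf_assoc, inf_idem]⟩)
      · exact Or.inr (Or.inr ⟨L ⊓ L', hmax.prop.2 L hL L' hL', by
          rw [hX, hY, inf_inf_inf_comm, inf_idem]⟩)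
  have hsub : φ ⊆ ψ := fun X hX => Or.inl hX
  exact hK (hmax.le_of_ge hψ hsub (Or.inr (Or.inl rfl)))

/-- a maximal filter which contains `A` and no member of the finite family `N` contains an
element below `A` missing all of `N` -/
theorem Ultra.exists_private {φ : Set Λ} (h : Ultra φ) {A : Λ} (hA : A ∈ φ) (N : Set Λ)
    (hN : N.Finite) (hNφ : ∀ X ∈ N, X ∉ φ) : ∃ B ∈ φ, B ≤ A ∧ ∀ X ∈ N, B ⊓ X = ⊥ := by
  induction N, hN using Set.Finite.induction_on with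
  | empty => exact ⟨A, hA, le_rfl, by simp⟩
  | @insert a s _ _ ih =>
    obtain ⟨B, hB, hBA, hBs⟩ := ih fun X hX => hNφ X (Set.mem_insert_of_mem _ hX)
    obtain ⟨L, hL, hLa⟩ := h.max a (hNφ a (Set.mem_insert _ _))
    refine ⟨B ⊓ L, h.inf B hB L hL, inf_le_left.trans hBA, ?_⟩
    rintro X (rfl | hX)
    · rw [inf_assoc, hLa, inf_bot_eq]
    · rw [inf_right_comm, hBs X hX, bot_inf_eq]

theorem lat_shrink (R : Finset (Λ ≃o Λ)) (𝒦 : Finset Λ)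
    (hd : ∀ K ∈ 𝒦, ∀ K' ∈ 𝒦, K ≠ K' → K ⊓ K' = ⊥) {K1 : Λ} (hK1 : K1 ≠ ⊥) :
    ∃ R0 : Λ, R0 ≤ K1 ∧ R0 ≠ ⊥ ∧ ∃ 𝓑 : Finset Λ, 𝓑.card ≤ R.card ∧
      ∀ ρ ∈ R, ∀ K ∈ 𝒦, K ∉ 𝓑 → ρ R0 ⊓ K = ⊥ := by
  classical
  induction R using Finset.induction_on with
  | empty => exact ⟨K1, le_rfl, hK1, ∅, le_rfl, by simp⟩
  | insert ρ R hρ ih =>
    obtain ⟨R0, hle, hne, 𝓑, hcard, hB⟩ := ih
    rw [Finset.card_insert_of_notMem hρ]
    by_cases hall : ∀ K ∈ 𝒦, ρ R0 ⊓ K = ⊥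
    · refine ⟨R0, hle, hne, 𝓑, by omega, ?_⟩
      intro ρ' hρ' K hK hKB
      rcases Finset.mem_insert.1 hρ' with rfl | hρ'
      · exact hall K hK
      · exact hB ρ' hρ' K hK hKB
    · push Not at hall
      obtain ⟨K0, hK0, hK0ne⟩ := hall
      have e : ρ (R0 ⊓ ρ.symm K0) = ρ R0 ⊓ K0 := by rw [ρ.map_inf, ρ.apply_symm_apply]
      refine ⟨R0 ⊓ ρ.symm K0, inf_le_left.trans hle, ?_, insert K0 𝓑,
        (Finset.card_insert_le _ _).trans (by omega), ?_⟩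
      · intro h0
        rw [h0, ρ.map_bot] at e
        exact hK0ne e.symm
      · intro ρ' hρ' K hK hKB
        rw [Finset.mem_insert, not_or] at hKB
        rcases Finset.mem_insert.1 hρ' with rfl | hρ'
        · rw [e, inf_assoc, hd K0 hK0 K hK (Ne.symm hKB.1), inf_bot_eq]
        · exact le_bot_iff.1 (hB ρ' hρ' K hK hKB.2 ▸
            inf_le_inf_right K (ρ'.monotone inf_le_left))

/-- many disjoint elements give regions which are disjoint from the translates of earlier ones -/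
theorem regions (R : Set (Λ ≃o Λ)) (hRf : R.Finite) (L : ℕ) : ∃ N : ℕ, ∀ 𝒦 : Finset Λ,
    N ≤ 𝒦.card → (∀ K ∈ 𝒦, K ≠ ⊥) → (∀ K ∈ 𝒦, ∀ K' ∈ 𝒦, K ≠ K' → K ⊓ K' = ⊥) →
    ∃ Rg : ℕ → Λ, (∀ i < L, Rg i ≠ ⊥ ∧ ∃ K ∈ 𝒦, Rg i ≤ K) ∧
      ∀ j < L, ∀ i < j, ∀ ρ ∈ R, ρ (Rg i) ⊓ Rg j = ⊥ := by
  classical
  induction L with
  | zero => exact ⟨0, fun _ _ _ _ => ⟨fun _ => ⊥, by simp, by simp⟩⟩
  | succ L ih =>
    obtain ⟨N, hN⟩ := ih
    refine ⟨N + hRf.toFinset.card + 1, fun 𝒦 hcard hne hd => ?_⟩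
    obtain ⟨K1, hK1⟩ : 𝒦.Nonempty := Finset.card_pos.1 (by omega)
    obtain ⟨R0, hle, hR0, 𝓑, hB, hsh⟩ := lat_shrink hRf.toFinset 𝒦 hd (hne K1 hK1)
    have hc : N ≤ (𝒦 \ 𝓑).card := by
      have := Finset.le_card_sdiff 𝓑 𝒦
      omega
    obtain ⟨Rg, h1, h2⟩ := hN (𝒦 \ 𝓑) hc (fun K hK => hne K (Finset.mem_sdiff.1 hK).1)
      (fun K hK K' hK' => hd K (Finset.mem_sdiff.1 hK).1 K' (Finset.mem_sdiff.1 hK').1)
    refine ⟨fun i => if i = 0 then R0 else Rg (i - 1), ?_, ?_⟩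
    · intro i hi
      by_cases h0 : i = 0
      · simp only [h0, if_true]
        exact ⟨hR0, K1, hK1, hle⟩
      · simp only [h0, if_false]
        obtain ⟨a, K, hK, b⟩ := h1 (i - 1) (by omega)
        exact ⟨a, K, (Finset.mem_sdiff.1 hK).1, b⟩
    · intro j hj i hi ρ hρ
      have hj0 : j ≠ 0 := by omega
      simp only [hj0, if_false]
      by_cases h0 : i = 0
      · simp only [h0, if_true]
        obtain ⟨-, K, hK, b⟩ := h1 (j - 1) (by omega)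
        have := hsh ρ (hRf.mem_toFinset.2 hρ) K (Finset.mem_sdiff.1 hK).1 (Finset.mem_sdiff.1 hK).2
        exact le_bot_iff.1 (this ▸ inf_le_inf_left _ b)
      · simp only [h0, if_false]
        exact h2 (j - 1) (by omega) (i - 1) (by omega) ρ hρ

theorem lat_cons {k : ℕ} (M : Fin k → Λ) (K : Λ) (hK : K ≠ ⊥) (h1 : ∀ i, M i ≠ ⊥)
    (h2 : ∀ i j, i ≠ j → M i ⊓ M j = ⊥) (h3 : ∀ i, K ⊓ M i = ⊥) :
    ∃ M' : Fin (k + 1) → Λ, (∀ i, M' i ≠ ⊥) ∧ ∀ i j, i ≠ j → M' i ⊓ M' j = ⊥ := by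
  refine ⟨Fin.cons K M, ?_, ?_⟩
  · intro i
    refine Fin.cases ?_ (fun i => ?_) i
    · simpa using hK
    · simpa using h1 i
  · intro i j
    refine Fin.cases ?_ (fun i => ?_) i <;> refine Fin.cases ?_ (fun j => ?_) j
    · intro h; exact absurd rfl h
    · intro _; simpa using h3 j
    · intro _; simpa [inf_comm] using h3 i
    · intro h
      simpa using h2 i j fun e => h (by rw [e])

/-- finite rank: a maximal family of pairwise disjoint non-trivial elements -/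
theorem exists_rank (N : ℕ) (hN : ∀ 𝒦 : Finset Λ, (∀ K ∈ 𝒦, K ≠ ⊥) →
    (∀ K ∈ 𝒦, ∀ K' ∈ 𝒦, K ≠ K' → K ⊓ K' = ⊥) → 𝒦.card ≤ N) :
    ∃ k : ℕ, (∃ M : Fin k → Λ, (∀ i, M i ≠ ⊥) ∧ ∀ i j, i ≠ j → M i ⊓ M j = ⊥) ∧
      ∀ M : Fin k → Λ, (∀ i, M i ≠ ⊥) → (∀ i j, i ≠ j → M i ⊓ M j = ⊥) →
        (∀ K : Λ, K ≠ ⊥ → ∃ i, K ⊓ M i ≠ ⊥) ∧
        ∀ i, ∀ K K' : Λ, K ⊓ M i ≠ ⊥ → K' ⊓ M i ≠ ⊥ → K ⊓ K' ⊓ M i ≠ ⊥ := by
  classical
  let P : ℕ → Prop := fun n =>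
    ∃ M : Fin n → Λ, (∀ i, M i ≠ ⊥) ∧ ∀ i j, i ≠ j → M i ⊓ M j = ⊥
  have hP : ∀ n, P n → n ≤ N := by
    rintro n ⟨M, h1, h2⟩
    have hinj : Function.Injective M := by
      intro i j hij
      by_contra hne
      have := h2 i j hne
      rw [← hij, inf_idem] at this
      exact h1 i this
    have := hN (Finset.univ.image M) (by
      intro K hK
      obtain ⟨i, -, rfl⟩ := Finset.mem_image.1 hK
      exact h1 i) (by
      intro K hK K' hK' hne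
      obtain ⟨i, -, rfl⟩ := Finset.mem_image.1 hK
      obtain ⟨j, -, rfl⟩ := Finset.mem_image.1 hK'
      exact h2 i j fun e => hne (by rw [e]))
    rwa [Finset.card_image_of_injective _ hinj, Finset.card_univ, Fintype.card_fin] at this
  have hP0 : P 0 := ⟨fun i => i.elim0, fun i => i.elim0, fun i => i.elim0⟩
  have hk : P (Nat.findGreatest P N) := Nat.findGreatest_spec (Nat.zero_le N) hP0
  have hk1 : ¬ P (Nat.findGreatest P N + 1) := fun h =>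
    Nat.findGreatest_is_greatest (Nat.lt_succ_self _) (hP _ h) h
  refine ⟨Nat.findGreatest P N, hk, fun M h1 h2 => ⟨?_, ?_⟩⟩
  · intro K hK
    by_contra hcon
    push Not at hcon
    exact hk1 (lat_cons M K hK h1 h2 hcon)
  · intro i K K' hKi hK'i hcon
    apply hk1
    refine lat_cons (Function.update M i (K ⊓ M i)) (K' ⊓ M i) hK'i ?_ ?_ ?_
    · intro j
      by_cases hj : j = i
      · rw [hj, Function.update_self]; exact hKi
      · rw [Function.update_of_ne hj]; exact h1 j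
    · have hle : ∀ j, Function.update M i (K ⊓ M i) j ≤ M j := by
        intro j
        by_cases hj : j = i
        · rw [hj, Function.update_self]; exact inf_le_right
        · rw [Function.update_of_ne hj]
      intro a b hab
      exact le_bot_iff.1 (h2 a b hab ▸ inf_le_inf (hle a) (hle b))
    · intro j
      by_cases hj : j = i
      · rw [hj, Function.update_self, inf_inf_inf_comm, inf_idem, inf_comm K' K]
        exact hcon
      · rw [Function.update_of_ne hj, inf_assoc, h2 i j (Ne.symm hj), inf_bot_eq]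

end Pool.Agent.P.MP_a76a9f_al
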