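import Pool.Agent.P.MP_a76a9f_al.Cover

set_option autoImplicit false

namespace Pool.Agent.P.MP_a76a9f_al

open Filter
open scoped Pointwise

attribute [local instance] Ultrafilter.semigroup

variable {G : Type} [Group G]

theorem quot_cen_single (g : G) : Cen {g} = Subgroup.centralizer ({g} : Set G) := by
  simp [Cen]

theorem quot_mem_cent {g x : G} : x ∈ Subgroup.centralizer ({g} : Set G) ↔ Commute x g := by
  rw [← quot_cen_single, mem_Cen]; simp

/-- the elements with finitely many conjugates -/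
def quotZ (G : Type) [Group G] : Subgroup G where
  carrier := {g | (Subgroup.centralizer ({g} : Set G)).FiniteIndex}
  one_mem' := by
    have : Subgroup.centralizer ({1} : Set G) = ⊤ := by
      ext x; simp [quot_mem_cent]
    simp only [Set.mem_ofPred_eq, this]
    infer_instance
  mul_mem' := by
    intro a b ha hb
    simp only [Set.mem_ofPred_eq] at *
    refine Subgroup.finiteIndex_of_le
      (H := Subgroup.centralizer ({a} : Set G) ⊓ Subgroup.centralizer ({b} : Set G)) ?_
    intro x hx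
    exact quot_mem_cent.2 ((quot_mem_cent.1 hx.1).mul_right (quot_mem_cent.1 hx.2))
  inv_mem' := by
    intro a ha
    simp only [Set.mem_ofPred_eq] at *
    refine Subgroup.finiteIndex_of_le (H := Subgroup.centralizer ({a} : Set G)) ?_
    intro x hx
    exact quot_mem_cent.2 (quot_mem_cent.1 hx).inv_right

theorem mem_quotZ {g : G} : g ∈ quotZ G ↔ (Subgroup.centralizer ({g} : Set G)).FiniteIndex :=
  Iff.rfl

theorem quotZ_normal : (quotZ G).Normal := by
  refine ⟨fun a ha g => ?_⟩
  rw [mem_quotZ] at ha ⊢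
  have h1 : ((Subgroup.centralizer ({a} : Set G)).comap
      (MulAut.conj g⁻¹).toMonoidHom).FiniteIndex :=
    ⟨by
      rw [Subgroup.index_comap_of_surjective _ (MulAut.conj g⁻¹).surjective]
      exact ha.index_ne_zero⟩
  refine Subgroup.finiteIndex_of_le (H := (Subgroup.centralizer ({a} : Set G)).comap
      (MulAut.conj g⁻¹).toMonoidHom) ?_
  intro x hx
  have h2 : Commute (g⁻¹ * x * g) a := by simpa using quot_mem_cent.1 hx
  have h3 : g⁻¹ * x * g * a = a * (g⁻¹ * x * g) := h2
  refine quot_mem_cent.2 ?_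
  change x * (g * a * g⁻¹) = g * a * g⁻¹ * x
  calc x * (g * a * g⁻¹) = g * (g⁻¹ * x * g * a) * g⁻¹ := by group
    _ = g * a * g⁻¹ * x := by rw [h3]; group

theorem quot_cen_finiteIndex (F : Finset G) (hF : ∀ f ∈ F, f ∈ quotZ G) :
    (Cen F).FiniteIndex := by
  have h1 := Subgroup.finiteIndex_iInf' (s := F)
    (fun f => Subgroup.centralizer ({f} : Set G)) hF
  refine Subgroup.finiteIndex_of_le (H := ⨅ f ∈ F, Subgroup.centralizer ({f} : Set G)) ?_
  intro x hx
  simp only [Subgroup.mem_iInf] at hx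
  exact mem_Cen.2 fun f hf => quot_mem_cent.1 (hx f hf)

theorem quotZ_finite {Bs : Set G} {L : ℕ} (h : NoChain (MulAut.conj '' Bs) L) :
    Finite (quotZ G) := by
  by_contra hinf
  have hZ : ((quotZ G : Subgroup G) : Set G).Infinite := fun hf => hinf hf.to_subtype
  refine h ⟨fun _ => quotZ G, fun m _ F hF => infinite_inf ?_ hZ⟩
  have := quot_cen_finiteIndex F fun f hf => by
    obtain ⟨n, -, γ, ⟨b, -, rfl⟩, d, hd, rfl⟩ := hF f hf
    exact quotZ_normal.conj_mem d hd b
  exact Subgroup.FiniteIndex.index_ne_zero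

/-- commuting modulo a finite normal subgroup is commuting up to finite index -/
theorem quot_col {N : Subgroup G} [N.Normal] [Finite N] (F : Finset G) {K : Subgroup G}
    (hK : ∀ y ∈ K, ∀ f ∈ F, Commute (y : G ⧸ N) (f : G ⧸ N)) : (Cen F).relIndex K ≠ 0 := by
  classical
  have key : ∀ y ∈ K, ∀ f ∈ F, f⁻¹ * (y⁻¹ * f * y) ∈ N := by
    intro y hy f hf
    rw [← QuotientGroup.eq]
    have h1 : (y : G ⧸ N) * f = f * y := hK y hy f hf
    simp only [QuotientGroup.mk_mul, QuotientGroup.mk_inv, mul_assoc]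
    rw [← h1]; simp
  refine relIndex_of_col (ι := F → Option N)
    (fun y f => if h : (f : G)⁻¹ * (y⁻¹ * f * y) ∈ N then some ⟨_, h⟩ else none) ?_
  intro d hd d' hd' e
  refine mem_Cen.2 fun f hf => ?_
  have e1 := congrFun e ⟨f, hf⟩
  simp only [dif_pos (key d hd f hf), dif_pos (key d' hd' f hf), Option.some.injEq,
    Subtype.mk.injEq, mul_right_inj] at e1
  change d' * d⁻¹ * f = f * (d' * d⁻¹)
  calc d' * d⁻¹ * f = d' * (d⁻¹ * f * d) * d⁻¹ := by group
    _ = f * (d' * d⁻¹) := by rw [e1]; group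

theorem quot_icc [(quotZ G).Normal] [Finite (quotZ G)] : ICC (G ⧸ quotZ G) := by
  intro q hq
  obtain ⟨g, rfl⟩ := QuotientGroup.mk_surjective q
  rw [QuotientGroup.eq_one_iff, mem_quotZ, ← quot_cen_single]
  have h1 := quot_col (N := quotZ G) {g}
    (K := (Subgroup.centralizer ({(g : G ⧸ quotZ G)} : Set (G ⧸ quotZ G))).comap
      (QuotientGroup.mk' (quotZ G))) (fun y hy f hf => by
        rw [Finset.mem_singleton.1 hf]
        exact quot_mem_cent.1 hy)
  have h2 : ((Subgroup.centralizer ({(g : G ⧸ quotZ G)} : Set (G ⧸ quotZ G))).comap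
      (QuotientGroup.mk' (quotZ G))).relIndex ⊤ ≠ 0 := by
    rw [Subgroup.relIndex_top_right,
      Subgroup.index_comap_of_surjective _ (QuotientGroup.mk'_surjective _)]
    exact hq.index_ne_zero
  have h3 := Subgroup.relIndex_ne_zero_trans h1 h2
  rw [Subgroup.relIndex_top_right] at h3
  exact ⟨h3⟩

theorem quot_noChain {N : Subgroup G} [N.Normal] [Finite N] {Bs : Set G} {L : ℕ}
    (h : NoChain (MulAut.conj '' Bs) L) :
    NoChain (MulAut.conj '' ((QuotientGroup.mk' N) '' Bs)) L := by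
  classical
  rintro ⟨D, hD⟩
  refine h ⟨fun n => (D n).comap (QuotientGroup.mk' N), fun m hm F hF => ?_⟩
  have h1 := hD m hm (F.image (QuotientGroup.mk' N)) (by
    intro f' hf'
    obtain ⟨f, hf, rfl⟩ := Finset.mem_image.1 hf'
    obtain ⟨n, hn, γ, ⟨b, hb, rfl⟩, d, hd, rfl⟩ := hF f hf
    exact ⟨n, hn, _, ⟨_, ⟨b, hb, rfl⟩, rfl⟩, _, hd, by simp⟩)
  have h2 : (((Cen (F.image (QuotientGroup.mk' N)) ⊓ D m).comap (QuotientGroup.mk' N) :
      Subgroup G) : Set G).Infinite :=
    h1.preimage (by rw [(QuotientGroup.mk'_surjective N).range_eq]; exact Set.subset_univ _)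
  have h3 := quot_col (N := N) F
    (K := (Cen (F.image (QuotientGroup.mk' N)) ⊓ D m).comap (QuotientGroup.mk' N))
    (fun y hy f hf => mem_Cen.1 hy.1 _ (Finset.mem_image_of_mem _ hf))
  exact (infinite_inf h3 h2).mono fun x hx => ⟨hx.1, hx.2.2⟩

/-- idempotent ultrafilters lift along surjections -/
theorem quot_lift {Q : Type} [Group Q] (π : G →* Q) (hπ : Function.Surjective π)
    {η : Ultrafilter Q} (hη : η * η = η) :
    ∃ ξ : Ultrafilter G, ξ.map π = η ∧ ξ * ξ = ξ := by
  have hcl : IsClosed {ξ : Ultrafilter G | ξ.map π = η} := by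
    have : {ξ : Ultrafilter G | ξ.map π = η} = ⋂ A ∈ η, {ξ : Ultrafilter G | π ⁻¹' A ∈ ξ} := by
      ext ξ
      simp only [Set.mem_ofPred_eq, Set.mem_iInter]
      constructor
      · rintro rfl A hA
        exact hA
      · intro hA
        exact Ultrafilter.eq_of_le fun A h => hA A h
    rw [this]
    exact isClosed_biInter fun A _ => ultrafilter_isClosed_basic _
  refine exists_idempotent_in_compact_subsemigroup cont_mul _ ?_ hcl.isCompact ?_
  · refine ⟨η.map (Function.surjInv hπ), ?_⟩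
    change (η.map (Function.surjInv hπ)).map π = η
    rw [Ultrafilter.map_map, Function.comp_surjInv hπ]
    exact Ultrafilter.map_id η
  · intro x hx y hy
    have h1 : x.map π = η := hx
    have h2 : y.map π = η := hy
    change (x * y).map π = η
    rw [map_mul', h1, h2, hη]

theorem quot_H2 (h : Cover G) {N : Subgroup G} [N.Normal] [Finite N] : H2 (G ⧸ N) := by
  intro η hη h1
  obtain ⟨ξ, rfl, hξ⟩ := quot_lift (QuotientGroup.mk' N) (QuotientGroup.mk'_surjective N) hη
  obtain ⟨b, c, hbc, hT⟩ := h.idem hξ (fun h2 => h1 (Ultrafilter.mem_map.2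
    (mem_of_superset h2 (by rintro _ rfl; simp))))
  have key : ∀ e : G, {x | Commute x (e : G ⧸ N)} ∈ ξ.map (QuotientGroup.mk' N) →
      ∃ x : G, Commute (x⁻¹ * b * x) c ∧ Commute x e := by
    intro e he
    have h2 : (((Subgroup.centralizer ({(e : G ⧸ N)} : Set (G ⧸ N))).comap
        (QuotientGroup.mk' N) : Subgroup G) : Set G) ∈ ξ :=
      mem_of_superset (Ultrafilter.mem_map.1 he) fun x hx => quot_mem_cent.2 hx
    have h3 := mem_of_relIndex hξ h2 (quot_col (N := N) {e} fun y hy f hf => by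
      rw [Finset.mem_singleton.1 hf]
      exact quot_mem_cent.1 hy)
    obtain ⟨x, hx1, hx2⟩ := ξ.nonempty_of_mem (inter_mem hT h3)
    exact ⟨x, hx1, mem_Cen.1 hx2 e (Finset.mem_singleton_self e)⟩
  refine ⟨b, c, Ultrafilter.mem_map.2 (mem_of_superset hT fun x hx => ?_), fun he => ?_,
    fun he => ?_⟩
  · exact Commute.map (f := QuotientGroup.mk' N) hx
  · obtain ⟨x, h2, h3⟩ := key b he
    have h4 : x * b = b * x := h3
    have h5 : x⁻¹ * b * x = b := by rw [mul_assoc, ← h4]; simp
    exact hbc (h5 ▸ h2)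
  · obtain ⟨x, h2, h3⟩ := key c he
    have h4 := (h3.mul_left h2).mul_left h3.inv_left
    have h5 : x * (x⁻¹ * b * x) * x⁻¹ = b := by group
    exact hbc (h5 ▸ h4)

/-- passage to the quotient by the finite FC-centre -/
theorem Cover.reduce [Infinite G] (h : Cover G) :
    ∃ (Q : Type) (_ : Group Q), Infinite Q ∧ ICC Q ∧
      (∃ Bs : Set Q, Bs.Finite ∧ ∃ L : ℕ, NoChain (MulAut.conj '' Bs) L) ∧ H2 Q := by
  obtain ⟨Bs, hBs, L, hL⟩ := h.noChain
  have := quotZ_normal (G := G)
  have := quotZ_finite hL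
  refine ⟨G ⧸ quotZ G, inferInstance, ?_, quot_icc, ⟨_, hBs.image _, L, quot_noChain hL⟩,
    quot_H2 h⟩
  rw [← not_finite_iff_infinite]
  intro hf
  exact not_finite_iff_infinite.2 ‹Infinite G›
    (Finite.of_equiv _ (Subgroup.groupEquivQuotientProdSubgroup (s := quotZ G)).symm)

end Pool.Agent.P.MP_a76a9f_al
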