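import Pool.Agent.P.MP_a76a9f_al.Fin
import Pool.Agent.P.MP_a76a9f_al.Quot
import Pool.Agent.P.MP_a76a9f_al.AtomB

set_option autoImplicit false

namespace Pool.Agent.P.MP_a76a9f_al

open Filter
open scoped Pointwise

attribute [local instance] Ultrafilter.semigroup

theorem not_cover (G : Type) [Group G] [Infinite G] : ¬ Cover G := by
  classical
  intro h
  obtain ⟨Q, _, hinf, hicc, ⟨Bs, hB, L, hC⟩, h2⟩ := h.reduce
  obtain ⟨u, hm, hu, -⟩ := exists_good Q
  obtain ⟨N, hN⟩ := tinf hicc hm hu (hB.image _) hC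
  have hfix : ∀ K : Subgroup Q, VN K → act u K = K := fun K hK =>
    act_of_normalizer (mem_of_relIndex hu (K := ⊤) (by rw [Subgroup.coe_top]; exact Filter.univ_mem)
      (by rw [Subgroup.relIndex_top_right]; exact hK.index_ne_zero))
  obtain ⟨A, hA⟩ := exists_atom hicc N (fun 𝒦 h1 h2 => by
    have hinj : Set.InjOn (mk hu) (𝒦 : Set (Subgroup Q)) := by
      intro K hK K' hK' e
      have := congrArg Subtype.val e
      rwa [mk_val, mk_val, hfix K (h1 K hK).1, hfix K' (h1 K' hK').1] at this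
    rw [← Finset.card_image_of_injOn hinj]
    apply hN
    · intro K hK
      obtain ⟨K0, hK0, rfl⟩ := Finset.mem_image.1 hK
      rw [Ne, LL.eq_bot_iff, mk_val, hfix K0 (h1 K0 hK0).1]
      exact (h1 K0 hK0).2
    · intro K hK K' hK' hne
      obtain ⟨K0, hK0, rfl⟩ := Finset.mem_image.1 hK
      obtain ⟨K1, hK1, rfl⟩ := Finset.mem_image.1 hK'
      rw [LL.inf_eq_bot_iff, mk_val, mk_val, hfix K0 (h1 K0 hK0).1, hfix K1 (h1 K1 hK1).1]
      exact h2 K0 hK0 K1 hK1 (fun e => hne (by rw [e])))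
  have : Infinite A := (hA.vn.infinite hicc hA.ne).to_subtype
  have hiccA := hA.icc hicc hC
  obtain ⟨Γ, hΓ, -, hCA⟩ := hA.noChain hB hC
  exact tfin hiccA _ hΓ hCA (hA.c2 hiccA h2) hA.c3

end Pool.Agent.P.MP_a76a9f_al
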