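import Pool.Agent.P.MP_a76a9f_al.Main

/-! The covering statement relative to a normal subgroup: reduction to a quotient. -/

set_option autoImplicit false

namespace Pool.Agent.P.MP_a76a9f_al

open Filter
open scoped Pointwise

attribute [local instance] Ultrafilter.semigroup

variable {G : Type} [Group G]

/-- no commuting chain of length `L` inside `N` -/
def NoChainIn (N : Subgroup G) (Bs : Set G) (L : ℕ) : Prop :=
  ¬ ∃ D : ℕ → Subgroup G, (∀ n, D n ≤ N) ∧ ∀ m < L, ∀ F : Finset G,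
    (∀ f ∈ F, ∃ n < m, ∃ γ ∈ MulAut.conj '' Bs, ∃ d ∈ D n, f = γ d) →
      ((Cen F ⊓ D m : Subgroup G) : Set G).Infinite

/-- the solution set of a conjugation equation of degree four -/
def TT (q : G × G × G) : Set G := {x | x⁻¹ * q.1 * x * q.2.1 * (x⁻¹ * q.1 * x)⁻¹ = q.2.2}

/-- `N` is covered by a finite set and finitely many solution sets missing `1` -/
def CovIn (N : Subgroup G) : Prop :=
  ∃ (E : Set G) (Q : Set (G × G × G)), E.Finite ∧ Q.Finite ∧ (∀ q ∈ Q, 1 ∉ TT q) ∧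
    ∀ x ∈ N, x ∈ E ∨ ∃ q ∈ Q, x ∈ TT q

/-- what the cover says about idempotent ultrafilters on `N` -/
def H2In (N : Subgroup G) : Prop :=
  ∀ η : Ultrafilter G, η * η = η → ({1} : Set G) ∉ η → (N : Set G) ∈ η → ∃ b c : G, ∃ T ∈ η,
    (∀ x ∈ T, ∀ x' ∈ T, Commute ((x'⁻¹ * b * x')⁻¹ * (x⁻¹ * b * x)) c) ∧
      {x | Commute x b} ∉ η ∧ {x | Commute x c} ∉ η

/-- only `1` has finitely many conjugates under `N` -/
def ICCIn (N : Subgroup G) : Prop :=
  ∀ g : G, (Subgroup.centralizer ({g} : Set G)).relIndex N ≠ 0 → g = 1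

theorem TT.comm {q : G × G × G} {x x' : G} (hx : x ∈ TT q) (hx' : x' ∈ TT q) :
    Commute ((x'⁻¹ * q.1 * x')⁻¹ * (x⁻¹ * q.1 * x)) q.2.1 := by
  have h1 : x⁻¹ * q.1 * x * q.2.1 * (x⁻¹ * q.1 * x)⁻¹ = q.2.2 := hx
  have h2 : x'⁻¹ * q.1 * x' * q.2.1 * (x'⁻¹ * q.1 * x')⁻¹ = q.2.2 := hx'
  generalize x⁻¹ * q.1 * x = u at h1
  generalize x'⁻¹ * q.1 * x' = v at h2
  show v⁻¹ * u * q.2.1 = q.2.1 * (v⁻¹ * u)
  calc v⁻¹ * u * q.2.1 = v⁻¹ * (u * q.2.1 * u⁻¹) * u := by group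
    _ = q.2.1 * (v⁻¹ * u) := by rw [h1, ← h2]; group

theorem TT.tri {q : G × G × G} {x y : G} (hx : x ∈ TT q) (hy : y ∈ TT q) (hxy : x * y ∈ TT q)
    (h1 : Commute y x) (h2 : Commute y (q.1⁻¹ * x * q.1)) : 1 ∈ TT q := by
  have h3 : Commute y ((q.1⁻¹ * x * q.1)⁻¹ * x) := h2.inv_right.mul_right h1
  have h4 : (y⁻¹ * q.1 * y)⁻¹ * ((x * y)⁻¹ * q.1 * (x * y)) = (q.1⁻¹ * x * q.1)⁻¹ * x := by
    calc (y⁻¹ * q.1 * y)⁻¹ * ((x * y)⁻¹ * q.1 * (x * y))
        = y⁻¹ * (((q.1⁻¹ * x * q.1)⁻¹ * x) * y) := by group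
      _ = y⁻¹ * (y * ((q.1⁻¹ * x * q.1)⁻¹ * x)) := by rw [h3.eq]
      _ = (q.1⁻¹ * x * q.1)⁻¹ * x := by group
  have h5 : Commute ((q.1⁻¹ * x * q.1)⁻¹ * x) q.2.1 := h4 ▸ TT.comm hxy hy
  have h6 : x⁻¹ * q.1 * x = q.1 * ((q.1⁻¹ * x * q.1)⁻¹ * x) := by group
  have h7 : x⁻¹ * q.1 * x * q.2.1 * (x⁻¹ * q.1 * x)⁻¹ = q.2.2 := hx
  rw [h6] at h7
  generalize (q.1⁻¹ * x * q.1)⁻¹ * x = k at h5 h7
  show 1⁻¹ * q.1 * 1 * q.2.1 * (1⁻¹ * q.1 * 1)⁻¹ = q.2.2
  rw [← h7, mul_assoc q.1 k, h5.eq]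
  group

/-- the covering sets, indexed by one finite type -/
def CovIn.In (N : Subgroup G) (E : Set G) (Q : Set (G × G × G)) (c : Option (↥E ⊕ ↥Q)) (x : G) :
    Prop := c.elim (x ∉ N) fun s => s.elim (fun e => x = e.1) fun q => x ∈ TT q.1

theorem CovIn.exists_in {N : Subgroup G} {E : Set G} {Q : Set (G × G × G)}
    (h : ∀ x ∈ N, x ∈ E ∨ ∃ q ∈ Q, x ∈ TT q) (x : G) : ∃ c, CovIn.In N E Q c x := by
  by_cases hx : x ∈ N
  · rcases h x hx with h1 | ⟨q, hq, h1⟩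
    · exact ⟨some (Sum.inl ⟨x, h1⟩), rfl⟩
    · exact ⟨some (Sum.inr ⟨q, hq⟩), h1⟩
  · exact ⟨none, hx⟩

theorem CovIn.noChain {N : Subgroup G} (h : CovIn N) :
    ∃ Bs : Set G, Bs.Finite ∧ ∃ L : ℕ, NoChainIn N Bs L := by
  classical
  obtain ⟨E, Q, hE, hQ, hQ1, hcov⟩ := h
  have := hE.to_subtype
  have := hQ.to_subtype
  obtain ⟨M, hM⟩ := Pool.Agent.Lib.Ramsey.ramsey (Option (↥E ⊕ ↥Q)) 2 3
  have hBs : (insert (1 : G) ((fun q : G × G × G => q.1⁻¹) '' Q)).Finite := (hQ.image _).insert _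
  refine ⟨insert 1 ((fun q : G × G × G => q.1⁻¹) '' Q), hBs, M, ?_⟩
  rintro ⟨D, hDN, hD⟩
  obtain ⟨p, h1, h2, h3⟩ := Cover.chain (hBs.image _) hD M le_rfl
  have hN : ∀ i j, i ≤ j → j ≤ M → (p i)⁻¹ * p j ∈ N := by
    intro i j hij
    induction j, hij using Nat.le_induction with
    | base => intro _; simp
    | succ t ht ih =>
      intro htn
      have e : (p i)⁻¹ * p (t + 1) = (p i)⁻¹ * p t * ((p t)⁻¹ * p (t + 1)) := by group
      rw [e]
      exact N.mul_mem (ih (by omega)) (hDN t (h1 t (by omega)))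
  choose col hcol using CovIn.exists_in hcov
  obtain ⟨B, hB, hc, c, hcB⟩ := hM ℕ (Finset.range M) (by simp)
    fun f => col ((p (f 0))⁻¹ * p (f 1))
  let e := B.orderEmbOfFin hc
  have hmem : ∀ t, e t ∈ B := fun t => Finset.orderEmbOfFin_mem B hc t
  have hin : ∀ s t : Fin 3, s < t → CovIn.In N E Q c ((p (e s))⁻¹ * p (e t)) := by
    intro s t hst
    have hg : StrictMono (![s, t] : Fin 2 → Fin 3) := by
      rw [Fin.strictMono_iff_lt_succ]
      intro i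
      fin_cases i
      exact hst
    have h0 := hcB (fun u => e (![s, t] u)) (e.strictMono.comp hg) fun u => hmem _
    have h1 := hcol ((p (e s))⁻¹ * p (e t))
    have h4 : col ((p (e s))⁻¹ * p (e t)) = c := h0
    rwa [h4] at h1
  have h01 : e 0 < e 1 := e.strictMono (by decide)
  have h12 : e 1 < e 2 := e.strictMono (by decide)
  have h2N : e 2 ≤ M := (Finset.mem_range.1 (hB (hmem 2))).le
  have hx := hin 0 1 (by decide)
  have hy := hin 1 2 (by decide)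
  have hxy := hin 0 2 (by decide)
  have hcomm : ∀ b ∈ insert (1 : G) ((fun q : G × G × G => q.1⁻¹) '' Q),
      Commute ((p (e 1))⁻¹ * p (e 2)) (b * ((p (e 0))⁻¹ * p (e 1)) * b⁻¹) := fun b hb =>
    Cover.blocks (γ := MulAut.conj b) (fun n hn k hk => h2 n hn k hk _ ⟨b, hb, rfl⟩)
      h01.le h12.le h2N
  rcases c with _ | q | q
  · exact hx (hN _ _ h01.le (by omega))
  · have e1 : (p (e 0))⁻¹ * p (e 1) = q.1 := hx
    have e2 : (p (e 0))⁻¹ * p (e 2) = q.1 := hxy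
    exact h3 (e 1) (e 2) h12 h2N (mul_left_cancel (e1.trans e2.symm))
  · have hprod : (p (e 0))⁻¹ * p (e 2) = (p (e 0))⁻¹ * p (e 1) * ((p (e 1))⁻¹ * p (e 2)) := by
      group
    rw [hprod] at hxy
    refine hQ1 q.1 q.2 (TT.tri hx hy hxy ?_ ?_)
    · simpa using hcomm 1 (Set.mem_insert _ _)
    · simpa using hcomm q.1.1⁻¹ (Set.mem_insert_of_mem _ ⟨q.1, q.2, rfl⟩)

theorem CovIn.idem {N : Subgroup G} (h : CovIn N) {η : Ultrafilter G} (hη : η * η = η)
    (h1 : ({1} : Set G) ∉ η) (hN : (N : Set G) ∈ η) : ∃ q, 1 ∉ TT q ∧ TT q ∈ η := by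
  obtain ⟨E, Q, hE, hQ, hQ1, hcov⟩ := h
  have := hE.to_subtype
  have := hQ.to_subtype
  have h2 : ∀ᶠ x in (η : Filter G), ∃ c, CovIn.In N E Q c x :=
    Eventually.of_forall (CovIn.exists_in hcov)
  obtain ⟨c, hc⟩ := Ultrafilter.eventually_exists_iff.1 h2
  rcases c with _ | q | q
  · obtain ⟨x, hx, hx'⟩ := (hc.and hN).exists
    exact absurd hx' hx
  · refine absurd (mem_of_leftCoset hη (K := ⊥) (g := q.1) ?_) (by simpa using h1)
    filter_upwards [hc] with x hx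
    have : x = q.1 := hx
    simp [this]
  · exact ⟨q.1, hQ1 q.1 q.2, hc⟩

theorem conj_const {η : Ultrafilter G} (hη : η * η = η) {k d : G}
    (h : ∀ᶠ x in (η : Filter G), x⁻¹ * k * x = d) : k = d := by
  obtain ⟨y, hy⟩ := h.exists
  have h1 : ((Subgroup.centralizer ({k} : Set G) : Subgroup G) : Set G) ∈ η := by
    refine mem_of_rightCoset hη (g := y) ?_
    filter_upwards [h] with x hx
    refine quot_mem_cent.2 ?_
    show x * y⁻¹ * k = k * (x * y⁻¹)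
    calc x * y⁻¹ * k = x * (y⁻¹ * k * y) * y⁻¹ := by group
      _ = k * (x * y⁻¹) := by rw [hy, ← hx]; group
  obtain ⟨x, hx, hx'⟩ := (h.and h1).exists
  rw [← hx, mul_assoc, ← (quot_mem_cent.1 hx').eq]
  group

/-- the elements with finitely many conjugates under `N` -/
def relK (N : Subgroup G) : Subgroup G where
  carrier := {a | (Subgroup.centralizer ({a} : Set G)).relIndex N ≠ 0}
  one_mem' := (atomBZ N).one_mem.2
  mul_mem' := by
    intro a b ha' hb'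
    refine fun h => Subgroup.relIndex_inf_ne_zero ha' hb'
      (Subgroup.relIndex_eq_zero_of_le_left ?_ h)
    intro x hx
    rw [Subgroup.mem_inf, atomB_mem_cen, atomB_mem_cen] at hx
    exact atomB_mem_cen.2 (hx.1.mul_right hx.2)
  inv_mem' := by
    intro a ha'
    refine fun h => ha' (Subgroup.relIndex_eq_zero_of_le_left ?_ h)
    intro x hx
    exact atomB_mem_cen.2 (atomB_mem_cen.1 hx).inv_right

theorem relK_normal (N : Subgroup G) [hN : N.Normal] : (relK N).Normal := by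
  refine ⟨fun a ha b => ?_⟩
  obtain ⟨ι, _, col, hcol⟩ := exists_col ha
  refine relIndex_of_col (fun d => col (b⁻¹ * d * b)) fun d hd d' hd' e => ?_
  have h1 : ∀ d ∈ N, b⁻¹ * d * b ∈ N := fun d hd => by simpa using hN.conj_mem d hd b⁻¹
  have h2 := (atomB_mem_cen.1 (hcol _ (h1 d hd) _ (h1 d' hd') e)).conj b
  rw [atomB_mem_cen, show d' * d⁻¹ = b * (b⁻¹ * d' * b * (b⁻¹ * d * b)⁻¹) * b⁻¹ by group]
  exact h2

theorem relK_finite {N : Subgroup G} [N.Normal] {Bs : Set G} {L : ℕ} (h : NoChainIn N Bs L) :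
    Finite ↥(relK N ⊓ N) := by
  by_contra hinf
  have hZ : ((relK N ⊓ N : Subgroup G) : Set G).Infinite := fun hf => hinf hf.to_subtype
  refine h ⟨fun _ => relK N ⊓ N, fun _ => inf_le_right, fun m _ F hF =>
    infinite_inf (fun h0 => ?_) hZ⟩
  refine atomB_cen (K := N) F (fun f hf => ?_)
    (Subgroup.relIndex_eq_zero_of_le_right inf_le_right h0)
  obtain ⟨n, -, γ, ⟨b, -, rfl⟩, d, hd, rfl⟩ := hF f hf
  exact (relK_normal N).conj_mem d hd.1 b

section quot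

variable {N K : Subgroup G} [hN : N.Normal] [K.Normal] [Finite ↥(K ⊓ N)]

theorem rel_col (F : Finset G) {K₀ : Subgroup G} (hle : K₀ ≤ N)
    (hK : ∀ y ∈ K₀, ∀ f ∈ F, Commute (y : G ⧸ K) (f : G ⧸ K)) : (Cen F).relIndex K₀ ≠ 0 := by
  classical
  have key : ∀ y ∈ K₀, ∀ f ∈ F, f⁻¹ * (y⁻¹ * f * y) ∈ K ⊓ N := by
    intro y hy f hf
    refine ⟨?_, ?_⟩
    · refine QuotientGroup.eq.1 ?_
      have h1 : (y : G ⧸ K) * f = f * y := hK y hy f hf
      simp only [QuotientGroup.mk_mul, QuotientGroup.mk_inv, mul_assoc]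
      rw [← h1]; simp
    · have := N.mul_mem (hN.conj_mem _ (N.inv_mem (hle hy)) f⁻¹) (hle hy)
      simpa [mul_assoc] using this
  refine relIndex_of_col (ι := F → Option ↥(K ⊓ N))
    (fun y f => if h : (f : G)⁻¹ * (y⁻¹ * f * y) ∈ K ⊓ N then some ⟨_, h⟩ else none) ?_
  intro d hd d' hd' e
  refine mem_Cen.2 fun f hf => ?_
  have e1 := congrFun e ⟨f, hf⟩
  simp only [dif_pos (key d hd f hf), dif_pos (key d' hd' f hf), Option.some.injEq,
    Subtype.mk.injEq, mul_right_inj] at e1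
  change d' * d⁻¹ * f = f * (d' * d⁻¹)
  calc d' * d⁻¹ * f = d' * (d⁻¹ * f * d) * d⁻¹ := by group
    _ = f * (d' * d⁻¹) := by rw [e1]; group

theorem rel_noChain {Bs : Set G} {L : ℕ} (h : NoChainIn N Bs L) :
    NoChainIn (N.map (QuotientGroup.mk' K)) ((QuotientGroup.mk' K) '' Bs) L := by
  classical
  rintro ⟨D, hDN, hD⟩
  refine h ⟨fun n => (D n).comap (QuotientGroup.mk' K) ⊓ N, fun _ => inf_le_right,
    fun m hm F hF => ?_⟩
  have h1 := hD m hm (F.image (QuotientGroup.mk' K)) (by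
    intro f' hf'
    obtain ⟨f, hf, rfl⟩ := Finset.mem_image.1 hf'
    obtain ⟨n, hn, γ, ⟨b, hb, rfl⟩, d, hd, rfl⟩ := hF f hf
    exact ⟨n, hn, _, ⟨_, ⟨b, hb, rfl⟩, rfl⟩, _, hd.1, by simp⟩)
  have h2 : (((Cen (F.image (QuotientGroup.mk' K)) ⊓ D m).comap (QuotientGroup.mk' K) ⊓ N :
      Subgroup G) : Set G).Infinite := by
    refine Set.Infinite.of_image (QuotientGroup.mk' K) (h1.mono fun z hz => ?_)
    obtain ⟨y, hy, rfl⟩ := hDN m hz.2
    exact ⟨y, ⟨hz, hy⟩, rfl⟩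
  have h3 := rel_col (N := N) (K := K) F
    (K₀ := (Cen (F.image (QuotientGroup.mk' K)) ⊓ D m).comap (QuotientGroup.mk' K) ⊓ N)
    inf_le_right (fun y hy f hf => mem_Cen.1 hy.1.1 _ (Finset.mem_image_of_mem _ hf))
  exact (infinite_inf h3 h2).mono fun x hx => ⟨hx.1, hx.2.1.2, hx.2.2⟩

theorem rel_lift {Q : Type} [Group Q] (π : G →* Q) (M : Subgroup G) {η : Ultrafilter Q}
    (hη : η * η = η) (hM : (M.map π : Set Q) ∈ η) :
    ∃ ξ : Ultrafilter G, (ξ.map π = η ∧ (M : Set G) ∈ ξ) ∧ ξ * ξ = ξ := by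
  have hcl : IsClosed {ξ : Ultrafilter G | ξ.map π = η ∧ (M : Set G) ∈ ξ} := by
    refine IsClosed.inter ?_ (ultrafilter_isClosed_basic _)
    have : {ξ : Ultrafilter G | ξ.map π = η} = ⋂ A ∈ η, {ξ : Ultrafilter G | π ⁻¹' A ∈ ξ} := by
      ext ξ
      simp only [Set.mem_ofPred_eq, Set.mem_iInter]
      constructor
      · rintro rfl A hA
        exact hA
      · intro hA
        exact Ultrafilter.eq_of_le fun A h => hA A h
    change IsClosed {ξ : Ultrafilter G | ξ.map π = η}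
    rw [this]
    exact isClosed_biInter fun A _ => ultrafilter_isClosed_basic _
  refine exists_idempotent_in_compact_subsemigroup cont_mul _ ?_ hcl.isCompact ?_
  · have hs : ∀ z : Q, ∃ y : G, z ∈ M.map π → y ∈ M ∧ π y = z := fun z => by
      by_cases hz : z ∈ M.map π
      · obtain ⟨y, hy, e⟩ := hz
        exact ⟨y, fun _ => ⟨hy, e⟩⟩
      · exact ⟨1, fun h => absurd h hz⟩
    choose σ hσ using hs
    refine ⟨η.map σ, Ultrafilter.eq_of_le fun A hA => ?_, ?_⟩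
    · change σ ⁻¹' (π ⁻¹' A) ∈ η
      filter_upwards [hA, hM] with z h1 h2
      show π (σ z) ∈ A
      rwa [(hσ z h2).2]
    · change σ ⁻¹' M ∈ η
      filter_upwards [hM] with z h2
      exact (hσ z h2).1
  · rintro x ⟨h1, h3⟩ y ⟨h2, h4⟩
    refine ⟨by rw [map_mul', h1, h2, hη], (mem_mul_iff x y _).2 ?_⟩
    filter_upwards [h3] with a ha
    filter_upwards [h4] with b hb
    exact M.mul_mem ha hb

theorem rel_H2 (h : CovIn N) : H2In (N.map (QuotientGroup.mk' K)) := by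
  intro η hη h1 hM
  obtain ⟨ξ, ⟨rfl, hξN⟩, hξ⟩ := rel_lift (QuotientGroup.mk' K) N hη hM
  obtain ⟨⟨b, c, d⟩, hbc, hT⟩ := h.idem hξ (fun h2 => h1 (Ultrafilter.mem_map.2
    (mem_of_superset h2 (by rintro _ rfl; simp)))) hξN
  have key : ∀ e : G, {x | Commute x (e : G ⧸ K)} ∈ ξ.map (QuotientGroup.mk' K) →
      ∀ᶠ x in (ξ : Filter G), x⁻¹ * b * x * c * (x⁻¹ * b * x)⁻¹ = d ∧ Commute x e := by
    intro e he
    have h2 : (((Subgroup.centralizer ({(e : G ⧸ K)} : Set (G ⧸ K))).comap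
        (QuotientGroup.mk' K) ⊓ N : Subgroup G) : Set G) ∈ ξ := by
      filter_upwards [Ultrafilter.mem_map.1 he, hξN] with x hx hx'
      exact ⟨quot_mem_cent.2 hx, hx'⟩
    have h3 := mem_of_relIndex hξ h2 (rel_col (N := N) (K := K) {e} inf_le_right
      fun y hy f hf => by
        rw [Finset.mem_singleton.1 hf]
        exact quot_mem_cent.1 hy.1)
    filter_upwards [hT, h3] with x hx1 hx2
    exact ⟨hx1, mem_Cen.1 hx2 e (Finset.mem_singleton_self e)⟩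
  have hbc' : b * c * b⁻¹ ≠ d := fun e => hbc (by simpa [TT] using e)
  refine ⟨b, c, QuotientGroup.mk' K '' TT (b, c, d), Ultrafilter.mem_map.2
    (mem_of_superset hT fun x hx => ⟨x, hx, rfl⟩), ?_, fun he => ?_, fun he => ?_⟩
  · rintro _ ⟨x, hx, rfl⟩ _ ⟨x', hx', rfl⟩
    simpa using (TT.comm hx hx').map (QuotientGroup.mk' K)
  · obtain ⟨x, h2, h3⟩ := (key b he).exists
    have h5 : x⁻¹ * b * x = b := by rw [mul_assoc, ← h3.eq]; simp
    rw [h5] at h2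
    exact hbc' h2
  · refine hbc' (conj_const hξ ?_)
    filter_upwards [key c he] with x ⟨h2, h3⟩
    rw [← h2]
    calc x⁻¹ * (b * c * b⁻¹) * x = x⁻¹ * b * (c * x) * (x⁻¹ * b * x)⁻¹ := by group
      _ = _ := by rw [← h3.eq]; group

end quot

theorem CovIn.reduce {N : Subgroup G} [N.Normal] (hinf : (N : Set G).Infinite) (h : CovIn N) :
    ∃ (Q : Type) (_ : Group Q) (M : Subgroup Q), M.Normal ∧ (M : Set Q).Infinite ∧ ICCIn M ∧
      (∃ Bs : Set Q, Bs.Finite ∧ ∃ L : ℕ, NoChainIn M Bs L) ∧ H2In M := by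
  obtain ⟨Bs, hBs, L, hL⟩ := h.noChain
  have := relK_normal N
  have hf := relK_finite hL
  refine ⟨G ⧸ relK N, inferInstance, N.map (QuotientGroup.mk' _),
    Subgroup.Normal.map ‹_› _ (QuotientGroup.mk'_surjective _), fun hfin => ?_, fun q hq => ?_,
    ⟨_, hBs.image _, L, rel_noChain hL⟩, rel_H2 h⟩
  · have h1 : (relK N).relIndex N ≠ 0 := by
      conv_lhs => arg 1; rw [← QuotientGroup.ker_mk' (relK N), ← MonoidHom.comap_bot]
      rw [Subgroup.relIndex_comap, Subgroup.relIndex_bot_left]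
      have := hfin.to_subtype
      exact Nat.card_pos.ne'
    exact infinite_inf h1 hinf (Set.toFinite _)
  · obtain ⟨g, rfl⟩ := QuotientGroup.mk_surjective q
    rw [QuotientGroup.eq_one_iff]
    have h1 := rel_col (N := N) (K := relK N) {g}
      (K₀ := (Subgroup.centralizer ({(g : G ⧸ relK N)} : Set (G ⧸ relK N))).comap
        (QuotientGroup.mk' (relK N)) ⊓ N) inf_le_right (fun y hy f hf => by
          rw [Finset.mem_singleton.1 hf]
          exact quot_mem_cent.1 hy.1)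
    rw [← Subgroup.relIndex_comap, ← Subgroup.inf_relIndex_right] at hq
    rw [quot_cen_single] at h1
    exact Subgroup.relIndex_ne_zero_trans h1 hq

end Pool.Agent.P.MP_a76a9f_al
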