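import Pool.Agent.P.MP_a76a9f_al.RelA

/-! The covering statement relative to a normal subgroup: atoms and the contradiction. -/

set_option autoImplicit false

namespace Pool.Agent.P.MP_a76a9f_al

open Filter
open scoped Pointwise

attribute [local instance] Ultrafilter.semigroup

variable {Q : Type} [Group Q]

theorem Atom.iccIn (hicc : ICC Q) {M A : Subgroup Q} (hA : Atom A) (hAM : A ≤ M) {Bs : Set Q}
    {L : ℕ} (hC : NoChainIn M Bs L) : ICC A := by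
  intro g hg
  by_contra hne
  have hgZ : (g : Q) ∈ atomBZ A := by
    refine ⟨g.2, ?_⟩
    have : (Subgroup.centralizer ({(g : Q)} : Set Q)).subgroupOf A
        = Subgroup.centralizer ({g} : Set A) := by
      ext x
      rw [Subgroup.mem_subgroupOf, atomB_mem_cen, atomB_mem_cen]
      exact ⟨fun h => Subtype.ext h, fun h => congrArg Subtype.val h⟩
    rw [Subgroup.relIndex, this]
    exact hg.index_ne_zero
  have hZ : atomBZ A ≠ ⊥ := fun h => hne (Subtype.ext (by simpa [h] using hgZ))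
  have hle : Subgroup.normalizer (A : Set Q) ≤ Subgroup.normalizer (atomBZ A : Set Q) := by
    intro b hb
    rw [Subgroup.mem_normalizer_iff]
    refine fun a => ⟨atomBZ_conj hb, fun h => ?_⟩
    have := atomBZ_conj (inv_mem hb) h
    simpa [mul_assoc] using this
  have hvn : VN (atomBZ A) := by
    have := hA.vn
    unfold VN at this ⊢
    exact Subgroup.finiteIndex_of_le hle
  have hinf := hvn.infinite hicc hZ
  refine hC ⟨fun _ => atomBZ A, fun _ a ha => hAM ha.1, fun m _ F hF =>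
    infinite_inf (fun h => ?_) hinf⟩
  refine atomB_cen (K := A) F (fun f hf => ?_)
    (Subgroup.relIndex_eq_zero_of_le_right (show atomBZ A ≤ A from fun a ha => ha.1) h)
  obtain ⟨_, -, _, ⟨b, -, rfl⟩, d, hd, rfl⟩ := hF f hf
  rw [MulAut.conj_apply]
  rcases hA.conj b with hb | hb
  · exact (atomBZ_conj hb hd).2
  · rw [Subgroup.relIndex_eq_one.2 fun s hs => atomB_mem_cen.2 (hb d hd.1 s hs).symm]
    exact one_ne_zero

theorem noChain_sub {M A : Subgroup Q} (hAM : A ≤ M) (hA : ∀ g : Q,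
    g ∈ Subgroup.normalizer (A : Set Q) ∨ ∀ s ∈ A, ∀ s' ∈ A, Commute (g * s * g⁻¹) s')
    {Bs : Set Q} (hB : Bs.Finite) {L : ℕ} (hC : NoChainIn M Bs L) :
    ∃ Γ : Set (MulAut A), Γ.Finite ∧ (∀ γ ∈ Γ, γ ∈ A.normalizerMonoidHom.range) ∧
      NoChain Γ L := by
  classical
  refine ⟨A.normalizerMonoidHom '' (Subtype.val ⁻¹' Bs),
    (hB.preimage Subtype.val_injective.injOn).image _, ?_, ?_⟩
  · rintro _ ⟨b, -, rfl⟩
    exact ⟨b, rfl⟩
  rintro ⟨D, hD⟩
  refine hC ⟨fun n => (D n).map A.subtype,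
    fun n => (Subgroup.map_subtype_le _).trans hAM, fun m hm F hF => ?_⟩
  set F' : Finset A := (F.preimage Subtype.val Subtype.val_injective.injOn).filter fun f =>
    ∃ n < m, ∃ γ ∈ A.normalizerMonoidHom '' (Subtype.val ⁻¹' Bs), ∃ d ∈ D n, f = γ d with hF'
  have h1 := hD m hm F' fun f hf => (Finset.mem_filter.1 hf).2
  refine (h1.image Subtype.val_injective.injOn).mono ?_
  rintro _ ⟨x, hx, rfl⟩
  refine ⟨mem_Cen.2 fun f hf => ?_, ⟨x, hx.2, rfl⟩⟩
  obtain ⟨n, hn, _, ⟨b, hbB, rfl⟩, _, ⟨d, hd, rfl⟩, rfl⟩ := hF f hf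
  rcases hA b with hb | hb
  · have h2 : A.normalizerMonoidHom ⟨b, hb⟩ d ∈ F' :=
      Finset.mem_filter.2 ⟨Finset.mem_preimage.2 hf, n, hn, _, ⟨⟨b, hb⟩, hbB, rfl⟩, d, hd, rfl⟩
    exact congrArg Subtype.val (mem_Cen.1 hx.1 _ h2)
  · exact (hb d d.2 x x.2).symm

theorem Atom.c2In {M A : Subgroup Q} (hA : Atom A) (hAM : A ≤ M) [Infinite A] (hicc : ICC A)
    (h2 : H2In M) :
    C2 A := by
  intro η hmin hη
  have hbot : ((⊥ : Subgroup A) : Set A) ∉ η := fun h => by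
    have := (hmin.finiteIndex h).index_ne_zero
    rw [Subgroup.index_bot, Nat.card_eq_zero_of_infinite] at this
    exact this rfl
  have hη' : η.map A.subtype * η.map A.subtype = η.map A.subtype := by
    rw [← map_mul', hη]
  have h1 : ({1} : Set Q) ∉ η.map A.subtype := fun h => hbot (by
    rw [Ultrafilter.mem_map] at h
    filter_upwards [h] with x hx
    exact Subgroup.mem_bot.2 (Subtype.ext hx))
  obtain ⟨b, c, T₀, hT, hT', hb, hc⟩ := h2 _ hη' h1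
    (Ultrafilter.mem_map.2 (Filter.univ_mem' fun x => hAM x.2))
  rw [Ultrafilter.mem_map] at hT
  set T : Set A := A.subtype ⁻¹' T₀ with hTdef
  obtain ⟨y, hy⟩ := Ultrafilter.nonempty_of_mem hT
  set N := Subgroup.normalizer (A : Set Q) with hN
  set C := Subgroup.centralizer (A : Set Q) with hC
  have hout : ∀ g, g ∉ N → ∀ s ∈ A, g * s * g⁻¹ ∈ C := fun g hg s hs =>
    Subgroup.mem_centralizer_iff.2 fun s' hs' => (((hA.conj g).resolve_left hg) s hs s' hs').symm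
  have hctr : ∀ z ∈ A, z ∈ C → z = 1 := fun z hz hzC => by
    have : Subgroup.centralizer ({(⟨z, hz⟩ : A)} : Set A) = ⊤ := by
      rw [eq_top_iff]
      intro x _
      exact atomB_mem_cen.2 (Subtype.ext (Subgroup.mem_centralizer_iff.1 hzC x x.2))
    have := hicc ⟨z, hz⟩ (by rw [this]; infer_instance)
    exact congrArg Subtype.val this
  have hcm : ∀ z ∈ C, ∀ s ∈ A, s * z = z * s := fun z hz s hs =>
    Subgroup.mem_centralizer_iff.1 hz s hs
  have k1 : ∀ x ∈ T, ∀ x' ∈ T, Commute ((x' : Q)⁻¹ * (b⁻¹ * (x' * (x : Q)⁻¹) * b) * x) c := by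
    intro x hx x' hx'
    rw [show (x' : Q)⁻¹ * (b⁻¹ * (x' * (x : Q)⁻¹) * b) * x
      = ((x' : Q)⁻¹ * b * x')⁻¹ * ((x : Q)⁻¹ * b * x) by group]
    exact hT' x hx x' hx'
  -- the basic identity when `b` is outside the normaliser
  have k3 : b ∉ N → ∀ x ∈ T, ∀ x' ∈ T,
      c⁻¹ * ((x' : Q)⁻¹ * x) * c * (c⁻¹ * (b⁻¹ * (x' * (x : Q)⁻¹) * b) * c)
        = (x' : Q)⁻¹ * x * (b⁻¹ * (x' * (x : Q)⁻¹) * b) := by
    intro hbN x hx x' hx'
    have e1 : b⁻¹ * ((x' : Q) * (x : Q)⁻¹) * b ∈ C := by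
      simpa using hout b⁻¹ (fun h => hbN (inv_mem_iff.1 h)) _ (A.mul_mem x'.2 (A.inv_mem x.2))
    have e2 := (k1 x hx x' hx').eq
    generalize b⁻¹ * ((x' : Q) * (x : Q)⁻¹) * b = s' at e1 e2
    rw [mul_assoc _ s', ← hcm s' e1 x x.2, ← mul_assoc] at e2
    calc c⁻¹ * ((x' : Q)⁻¹ * x) * c * (c⁻¹ * s' * c) = c⁻¹ * ((x' : Q)⁻¹ * x * s' * c) := by group
      _ = (x' : Q)⁻¹ * x * s' := by rw [e2]; group
  by_cases hbN : b ∈ N
  · by_cases hcN : c ∈ N
    · refine ⟨A.normalizerMonoidHom ⟨b⁻¹, inv_mem hbN⟩, A.normalizerMonoidHom ⟨c⁻¹, inv_mem hcN⟩,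
        T, hT, fun x hx x' hx' => Subtype.ext ?_, fun h => hb ?_, fun h => hc ?_⟩
      · have := (k1 x hx x' hx').eq
        simp only [atomB_hom, Subgroup.coe_mul, Subgroup.coe_inv, inv_inv]
        rw [mul_assoc c⁻¹, this]
        group
      · rw [Ultrafilter.mem_map]
        filter_upwards [h] with s hs
        have := congrArg Subtype.val hs
        simp only [atomB_hom, inv_inv] at this
        show (s : Q) * b = b * s
        conv_rhs => rw [← this]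
        group
      · rw [Ultrafilter.mem_map]
        filter_upwards [h] with s hs
        have := congrArg Subtype.val hs
        simp only [atomB_hom, inv_inv] at this
        show (s : Q) * c = c * s
        conv_rhs => rw [← this]
        group
    · refine (hb (atomB_sub (mem_of_rightCoset hη (g := y) ?_))).elim
      filter_upwards [hT] with x hx
      rw [Subgroup.mem_subgroupOf, atomB_mem_cen]
      have e0 : (y : Q)⁻¹ * (b⁻¹ * (y * (x : Q)⁻¹) * b) * x ∈ A :=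
        A.mul_mem (A.mul_mem (A.inv_mem y.2) (by
          simpa using atomB_conj_mem (inv_mem hbN) (A.mul_mem y.2 (A.inv_mem x.2)))) x.2
      have e1 := hout c hcN _ e0
      rw [← (k1 x hx y hy).eq, mul_inv_cancel_right] at e1
      have e2 := hctr _ e0 e1
      simp only [Subgroup.coe_mul, Subgroup.coe_inv]
      show (x : Q) * (y : Q)⁻¹ * b = b * ((x : Q) * (y : Q)⁻¹)
      calc (x : Q) * (y : Q)⁻¹ * b = x * (y : Q)⁻¹ * b * y *
            ((y : Q)⁻¹ * (b⁻¹ * (y * (x : Q)⁻¹) * b) * x) * (y : Q)⁻¹ := by rw [e2]; group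
        _ = b * ((x : Q) * (y : Q)⁻¹) := by group
  have hs' : ∀ x x' : A, b⁻¹ * ((x' : Q) * (x : Q)⁻¹) * b ∈ C := fun x x' => by
    simpa using hout b⁻¹ (fun h => hbN (inv_mem_iff.1 h)) _ (A.mul_mem x'.2 (A.inv_mem x.2))
  have hs'' : c⁻¹ * b⁻¹ ∉ N → ∀ x x' : A, c⁻¹ * (b⁻¹ * ((x' : Q) * (x : Q)⁻¹) * b) * c ∈ C :=
    fun h x x' => by
      rw [show c⁻¹ * (b⁻¹ * ((x' : Q) * (x : Q)⁻¹) * b) * c =
        c⁻¹ * b⁻¹ * ((x' : Q) * (x : Q)⁻¹) * (c⁻¹ * b⁻¹)⁻¹ by group]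
      exact hout _ h _ (A.mul_mem x'.2 (A.inv_mem x.2))
  by_cases hcN : c ∈ N
  · refine (hc (atomB_sub (mem_of_leftCoset hη (g := y) ?_))).elim
    filter_upwards [hT] with x hx
    rw [Subgroup.mem_subgroupOf, atomB_mem_cen]
    have hs : (y : Q)⁻¹ * x ∈ A := A.mul_mem (A.inv_mem y.2) x.2
    have e1 := hs' x y
    have e2 := hs'' (fun h => hbN (by simpa using N.mul_mem hcN h)) x y
    have e3 := k3 hbN x hx y hy
    simp only [Subgroup.coe_mul, Subgroup.coe_inv]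
    generalize b⁻¹ * ((y : Q) * (x : Q)⁻¹) * b = s' at e1 e2 e3
    generalize (y : Q)⁻¹ * x = s at hs e3
    have e4 : s⁻¹ * (c⁻¹ * s * c) = s' * (c⁻¹ * s' * c)⁻¹ := by
      calc s⁻¹ * (c⁻¹ * s * c) = s⁻¹ * (c⁻¹ * s * c * (c⁻¹ * s' * c)) * (c⁻¹ * s' * c)⁻¹ := by group
        _ = s' * (c⁻¹ * s' * c)⁻¹ := by rw [e3]; group
    have e5 := hctr _ (A.mul_mem (A.inv_mem hs) (by simpa using atomB_conj_mem (inv_mem hcN) hs))
      (e4 ▸ C.mul_mem e1 (C.inv_mem e2) : s⁻¹ * (c⁻¹ * s * c) ∈ C)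
    show s * c = c * s
    calc s * c = c * s * (s⁻¹ * (c⁻¹ * s * c)) := by group
      _ = c * s := by rw [e5, mul_one]
  have hs0 : ∀ x x' : A, c⁻¹ * ((x' : Q)⁻¹ * x) * c ∈ C := fun x x' => by
    simpa using hout c⁻¹ (fun h => hcN (inv_mem_iff.1 h)) _ (A.mul_mem (A.inv_mem x'.2) x.2)
  by_cases hg : c⁻¹ * b⁻¹ ∈ N
  swap
  · refine (hbot (mem_of_leftCoset hη (g := y) ?_)).elim
    filter_upwards [hT] with x hx
    have e3 := k3 hbN x hx y hy
    have e4 : (y : Q)⁻¹ * x ∈ C := by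
      rw [← mul_inv_eq_iff_eq_mul] at e3
      exact e3 ▸ C.mul_mem (C.mul_mem (hs0 x y) (hs'' hg x y)) (C.inv_mem (hs' x y))
    exact Subgroup.mem_bot.2 (Subtype.ext (hctr _ (A.mul_mem (A.inv_mem y.2) x.2) e4))
  exfalso
  have key : ∀ x ∈ T, ∀ x' ∈ T,
      c⁻¹ * (b⁻¹ * ((x' : Q) * (x : Q)⁻¹) * b) * c = (x' : Q)⁻¹ * x := by
    intro x hx x' hx'
    have e0 : c⁻¹ * (b⁻¹ * ((x' : Q) * (x : Q)⁻¹) * b) * c ∈ A := by
      rw [show c⁻¹ * (b⁻¹ * ((x' : Q) * (x : Q)⁻¹) * b) * c =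
        c⁻¹ * b⁻¹ * ((x' : Q) * (x : Q)⁻¹) * (c⁻¹ * b⁻¹)⁻¹ by group]
      exact atomB_conj_mem hg (A.mul_mem x'.2 (A.inv_mem x.2))
    have e1 := hs' x x'
    have e2 := hs0 x x'
    have e3 := k3 hbN x hx x' hx'
    have hs : (x' : Q)⁻¹ * x ∈ A := A.mul_mem (A.inv_mem x'.2) x.2
    generalize c⁻¹ * (b⁻¹ * ((x' : Q) * (x : Q)⁻¹) * b) * c = p at e0 e3
    generalize b⁻¹ * ((x' : Q) * (x : Q)⁻¹) * b = s' at e1 e3
    generalize c⁻¹ * ((x' : Q)⁻¹ * x) * c = r at e2 e3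
    generalize (x' : Q)⁻¹ * x = s at hs e3
    rw [← hcm r e2 p e0] at e3
    have e4 : s⁻¹ * p = s' * r⁻¹ := by
      calc s⁻¹ * p = s⁻¹ * (p * r) * r⁻¹ := by group
        _ = s' * r⁻¹ := by rw [e3]; group
    have e5 := hctr _ (A.mul_mem (A.inv_mem hs) e0)
      (e4 ▸ C.mul_mem e1 (C.inv_mem e2) : s⁻¹ * p ∈ C)
    exact (inv_mul_eq_one.1 e5).symm
  have hT2 : T ∈ η * η := by rw [hη]; exact hT
  obtain ⟨k, hk, hk1⟩ := (((mem_mul_iff η η T).1 hT2).and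
    (Ultrafilter.compl_mem_iff_notMem.2 hbot)).exists
  have hk2 : ∀ᶠ h : A in (η : Filter A),
      c⁻¹ * (b⁻¹ * (k : Q) * b) * c = (h : Q)⁻¹ * (k : Q)⁻¹ * h := by
    filter_upwards [hk, hT] with h h1 h2
    simpa [mul_assoc] using key h h2 _ h1
  obtain ⟨h₀, hh₀⟩ := hk2.exists
  have hcen : (Subgroup.centralizer ({k} : Set A) : Set A) ∈ η := by
    refine mem_of_rightCoset hη (g := h₀) ?_
    filter_upwards [hk2] with h hh
    rw [hh₀] at hh
    refine atomB_mem_cen.2 (Commute.inv_right_iff.1 (Subtype.ext ?_))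
    simp only [Subgroup.coe_mul, Subgroup.coe_inv]
    calc (h : Q) * (h₀ : Q)⁻¹ * (k : Q)⁻¹
        = h * ((h₀ : Q)⁻¹ * (k : Q)⁻¹ * h₀) * (h₀ : Q)⁻¹ := by group
      _ = (k : Q)⁻¹ * (h * (h₀ : Q)⁻¹) := by rw [hh]; group
  exact hk1 (Subgroup.mem_bot.2 (hicc k (hmin.finiteIndex hcen)))

theorem ICCIn.icc {M : Subgroup Q} (h : ICCIn M) : ICC Q := fun g hg =>
  h g (by have := hg; exact Subgroup.FiniteIndex.index_ne_zero)

theorem ICCIn.sub {M : Subgroup Q} (h : ICCIn M) : ICC M := fun g hg => by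
  refine Subtype.ext (h g ?_)
  have : (Subgroup.centralizer ({(g : Q)} : Set Q)).subgroupOf M
      = Subgroup.centralizer ({g} : Set M) := by
    ext x
    rw [Subgroup.mem_subgroupOf, atomB_mem_cen, atomB_mem_cen]
    exact ⟨fun h => Subtype.ext h, fun h => congrArg Subtype.val h⟩
  rw [Subgroup.relIndex, this]
  exact hg.index_ne_zero

theorem ICCIn.meet {M : Subgroup Q} [hM : M.Normal] (h : ICCIn M) {K : Subgroup Q} (hK : VN K)
    (hne : K ≠ ⊥) : K ⊓ M ≠ ⊥ := by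
  intro e
  refine hne (eq_bot_iff.2 fun k hk => Subgroup.mem_bot.2 (h k fun h0 => ?_))
  have h1 : (Subgroup.normalizer (K : Set Q)).relIndex M ≠ 0 := by
    have : (Subgroup.normalizer (K : Set Q)).FiniteIndex := hK
    exact Subgroup.FiniteIndex.index_ne_zero
  rw [← Subgroup.inf_relIndex_right] at h1
  refine h1 (Subgroup.relIndex_eq_zero_of_le_left (fun y hy => atomB_mem_cen.2 ?_) h0)
  have h2 : y * k * y⁻¹ * k⁻¹ ∈ K ⊓ M := by
    refine ⟨K.mul_mem (atomB_conj_mem hy.1 hk) (K.inv_mem hk), ?_⟩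
    have := M.mul_mem hy.2 (hM.conj_mem _ (M.inv_mem hy.2) k)
    simpa [mul_assoc] using this
  rw [e, Subgroup.mem_bot] at h2
  show y * k = k * y
  calc y * k = y * k * y⁻¹ * k⁻¹ * (k * y) := by group
    _ = k * y := by rw [h2, one_mul]

theorem norm_inf {M : Subgroup Q} [hM : M.Normal] (A : Subgroup Q) :
    Subgroup.normalizer (A : Set Q) ≤ Subgroup.normalizer ((A ⊓ M : Subgroup Q) : Set Q) := by
  intro g hg
  rw [Subgroup.mem_normalizer_iff]
  refine fun a => ⟨fun h => ⟨atomB_conj_mem hg h.1, hM.conj_mem _ h.2 g⟩, fun h => ⟨?_, ?_⟩⟩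
  · exact (Subgroup.mem_normalizer_iff.1 hg a).2 h.1
  · simpa [mul_assoc] using hM.conj_mem _ h.2 g⁻¹

theorem Atom.inf {M : Subgroup Q} [M.Normal] (h : ICCIn M) {A : Subgroup Q} (hA : Atom A) :
    Atom (A ⊓ M) where
  ne := h.meet hA.vn hA.ne
  vn := by
    have : (Subgroup.normalizer (A : Set Q)).FiniteIndex := hA.vn
    exact Subgroup.finiteIndex_of_le (norm_inf A)
  conj g := (hA.conj g).imp (fun hg => norm_inf A hg) fun hg s hs s' hs' => hg s hs.1 s' hs'.1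
  unif K K' h1 h2 := hA.unif K K' (h1.trans inf_le_left) (h2.trans inf_le_left)

theorem vn_bound [Infinite Q] (hicc : ICC Q) {Γ : Set (MulAut Q)} (hΓ : Γ.Finite) {L : ℕ}
    (hC : NoChain Γ L) : ∃ n : ℕ, ∀ 𝒦 : Finset (Subgroup Q), (∀ K ∈ 𝒦, VN K ∧ K ≠ ⊥) →
      (∀ K ∈ 𝒦, ∀ K' ∈ 𝒦, K ≠ K' → K ⊓ K' = ⊥) → 𝒦.card ≤ n := by
  classical
  obtain ⟨u, hm, hu, -⟩ := exists_good Q
  obtain ⟨N, hN⟩ := tinf hicc hm hu hΓ hC
  have hfix : ∀ K : Subgroup Q, VN K → act u K = K := fun K hK =>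
    act_of_normalizer (mem_of_relIndex hu (K := ⊤) (by rw [Subgroup.coe_top]; exact Filter.univ_mem)
      (by rw [Subgroup.relIndex_top_right]; exact hK.index_ne_zero))
  refine ⟨N, fun 𝒦 h1 h2 => ?_⟩
  have hinj : Set.InjOn (mk hu) (𝒦 : Set (Subgroup Q)) := by
    intro K hK K' hK' e
    have := congrArg Subtype.val e
    rwa [mk_val, mk_val, hfix K (h1 K hK).1, hfix K' (h1 K' hK').1] at this
  rw [← Finset.card_image_of_injOn hinj]
  apply hN
  · intro K hK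
    obtain ⟨K0, hK0, rfl⟩ := Finset.mem_image.1 hK
    rw [Ne, LL.eq_bot_iff, mk_val, hfix K0 (h1 K0 hK0).1]
    exact (h1 K0 hK0).2
  · intro K hK K' hK' hne
    obtain ⟨K0, hK0, rfl⟩ := Finset.mem_image.1 hK
    obtain ⟨K1, hK1, rfl⟩ := Finset.mem_image.1 hK'
    rw [LL.inf_eq_bot_iff, mk_val, mk_val, hfix K0 (h1 K0 hK0).1, hfix K1 (h1 K1 hK1).1]
    exact h2 K0 hK0 K1 hK1 (fun e => hne (by rw [e]))

theorem not_covIn {G : Type} [Group G] {N : Subgroup G} [N.Normal] (hN : (N : Set G).Infinite) :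
    ¬ CovIn N := by
  classical
  intro h
  obtain ⟨Q, _, M, hM, hinf, hicc, ⟨Bs, hB, L, hC⟩, h2⟩ := h.reduce hN
  have : Infinite M := hinf.to_subtype
  have : Infinite Q := Set.infinite_univ_iff.1 (hinf.mono (Set.subset_univ _))
  obtain ⟨Γ₀, hΓ₀, -, hC₀⟩ := noChain_sub (le_refl M)
    (fun g => Or.inl (by rw [Subgroup.normalizer_eq_top]; trivial)) hB hC
  obtain ⟨n, hn⟩ := vn_bound hicc.sub hΓ₀ hC₀
  obtain ⟨A₀, hA₀⟩ := exists_atom hicc.icc n (fun 𝒦 h1 h3 => by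
    have hne : ∀ K ∈ 𝒦, K.subgroupOf M ≠ ⊥ := fun K hK e =>
      hicc.meet (h1 K hK).1 (h1 K hK).2 (disjoint_iff.1 (Subgroup.subgroupOf_eq_bot.1 e))
    have hd : ∀ K ∈ 𝒦, ∀ K' ∈ 𝒦, K ≠ K' → K.subgroupOf M ⊓ K'.subgroupOf M = ⊥ :=
      fun K hK K' hK' e => eq_bot_iff.2 fun x hx => Subgroup.mem_bot.2 (Subtype.ext
        (Subgroup.mem_bot.1 (h3 K hK K' hK' e ▸ (⟨hx.1, hx.2⟩ : (x : Q) ∈ K ⊓ K'))))
    have hinj : Set.InjOn (fun K : Subgroup Q => K.subgroupOf M) (𝒦 : Set (Subgroup Q)) := by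
      intro K hK K' hK' e
      by_contra hk
      have := hd K hK K' hK' hk
      rw [show K.subgroupOf M = K'.subgroupOf M from e, inf_idem] at this
      exact hne K' hK' this
    rw [← Finset.card_image_of_injOn hinj]
    refine hn _ (fun K hK => ?_) fun K hK K' hK' e => ?_
    · obtain ⟨K0, hK0, rfl⟩ := Finset.mem_image.1 hK
      refine ⟨?_, hne K0 hK0⟩
      have : (Subgroup.normalizer (K0 : Set Q)).FiniteIndex := (h1 K0 hK0).1
      refine Subgroup.finiteIndex_of_le (H := (Subgroup.normalizer (K0 : Set Q)).subgroupOf M)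
        fun g hg => Subgroup.mem_normalizer_iff.2 fun a => ?_
      exact Subgroup.mem_normalizer_iff.1 hg a
    · obtain ⟨K0, hK0, rfl⟩ := Finset.mem_image.1 hK
      obtain ⟨K1, hK1, rfl⟩ := Finset.mem_image.1 hK'
      exact hd K0 hK0 K1 hK1 fun e' => e (by rw [e']))
  have hA := hA₀.inf hicc
  have : Infinite ↥(A₀ ⊓ M) := (hA.vn.infinite hicc.icc hA.ne).to_subtype
  have hiccA := hA.iccIn hicc.icc inf_le_right hC
  obtain ⟨Γ, hΓ, -, hCA⟩ := noChain_sub inf_le_right hA.conj hB hC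
  exact tfin hiccA _ hΓ hCA (hA.c2In inf_le_right hiccA h2) hA.c3

end Pool.Agent.P.MP_a76a9f_al
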