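import Pool.Agent.P.MP_a76a9f_al.RelB

/-! Arbitrary universes, the idempotent ultrafilter, and words of small degree. -/

set_option autoImplicit false

namespace Pool.Agent.P.MP_a76a9f_al

open Filter

attribute [local instance] Ultrafilter.semigroup

universe u

variable {G : Type u} [Group G]

/-- the solution set of a conjugation equation of degree four -/
def VV (q : G × G × G) : Set G := {x | x * q.1 * x⁻¹ * q.2.1 * (x * q.1 * x⁻¹)⁻¹ = q.2.2}

theorem rel_avoid {N : Subgroup G} [hn : N.Normal] (hN : (N : Set G).Infinite) {E : Set G}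
    (hE : E.Finite) {Q : Set (G × G × G)} (hQ : Q.Finite) (h1 : ∀ q ∈ Q, 1 ∉ VV q) :
    ∃ x ∈ N, x ∉ E ∧ ∀ q ∈ Q, x ∉ VV q := by
  by_contra hc
  have h3 : ∀ x ∈ N, x ∈ E ∨ ∃ q ∈ Q, x ∈ VV q := fun x hx => by
    by_contra h
    exact hc ⟨x, hx, fun h' => h (Or.inl h'), fun q hq h' => h (Or.inr ⟨q, hq, h'⟩)⟩
  let s : Set G := Set.range (fun n => (hN.natEmbedding _ n : G)) ∪
    ((fun q => q.1) '' Q ∪ ((fun q => q.2.1) '' Q ∪ (fun q => q.2.2) '' Q))
  have hs : s.Countable := (Set.countable_range _).union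
    ((hQ.image _).union ((hQ.image _).union (hQ.image _))).countable
  obtain ⟨g, hg⟩ := hs.exists_eq_range ⟨_, Or.inl ⟨0, rfl⟩⟩
  let φ : FreeGroup ℕ →* G := FreeGroup.lift g
  let ι : (FreeGroup ℕ ⧸ φ.ker) →* G := QuotientGroup.kerLift φ
  have hι : Function.Injective ι := QuotientGroup.kerLift_injective φ
  have hr : ∀ x ∈ s, ∃ y, ι y = x := by
    intro x hx
    rw [hg] at hx
    obtain ⟨n, rfl⟩ := hx
    exact ⟨QuotientGroup.mk (FreeGroup.of n), by simp [ι, φ]⟩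
  have hinf : ((N.comap ι : Subgroup _) : Set (FreeGroup ℕ ⧸ φ.ker)).Infinite := by
    choose f hf using fun n : ℕ => hr _ (Or.inl ⟨n, rfl⟩)
    refine Set.infinite_of_injective_forall_mem (f := f) (fun m n e => ?_) fun n => ?_
    · refine (hN.natEmbedding _).injective (Subtype.ext ?_)
      have := congrArg ι e
      rwa [hf, hf] at this
    · show ι (f n) ∈ N
      rw [hf]
      exact (hN.natEmbedding _ n).2
  have hm : ∀ (q : _ × _ × _) (x : FreeGroup ℕ ⧸ φ.ker),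
      x ∈ TT q ↔ ι x⁻¹ ∈ VV (Prod.map ι (Prod.map ι ι) q) := fun q x => by
    refine hι.eq_iff.symm.trans ?_
    simp [VV]
  refine not_covIn (N := N.comap ι) hinf ⟨(fun x => ι x⁻¹) ⁻¹' E,
    Prod.map ι (Prod.map ι ι) ⁻¹' Q, hE.preimage (hι.comp inv_injective).injOn,
    hQ.preimage (hι.prodMap (hι.prodMap hι)).injOn, fun q hq e => h1 _ hq ?_, fun x hx => ?_⟩
  · simpa using (hm q 1).1 e
  · rcases h3 (ι x⁻¹) ((N.comap ι).inv_mem hx) with e | ⟨q, hq, e⟩
    · exact Or.inl e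
    · obtain ⟨a, ha⟩ := hr _ (Or.inr (Or.inl ⟨q, hq, rfl⟩))
      obtain ⟨b, hb⟩ := hr _ (Or.inr (Or.inr (Or.inl ⟨q, hq, rfl⟩)))
      obtain ⟨c, hc⟩ := hr _ (Or.inr (Or.inr (Or.inr ⟨q, hq, rfl⟩)))
      have : Prod.map ι (Prod.map ι ι) (a, b, c) = q := Prod.ext ha (Prod.ext hb hc)
      exact Or.inr ⟨(a, b, c), by rwa [Set.mem_preimage, this], (hm _ x).2 (this ▸ e)⟩

theorem VV_shift (q : G × G × G) (x y : G) :
    x * y ∈ VV q ↔ y ∈ VV (q.1, x⁻¹ * q.2.1 * x, x⁻¹ * q.2.2 * x) := by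
  show _ = _ ↔ _ = _
  rw [show x * y * q.1 * (x * y)⁻¹ * q.2.1 * (x * y * q.1 * (x * y)⁻¹)⁻¹ =
    x * (y * q.1 * y⁻¹ * (x⁻¹ * q.2.1 * x) * (y * q.1 * y⁻¹)⁻¹) * x⁻¹ by group]
  constructor
  · intro h
    rw [← h]
    group
  · intro h
    rw [h]
    group

theorem rel_idem {N : Subgroup G} [N.Normal] (hN : (N : Set G).Infinite) :
    ∃ η : Ultrafilter G, ((N : Set G) ∈ η ∧ (∀ g : G, ({g}ᶜ : Set G) ∈ η) ∧
      ∀ q, 1 ∉ VV q → (VV q)ᶜ ∈ η) ∧ η * η = η := by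
  classical
  let 𝒮 : Set (Set G) := {A | A = N ∨ (∃ g : G, A = {g}ᶜ) ∨ ∃ q, 1 ∉ VV q ∧ A = (VV q)ᶜ}
  have hS : {η : Ultrafilter G | (N : Set G) ∈ η ∧ (∀ g : G, ({g}ᶜ : Set G) ∈ η) ∧
      ∀ q, 1 ∉ VV q → (VV q)ᶜ ∈ η} = ⋂ A ∈ 𝒮, {η : Ultrafilter G | A ∈ η} := by
    ext η
    simp only [Set.mem_ofPred_eq, Set.mem_iInter]
    refine ⟨?_, fun h => ⟨h _ (Or.inl rfl), fun g => h _ (Or.inr (Or.inl ⟨g, rfl⟩)),
      fun q hq => h _ (Or.inr (Or.inr ⟨q, hq, rfl⟩))⟩⟩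
    rintro ⟨h1, h2, h3⟩ A (rfl | ⟨g, rfl⟩ | ⟨q, hq, rfl⟩)
    exacts [h1, h2 g, h3 q hq]
  refine exists_idempotent_in_compact_subsemigroup Ultrafilter.continuous_mul_left
    {η : Ultrafilter G | (N : Set G) ∈ η ∧ (∀ g : G, ({g}ᶜ : Set G) ∈ η) ∧
      ∀ q, 1 ∉ VV q → (VV q)ᶜ ∈ η} ?_ ?_ ?_
  · obtain ⟨η, hη⟩ := Ultrafilter.exists_ultrafilter_of_finite_inter_nonempty 𝒮 fun T hT => by
      have : ∀ A ∈ T, ∃ p : Option G × Option (G × G × G), (∀ q, p.2 = some q → 1 ∉ VV q) ∧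
          ∀ x ∈ N, (∀ g, p.1 = some g → x ≠ g) → (∀ q, p.2 = some q → x ∉ VV q) → x ∈ A := by
        intro A hA
        rcases hT hA with rfl | ⟨g, rfl⟩ | ⟨q, hq, rfl⟩
        · exact ⟨(none, none), by simp, fun x hx _ _ => hx⟩
        · exact ⟨(some g, none), by simp, fun x _ h _ => h g rfl⟩
        · exact ⟨(none, some q), by rintro _ ⟨rfl⟩; exact hq, fun x _ _ h => h q rfl⟩
      choose! p hp using this
      obtain ⟨x, hx, h1, h2⟩ := rel_avoid hN
        (((T.finite_toSet.image fun A => (p A).1).preimage (Option.some_injective _).injOn))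
        (((T.finite_toSet.image fun A => (p A).2).preimage (Option.some_injective _).injOn))
        (by rintro q ⟨A, hA, e⟩; exact (hp A hA).1 q e)
      exact ⟨x, fun A hA => (hp A hA).2 x hx (fun g e e' => h1 ⟨A, hA, e' ▸ e⟩)
        fun q e => h2 q ⟨A, hA, e⟩⟩
    exact ⟨η, by rw [hS]; exact Set.mem_iInter₂.2 fun A hA => hη hA⟩
  · rw [hS]
    exact (isClosed_biInter fun A _ => ultrafilter_isClosed_basic _).isCompact
  · rintro η ⟨h1, -, h3⟩ ξ ⟨k1, k2, k3⟩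
    refine ⟨(Ultrafilter.eventually_mul η ξ _).2 ?_,
      fun g => (Ultrafilter.eventually_mul η ξ _).2 (Eventually.of_forall fun x => ?_),
      fun q hq => (Ultrafilter.eventually_mul η ξ _).2 ?_⟩
    · filter_upwards [h1] with a ha
      filter_upwards [k1] with b hb
      exact N.mul_mem ha hb
    · filter_upwards [k2 (x⁻¹ * g)] with y hy e
      exact hy (eq_inv_mul_of_mul_eq e)
    · filter_upwards [h3 q hq] with x hx
      filter_upwards [k3 _ fun e => hx (by simpa using (VV_shift q x 1).2 e)] with y hy e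
      exact hy ((VV_shift q x y).1 e)

section words

variable {η : Ultrafilter G} (hη : η * η = η)

include hη

theorem idem_two {p : G → Prop} (h : ∀ᶠ x in (η : Filter G), p x) :
    ∀ᶠ x in (η : Filter G), p x ∧ ∀ᶠ y in (η : Filter G), p y ∧ p (x * y) := by
  have h2 := h
  rw [← hη, Ultrafilter.eventually_mul] at h2
  filter_upwards [h, h2] with x h3 h4
  exact ⟨h3, h.and h4⟩

theorem word_np {k d : G} (h : ∀ᶠ x in (η : Filter G), x⁻¹ * k * x = d) : k = d := by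
  obtain ⟨x, hx, h1⟩ := (idem_two hη h).exists
  obtain ⟨y, hy, h2⟩ := h1.exists
  calc k = y * (y⁻¹ * k * y) * y⁻¹ := by group
    _ = x⁻¹ * k * x := by rw [hy, ← h2]; group
    _ = d := hx

theorem word_pn {k d : G} (h : ∀ᶠ x in (η : Filter G), x * k * x⁻¹ = d) : k = d :=
  (word_np hη (h.mono fun x hx => by rw [← hx]; group)).symm

theorem word_pp {a d : G} (h : ∀ᶠ x in (η : Filter G), x * a * x = d) : a = d := by
  obtain ⟨x, hx, h1⟩ := (idem_two hη h).exists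
  have h2 : ∀ᶠ y in (η : Filter G), y * a * y = d ∧ y * (a * x) * y = a * x := by
    filter_upwards [h1] with y ⟨e1, e2⟩
    refine ⟨e1, ?_⟩
    calc y * (a * x) * y = x⁻¹ * (x * y * a * (x * y)) := by group
      _ = a * x := by rw [e2, ← hx]; group
  obtain ⟨y, ⟨y1, y2⟩, h3⟩ := (idem_two hη h2).exists
  obtain ⟨z, ⟨z1, z2⟩, w1, w2⟩ := h3.exists
  generalize a * x = s at y2 z2 w2
  have c1 : y * z = z * y := by
    calc y * z = (y * z * s)⁻¹ * (y * z * s * (y * z)) := by group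
      _ = (y * (z * s * z) * z⁻¹)⁻¹ * (y * s * y * y⁻¹ * z⁻¹ * (z * y)) := by
        rw [w2, y2]; group
      _ = z * y := by rw [z2]; group
  calc a = y⁻¹ * (y * a * y) * y⁻¹ := by group
    _ = y⁻¹ * (y * z * a * (z * y)) * y⁻¹ := by rw [y1, ← c1, w1]
    _ = d := by rw [← z1]; group

theorem word_pnp {a b d : G} (h : ∀ᶠ x in (η : Filter G), x * a * x⁻¹ * b * x = d) :
    a * b = d := by
  obtain ⟨x, hx, h1⟩ := (idem_two hη h).exists
  have h2 : b⁻¹ * x⁻¹ * b * x = d⁻¹ * x⁻¹ * d := by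
    refine word_np hη ?_
    filter_upwards [h1] with y ⟨e1, e2⟩
    calc y⁻¹ * (b⁻¹ * x⁻¹ * b * x) * y = (y * a * y⁻¹ * b * y)⁻¹ * x⁻¹ *
          (x * y * a * (x * y)⁻¹ * b * (x * y)) := by group
      _ = d⁻¹ * x⁻¹ * d := by rw [e1, e2]
  calc a * b = x⁻¹ * (x * a * x⁻¹ * b * x) * (b⁻¹ * x⁻¹ * b * x)⁻¹ := by group
    _ = d := by rw [hx, h2]; group

theorem word_two {a d : G} (ε δ : ℤˣ)
    (h : ∀ᶠ x in (η : Filter G), x ^ (ε : ℤ) * a * x ^ (δ : ℤ) = d) : a = d := by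
  rcases Int.units_eq_one_or ε with rfl | rfl <;> rcases Int.units_eq_one_or δ with rfl | rfl <;>
    simp only [Units.val_one, Units.val_neg, zpow_neg, zpow_one] at h
  · exact word_pp hη h
  · exact word_pn hη h
  · exact word_np hη h
  · exact inv_injective (word_pp hη (h.mono fun x hx => by rw [← hx]; group))

variable (hV : ∀ q, 1 ∉ VV q → (VV q)ᶜ ∈ η)

include hV

theorem word_alt {a b c d : G} (h : ∀ᶠ x in (η : Filter G), x * a * x⁻¹ * b * x * c * x⁻¹ = d) :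
    a * b * c = d := by
  obtain ⟨k, hk, h1⟩ := (idem_two hη h).exists
  have h2 : 1 ∈ VV (c⁻¹, b⁻¹ * k⁻¹ * b * k, d⁻¹ * k⁻¹ * d * k) := by
    by_contra h0
    obtain ⟨y, hy, e1, e2⟩ := (Filter.Eventually.and (hV _ h0) h1).exists
    refine hy ?_
    show y * c⁻¹ * y⁻¹ * (b⁻¹ * k⁻¹ * b * k) * (y * c⁻¹ * y⁻¹)⁻¹ = d⁻¹ * k⁻¹ * d * k
    calc _ = (y * a * y⁻¹ * b * y * c * y⁻¹)⁻¹ * k⁻¹ *
          (k * y * a * (k * y)⁻¹ * b * (k * y) * c * (k * y)⁻¹) * k := by group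
      _ = _ := by rw [e1, e2]
  have h3 : 1 * c⁻¹ * 1⁻¹ * (b⁻¹ * k⁻¹ * b * k) * (1 * c⁻¹ * 1⁻¹)⁻¹ = d⁻¹ * k⁻¹ * d * k := h2
  calc a * b * c = k⁻¹ * (k * a * k⁻¹ * b * k * c * k⁻¹) * k *
        (1 * c⁻¹ * 1⁻¹ * (b⁻¹ * k⁻¹ * b * k) * (1 * c⁻¹ * 1⁻¹)⁻¹)⁻¹ := by group
    _ = d := by rw [hk, h3]; group

theorem word_ppnn {a b c d : G} (h : ∀ᶠ x in (η : Filter G), x * a * x * b * x⁻¹ * c * x⁻¹ = d) :
    a * b * c = d := by
  obtain ⟨k, hk, h1⟩ := (idem_two hη h).exists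
  have h2 : a * k * a⁻¹ * d * (c⁻¹ * k⁻¹ * c) = k⁻¹ * d * k := by
    refine word_alt hη hV ?_
    filter_upwards [h1] with y ⟨e1, e2⟩
    calc _ = y * (a * k * a⁻¹) * y⁻¹ * (y * a * y * b * y⁻¹ * c * y⁻¹) * y * (c⁻¹ * k⁻¹ * c) *
          y⁻¹ := by rw [e1]
      _ = k⁻¹ * (k * y * a * (k * y) * b * (k * y)⁻¹ * c * (k * y)⁻¹) * k := by group
      _ = _ := by rw [e2]
  calc a * b * c = a * k⁻¹ * a⁻¹ * (k⁻¹ * (k * a * k * b * k⁻¹ * c * k⁻¹) * k) *
        (c⁻¹ * k * c) := by group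
    _ = d := by rw [hk, ← h2]; group

theorem word_pppn {a b c d : G} (h : ∀ᶠ x in (η : Filter G), x * a * x * b * x * c * x⁻¹ = d) :
    a * b * c = d := by
  obtain ⟨k, hk, h1⟩ := (idem_two hη h).exists
  have h2 : a * k * (b * k * b⁻¹) * a⁻¹ = k⁻¹ * d * k * d⁻¹ := by
    refine word_ppnn hη hV ?_
    filter_upwards [h1] with y ⟨e1, e2⟩
    calc _ = k⁻¹ * (k * y * a * (k * y) * b * (k * y) * c * (k * y)⁻¹) * k *
          (y * a * y * b * y * c * y⁻¹)⁻¹ := by group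
      _ = _ := by rw [e1, e2]
  calc a * b * c = (a * k * (b * k * b⁻¹) * a⁻¹)⁻¹ * k⁻¹ * (k * a * k * b * k * c * k⁻¹) * k := by
        group
    _ = d := by rw [hk, h2]; group

theorem word_ppp {a b d : G} (h : ∀ᶠ x in (η : Filter G), x * a * x * b * x = d) :
    a * b = d := by
  obtain ⟨k, hk, h1⟩ := (idem_two hη h).exists
  have h2 : a * k * (b * k * b⁻¹) * a⁻¹ = k⁻¹ := by
    refine word_ppnn hη hV ?_
    filter_upwards [h1] with y ⟨e1, e2⟩
    calc _ = k⁻¹ * (k * y * a * (k * y) * b * (k * y)) * (y * a * y * b * y)⁻¹ := by group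
      _ = _ := by rw [e1, e2]; group
  calc a * b = (a * k * (b * k * b⁻¹) * a⁻¹)⁻¹ * k⁻¹ * (k * a * k * b * k) := by group
    _ = d := by rw [hk, h2]; group

theorem word_three {a b d : G} (ε δ θ : ℤˣ)
    (h : ∀ᶠ x in (η : Filter G), x ^ (ε : ℤ) * a * x ^ (δ : ℤ) * b * x ^ (θ : ℤ) = d) :
    a * b = d := by
  rcases Int.units_eq_one_or ε with rfl | rfl <;> rcases Int.units_eq_one_or δ with rfl | rfl <;>
    rcases Int.units_eq_one_or θ with rfl | rfl <;>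
    simp only [Units.val_one, Units.val_neg, zpow_neg, zpow_one] at h
  · exact word_ppp hη hV h
  · have := word_pnp hη (a := b) (b := d⁻¹) (d := a⁻¹) (h.mono fun x hx => by rw [← hx]; group)
    calc a * b = a * (b * d⁻¹) * d := by group
      _ = d := by rw [this]; group
  · exact word_pnp hη h
  · have := word_pnp hη (a := a⁻¹) (b := d) (d := b) (h.mono fun x hx => by rw [← hx]; group)
    rw [← this]; group
  · have := word_pnp hη (a := d⁻¹) (b := a) (d := b⁻¹) (h.mono fun x hx => by rw [← hx]; group)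
    calc a * b = d * (d⁻¹ * a) * b := by group
      _ = d := by rw [this]; group
  · have := word_pnp hη (a := b⁻¹) (b := a⁻¹) (d := d⁻¹)
      (h.mono fun x hx => by rw [← hx]; group)
    exact inv_injective (by rw [← this]; group)
  · have := word_pnp hη (a := d) (b := b⁻¹) (d := a) (h.mono fun x hx => by rw [← hx]; group)
    rw [← this]; group
  · have := word_ppp hη hV (a := b⁻¹) (b := a⁻¹) (d := d⁻¹)
      (h.mono fun x hx => by rw [← hx]; group)
    exact inv_injective (by rw [← this]; group)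

omit hη hV in
/-- words of length four with the given exponents are continuous at `1` along `η` -/
def Q4 (η : Ultrafilter G) (i j k l : ℤ) : Prop := ∀ a b c d : G,
  (∀ᶠ x in (η : Filter G), x ^ i * a * x ^ j * b * x ^ k * c * x ^ l = d) → a * b * c = d

omit hη hV in
theorem Q4.rot {i j k l : ℤ} (h : Q4 η i j k l) : Q4 η l i j k := fun a b c d h1 => by
  have := h b c d⁻¹ a⁻¹ (h1.mono fun x hx => by rw [← hx]; group)
  calc a * b * c = a * (b * c * d⁻¹) * d := by group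
    _ = d := by rw [this]; group

omit hη hV in
theorem Q4.inv {i j k l : ℤ} (h : Q4 η i j k l) : Q4 η (-l) (-k) (-j) (-i) := fun a b c d h1 => by
  have := h c⁻¹ b⁻¹ a⁻¹ d⁻¹ (h1.mono fun x hx => by rw [← hx]; group)
  exact inv_injective (by rw [← this]; group)

theorem word_four (ε δ θ ι : ℤˣ) (hne : ¬ (ε = δ ∧ δ = θ ∧ θ = ι)) : Q4 η ε δ θ ι := by
  have h1 : Q4 η 1 (-1) 1 (-1) := fun a b c d h => word_alt hη hV (by simpa using h)
  have h2 : Q4 η 1 1 (-1) (-1) := fun a b c d h => word_ppnn hη hV (by simpa using h)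
  have h3 : Q4 η 1 1 1 (-1) := fun a b c d h => word_pppn hη hV (by simpa using h)
  have h4 : Q4 η 1 (-1) (-1) (-1) := h3.inv
  rcases Int.units_eq_one_or ε with rfl | rfl <;> rcases Int.units_eq_one_or δ with rfl | rfl <;>
    rcases Int.units_eq_one_or θ with rfl | rfl <;> rcases Int.units_eq_one_or ι with rfl | rfl
  exacts [absurd ⟨rfl, rfl, rfl⟩ hne, h3, h3.rot.rot.rot, h2, h3.rot.rot, h1, h2.rot.rot.rot, h4,
    h3.rot, h2.rot, h1.rot, h4.rot, h2.rot.rot, h4.rot.rot, h4.rot.rot.rot,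
    absurd ⟨rfl, rfl, rfl⟩ hne]

theorem word_list (l : List (ℤˣ × G))
    (hl : l.length ≤ 3 ∨ l.length = 4 ∧ ∃ p ∈ l, ∃ q ∈ l, p.1 ≠ q.1)
    (h : ∀ᶠ x in (η : Filter G), (l.map fun p => x ^ (p.1 : ℤ) * p.2).prod = 1) :
    (l.map fun p => (1 : G) ^ (p.1 : ℤ) * p.2).prod = 1 := by
  rcases l with _ | ⟨p, _ | ⟨q, _ | ⟨r, _ | ⟨s, _ | ⟨t, l⟩⟩⟩⟩⟩ <;>
    simp only [List.map_cons, List.map_nil, List.prod_cons, List.prod_nil, mul_one, one_zpow,
      one_mul] at h ⊢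
  · have := word_three hη hV (a := 1) (b := 1) (d := p.2⁻¹) p.1 1 (-1)
      (h.mono fun x hx => by simpa using eq_inv_of_mul_eq_one_left hx)
    exact inv_injective (by simpa using this.symm)
  · have := word_two hη (a := p.2) (d := q.2⁻¹) p.1 q.1
      (h.mono fun x hx => eq_inv_of_mul_eq_one_left (by rw [← hx]; group))
    rw [this]; group
  · have := word_three hη hV (a := p.2) (b := q.2) (d := r.2⁻¹) p.1 q.1 r.1
      (h.mono fun x hx => eq_inv_of_mul_eq_one_left (by rw [← hx]; group))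
    rw [← mul_assoc, this]; group
  · have := word_four hη hV p.1 q.1 r.1 s.1 (fun ⟨e1, e2, e3⟩ => by
      rcases hl with hl | ⟨-, u, hu, v, hv, huv⟩
      · simp at hl
      · have key : ∀ w ∈ [p, q, r, s], w.1 = s.1 := by simp [e1, e2, e3]
        exact huv ((key u hu).trans (key v hv).symm)) p.2 q.2 r.2 s.2⁻¹
      (h.mono fun x hx => eq_inv_of_mul_eq_one_left (by rw [← hx]; group))
    rw [← mul_assoc, ← mul_assoc, this]; group
  · simp only [List.length_cons] at hl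
    omega

end words

end Pool.Agent.P.MP_a76a9f_al
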