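import Pool.Agent.P.MP_a76a9f_al.Basic
import Pool.Agent.P.MP_a76a9f_al.Lat

set_option autoImplicit false

namespace Pool.Agent.P.MP_a76a9f_al

open Filter

attribute [local instance] Ultrafilter.semigroup

variable {Λ : Type} [SemilatticeInf Λ] [OrderBot Λ]

theorem sep_mul_apply (a b : Λ ≃o Λ) (x : Λ) : (a * b) x = a (b x) := rfl

theorem sep_inv_apply (a : Λ ≃o Λ) (x : Λ) : a⁻¹ (a x) = x := a.symm_apply_apply x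

theorem sep_apply_inv (a : Λ ≃o Λ) (x : Λ) : a (a⁻¹ x) = x := a.apply_symm_apply x

theorem sep_eq_bot (a : Λ ≃o Λ) {x : Λ} (h : a x = ⊥) : x = ⊥ := by
  have := congrArg (fun y => a⁻¹ y) h
  simp only [sep_inv_apply] at this
  rw [this]
  exact OrderIso.map_bot _

/-- confinement gives a maximal filter catching finitely many translates of `A` -/
theorem catch0 (GG : Subgroup (Λ ≃o Λ)) (A : Λ) (P : Set (Set Λ)) (hP : P.Finite)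
    (hπ : ∀ π ∈ P, ⊥ ∉ π ∧ ∀ K ∈ π, ∀ L ∈ π, K ⊓ L ∈ π) (hA : ∀ t ∈ GG, ∃ π ∈ P, t A ∈ π) :
    ∃ φ : Set Λ, Ultra φ ∧ A ∈ φ ∧ ∃ W : Set (Λ ≃o Λ), W.Finite ∧ (∀ m ∈ W, m ∈ GG) ∧
      ∀ t ∈ GG, ∃ m ∈ W, t (m A) ∈ φ := by
  obtain ⟨ω, hω⟩ := exists_isMin ↥GG
  have h1 : ∃ π ∈ P, ∀ᶠ x in (ω : Filter ↥GG), ((x⁻¹ : ↥GG) : Λ ≃o Λ) A ∈ π := by
    rw [← Ultrafilter.eventually_exists_mem_iff hP]
    exact Eventually.of_forall fun x => hA _ (x⁻¹ : ↥GG).2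
  obtain ⟨π, hπP, hU⟩ := h1
  obtain ⟨hb, hi⟩ := hπ π hπP
  obtain ⟨F, hF⟩ := hω.synd (U := {x : ↥GG | ((x⁻¹ : ↥GG) : Λ ≃o Λ) A ∈ π}) hU
  obtain ⟨m0, -, hm0⟩ := hF 1
  obtain ⟨φ, hsub, hφ⟩ := exists_ultra
    {L : Λ | ∀ᶠ x in (ω : Filter ↥GG), ((x⁻¹ * m0⁻¹ : ↥GG) : Λ ≃o Λ) L ∈ π}
    ⟨A, hm0.mono fun x hx => by simpa only [Set.mem_ofPred_eq, mul_one, mul_inv_rev] using hx⟩
    (by
      intro h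
      obtain ⟨x, hx⟩ := Eventually.exists h
      rw [OrderIso.map_bot] at hx
      exact hb hx)
    (by
      intro K hK L hL
      refine (Eventually.and hK hL).mono fun x hx => ?_
      rw [OrderIso.map_inf]
      exact hi _ hx.1 _ hx.2)
  refine ⟨φ, hφ, hsub (hm0.mono fun x hx => by
    simpa only [Set.mem_ofPred_eq, mul_one, mul_inv_rev] using hx),
    (fun m : ↥GG => ((m⁻¹ : ↥GG) : Λ ≃o Λ)) '' (F : Set ↥GG), F.finite_toSet.image _, ?_, ?_⟩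
  · rintro _ ⟨m, -, rfl⟩
    exact (m⁻¹ : ↥GG).2
  · intro t ht
    obtain ⟨m, hmF, hm⟩ := hF ((⟨t, ht⟩ : ↥GG)⁻¹ * m0)
    refine ⟨_, ⟨m, hmF, rfl⟩, hsub (hm.mono fun x hx => ?_)⟩
    have e : (m * ((⟨t, ht⟩ : ↥GG)⁻¹ * m0) * x)⁻¹ = x⁻¹ * m0⁻¹ * (⟨t, ht⟩ : ↥GG) * m⁻¹ := by
      group
    rw [Set.mem_ofPred_eq, e] at hx
    exact hx

/-- (SEP) -/
theorem sep (GG : Subgroup (Λ ≃o Λ))
    (conf : ∀ A : Λ, A ≠ ⊥ → ∃ P : Set (Set Λ), P.Finite ∧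
      (∀ π ∈ P, ⊥ ∉ π ∧ ∀ K ∈ π, ∀ L ∈ π, K ⊓ L ∈ π) ∧ ∀ t ∈ GG, ∃ π ∈ P, t A ∈ π)
    (R : Set (Λ ≃o Λ)) (hRf : R.Finite)
    (hR : ∀ ρ ∈ R, ∀ t ∈ GG, ρ * t * ρ⁻¹ ∈ GG ∧ ρ⁻¹ * t * ρ ∈ GG)
    (A : Λ) (hA : A ≠ ⊥) (n : ℕ) (K : ℕ → Λ) (hK : ∀ i < n, K i ≠ ⊥)
    (hd : ∀ i < n, ∀ ρ ∈ R, ρ (K i) ⊓ A = ⊥) :
    ∃ φ : Set Λ, Ultra φ ∧ A ∈ φ ∧ ∃ B : ℕ → Λ, ∀ i < n, B i ≠ ⊥ ∧ B i ≤ K i ∧
      ∀ ρ ∈ R, ∃ M : Set Λ, M.Finite ∧ (∀ t ∈ GG, ∃ X ∈ M, t X ∈ φ) ∧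
        ∀ X ∈ M, X ⊓ ρ (B i) = ⊥ ∨ (ρ (B i) ≤ X ∧ X ⊓ A = ⊥) := by
  classical
  let J : Λ → Set (ℕ × (Λ ≃o Λ)) := fun A0 =>
    {p | p.1 < n ∧ p.2 ∈ R ∧ ∃ t ∈ GG, A0 ≤ t (p.2 (K p.1))}
  have hJf : (J '' {A0 | A0 ≤ A ∧ A0 ≠ ⊥}).Finite := by
    refine (((Set.finite_lt_nat n).prod hRf).finite_subsets).subset ?_
    rintro _ ⟨A0, -, rfl⟩ p hp
    exact ⟨hp.1, hp.2.1⟩
  obtain ⟨A0, hA0⟩ := Set.Finite.exists_maximalFor' J _ hJf ⟨A, le_rfl, hA⟩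
  have hA0A : A0 ≤ A := hA0.1.1
  have hA0b : A0 ≠ ⊥ := hA0.1.2
  have hout : ∀ i < n, ∀ ρ ∈ R, (i, ρ) ∉ J A0 → ∀ t ∈ GG, A0 ⊓ t (ρ (K i)) = ⊥ := by
    intro i hi ρ hρ hJ t ht
    by_contra hne
    have h1 : J A0 ≤ J (A0 ⊓ t (ρ (K i))) := by
      rintro p ⟨h1, h2, t', ht', h3⟩
      exact ⟨h1, h2, t', ht', inf_le_left.trans h3⟩
    exact hJ (hA0.2 (show A0 ⊓ t (ρ (K i)) ∈ {A0 | A0 ≤ A ∧ A0 ≠ ⊥} from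
      ⟨inf_le_left.trans hA0A, hne⟩) h1 ⟨hi, hρ, t, ht, inf_le_right⟩)
  obtain ⟨P, hPf, hPπ, hPA⟩ := conf A0 hA0b
  obtain ⟨φ, hφ, hA0φ, W, hWf, hWG, hW⟩ := catch0 GG A0 P hPf hPπ hPA
  refine ⟨φ, hφ, hφ.up hA0φ hA0A, ?_⟩
  suffices h : ∀ i, ∃ B : Λ, i < n → B ≠ ⊥ ∧ B ≤ K i ∧
      ∀ ρ ∈ R, ∃ M : Set Λ, M.Finite ∧ (∀ t ∈ GG, ∃ X ∈ M, t X ∈ φ) ∧
        ∀ X ∈ M, X ⊓ ρ B = ⊥ ∨ (ρ B ≤ X ∧ X ⊓ A = ⊥) by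
    choose B hB using h
    exact ⟨B, hB⟩
  intro i
  by_cases hi : i < n
  swap
  · exact ⟨⊥, fun h => absurd h hi⟩
  -- the pairs outside `J`
  have hnot : ∀ B : Λ, B ≤ K i → ∀ ρ ∈ R, (i, ρ) ∉ J A0 →
      ∃ M : Set Λ, M.Finite ∧ (∀ t ∈ GG, ∃ X ∈ M, t X ∈ φ) ∧
        ∀ X ∈ M, X ⊓ ρ B = ⊥ ∨ (ρ B ≤ X ∧ X ⊓ A = ⊥) := by
    intro B hB ρ hρ hJ
    refine ⟨(fun m : Λ ≃o Λ => m A0) '' W, hWf.image _, ?_, ?_⟩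
    · intro t ht
      obtain ⟨m, hm, h⟩ := hW t ht
      exact ⟨_, ⟨m, hm, rfl⟩, h⟩
    · rintro _ ⟨m, hm, rfl⟩
      left
      have h1 := hout i hi ρ hρ hJ m⁻¹ (GG.inv_mem (hWG m hm))
      have h2 : m A0 ⊓ ρ (K i) = ⊥ := by
        have := congrArg m h1
        rwa [OrderIso.map_inf, sep_apply_inv, OrderIso.map_bot] at this
      exact le_bot_iff.1 ((inf_le_inf_left _ (ρ.monotone hB)).trans h2.le)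
  -- a good finite set of translates
  have hτ : ∀ ρ : Λ ≃o Λ, ∃ t ∈ GG, (i, ρ) ∈ J A0 → A0 ≤ t (ρ (K i)) := by
    intro ρ
    by_cases hJ : (i, ρ) ∈ J A0
    · obtain ⟨t, ht, h⟩ := hJ.2.2
      exact ⟨t, ht, fun _ => h⟩
    · exact ⟨1, GG.one_mem, fun h => absurd h hJ⟩
  choose τ hτG hτ using hτ
  let N0 : Set Λ :=
    (fun p : (Λ ≃o Λ) × (Λ ≃o Λ) => (p.1⁻¹ * (p.2 * τ p.1) * p.1) (K i)) '' (R ×ˢ W)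
  have hN0f : N0.Finite := (hRf.prod hWf).image _
  have hN0G : ∀ X ∈ N0, ∃ s ∈ GG, X = s (K i) := by
    rintro _ ⟨p, hp, rfl⟩
    exact ⟨_, (hR _ hp.1 _ (GG.mul_mem (hWG _ hp.2) (hτG _))).2, rfl⟩
  let Good : Set Λ → Prop := fun N => ∀ ρ, (i, ρ) ∈ J A0 → ∀ t ∈ GG, ∃ X ∈ N, t (ρ X) ∈ φ
  have hN0 : Good N0 := by
    intro ρ hJ t ht
    obtain ⟨m, hm, h⟩ := hW t ht
    refine ⟨_, ⟨(ρ, m), ⟨hJ.2.1, hm⟩, rfl⟩, hφ.up h (t.monotone ?_)⟩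
    simp only [sep_mul_apply, sep_apply_inv]
    exact m.monotone (hτ ρ hJ)
  obtain ⟨N, hN⟩ := Set.Finite.exists_minimal (s := {N | N ⊆ N0 ∧ Good N})
    (hN0f.finite_subsets.subset fun N h => h.1) ⟨N0, subset_rfl, hN0⟩
  have hNf : N.Finite := hN0f.subset hN.1.1
  rcases N.eq_empty_or_nonempty with hE | ⟨M0, hM0⟩
  · refine ⟨K i, fun _ => ⟨hK i hi, le_rfl, fun ρ hρ => hnot _ le_rfl ρ hρ fun hJ => ?_⟩⟩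
    obtain ⟨X, hX, -⟩ := hN.1.2 ρ hJ 1 GG.one_mem
    rw [hE] at hX
    exact hX
  obtain ⟨s, hs, hsM⟩ := hN0G M0 (hN.1.1 hM0)
  have hbad : ¬ Good (N \ {M0}) := by
    intro hg
    have h1 : N ≤ N \ {M0} :=
      hN.2 (show N \ {M0} ∈ {N | N ⊆ N0 ∧ Good N} from ⟨Set.diff_subset.trans hN.1.1, hg⟩)
        Set.diff_subset
    exact (h1 hM0).2 rfl
  simp only [Good, not_forall, not_exists, not_and] at hbad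
  obtain ⟨ρ0, hJ0, t0, ht0, hbad⟩ := hbad
  have hM0φ : (t0 * ρ0) M0 ∈ φ := by
    obtain ⟨X, hX, h⟩ := hN.1.2 ρ0 hJ0 t0 ht0
    by_cases hXM : X = M0
    · rw [← hXM]; exact h
    · exact absurd h (hbad X ⟨hX, hXM⟩)
  obtain ⟨B2, hB2φ, hB2le, hB2⟩ := hφ.exists_private hM0φ
    ((fun X => (t0 * ρ0) X) '' (N \ {M0})) ((hNf.subset Set.diff_subset).image _) (by
      rintro _ ⟨X, hX, rfl⟩
      exact hbad X hX)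
  have hCb : (t0 * ρ0)⁻¹ B2 ≠ ⊥ := fun h => hφ.ne_bot hB2φ (sep_eq_bot _ h)
  have hCle : (t0 * ρ0)⁻¹ B2 ≤ M0 := by
    have := ((t0 * ρ0)⁻¹).monotone hB2le
    rwa [sep_inv_apply] at this
  have hCX : ∀ X ∈ N, X ≠ M0 → X ⊓ (t0 * ρ0)⁻¹ B2 = ⊥ := by
    intro X hX hXM
    apply sep_eq_bot (t0 * ρ0)
    rw [OrderIso.map_inf, sep_apply_inv, inf_comm]
    exact hB2 _ ⟨X, ⟨hX, hXM⟩, rfl⟩
  generalize (t0 * ρ0)⁻¹ B2 = C at hCb hCle hCX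
  have hBle : s⁻¹ C ≤ K i := by
    have := (s⁻¹).monotone hCle
    rwa [hsM, sep_inv_apply] at this
  refine ⟨s⁻¹ C, fun _ => ⟨fun h => hCb (sep_eq_bot _ h), hBle, fun ρ hρ => ?_⟩⟩
  by_cases hJ : (i, ρ) ∈ J A0
  swap
  · exact hnot _ hBle ρ hρ hJ
  refine ⟨(fun X => ρ (s⁻¹ X)) '' N, hNf.image _, ?_, ?_⟩
  · intro t ht
    obtain ⟨X, hX, h⟩ := hN.1.2 ρ hJ (t * (ρ * s⁻¹ * ρ⁻¹))
      (GG.mul_mem ht (hR ρ hρ _ (GG.inv_mem hs)).1)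
    refine ⟨_, ⟨X, hX, rfl⟩, ?_⟩
    simpa only [sep_mul_apply, sep_inv_apply] using h
  · rintro _ ⟨X, hX, rfl⟩
    by_cases hXM : X = M0
    · right
      have e : ρ (s⁻¹ X) = ρ (K i) := by rw [hXM, hsM, sep_inv_apply]
      simp only [e]
      exact ⟨ρ.monotone hBle, hd i hi ρ hρ⟩
    · left
      simp only
      rw [← OrderIso.map_inf, ← OrderIso.map_inf, hCX X hX hXM, OrderIso.map_bot, OrderIso.map_bot]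

end Pool.Agent.P.MP_a76a9f_al
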