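import Pool.Agent.P.MP_a76a9f_al.Frame
import Pool.Agent.P.MP_a76a9f_al.Sep

set_option autoImplicit false

namespace Pool.Agent.P.MP_a76a9f_al

open Filter
open scoped Pointwise

attribute [local instance] Ultrafilter.semigroup

variable {S : Type} [Group S]

instance instInfLL (u : Ultrafilter S) : SemilatticeInf (LL u) :=
  Subtype.semilatticeInf (P := fun K : Subgroup S => act u K = K)
    (fun K L hK hL => by rw [act_inf, hK, hL])

instance instBotLL (u : Ultrafilter S) : OrderBot (LL u) where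
  bot := ⟨⊥, act_bot u⟩
  bot_le := fun K => (bot_le : (⊥ : Subgroup S) ≤ K.1)

theorem LL.le_iff {u : Ultrafilter S} {K L : LL u} : K ≤ L ↔ K.1 ≤ L.1 := Iff.rfl

theorem LL.inf_val {u : Ultrafilter S} (K L : LL u) : (K ⊓ L).1 = K.1 ⊓ L.1 := rfl

theorem LL.bot_val {u : Ultrafilter S} : (⊥ : LL u).1 = ⊥ := rfl

theorem LL.eq_bot_iff {u : Ultrafilter S} {K : LL u} : K = ⊥ ↔ K.1 = ⊥ := Subtype.ext_iff

theorem LL.inf_eq_bot_iff {u : Ultrafilter S} {K L : LL u} : K ⊓ L = ⊥ ↔ K.1 ⊓ L.1 = ⊥ :=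
  Subtype.ext_iff

/-- the member `u K` of the lattice -/
def mk {u : Ultrafilter S} (hu : u * u = u) (K : Subgroup S) : LL u :=
  ⟨act u K, by rw [← act_mul, hu]⟩

theorem mk_val {u : Ultrafilter S} (hu : u * u = u) (K : Subgroup S) : (mk hu K).1 = act u K := rfl

theorem mk_inf {u : Ultrafilter S} (hu : u * u = u) (K L : Subgroup S) :
    mk hu (K ⊓ L) = mk hu K ⊓ mk hu L := Subtype.ext (act_inf u K L)

theorem mk_self {u : Ultrafilter S} (hu : u * u = u) (K : LL u) : mk hu K.1 = K := Subtype.ext K.2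

/-- order automorphisms of type `α` -/
def IsType (u : Ultrafilter S) (α : MulAut S) (t : LL u ≃o LL u) : Prop :=
  ∃ w : Ultrafilter S, ∀ K : LL u, (t K).1 = act u (act w (α • K.1))

theorem left_inv_aux {u : Ultrafilter S} (hm : IsMin u) (α : MulAut S) (w : Ultrafilter S) :
    ∃ v : Ultrafilter S, ∀ K : LL u,
      act u (act v (α⁻¹ • act u (act w (α • K.1)))) = K.1 := by
  obtain ⟨v, hv⟩ := hm (am α⁻¹ u * am α⁻¹ w)
  refine ⟨v, fun K => ?_⟩
  rw [smul_act, smul_act, inv_smul_smul]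
  conv_lhs => rw [← K.2]
  rw [← act_mul (am α⁻¹ w), ← act_mul (am α⁻¹ u), ← act_mul v, ← mul_assoc (am α⁻¹ u),
    ← mul_assoc v, hv, K.2, K.2]

theorem smul_mono' (α : MulAut S) {K L : Subgroup S} (h : K ≤ L) : α • K ≤ α • L :=
  fun _ hx => mem_smul.2 (h (mem_smul.1 hx))

theorem exists_type {u : Ultrafilter S} (hm : IsMin u) (hu : u * u = u) (α : MulAut S)
    (w : Ultrafilter S) :
    ∃ t : LL u ≃o LL u, ∀ K : LL u, (t K).1 = act u (act w (α • K.1)) := by
  let f : MulAut S → Ultrafilter S → LL u → LL u := fun β z K => mk hu (act z (β • K.1))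
  have hmono : ∀ β z, Monotone (f β z) := fun β z K L h =>
    act_mono u (act_mono z (smul_mono' β h))
  have hl : ∀ β z, ∃ v, Function.LeftInverse (f β⁻¹ v) (f β z) := by
    intro β z
    obtain ⟨v, hv⟩ := left_inv_aux hm β z
    exact ⟨v, fun K => Subtype.ext (hv K)⟩
  obtain ⟨v, hv⟩ := hl α w
  obtain ⟨v', hv'⟩ := hl α⁻¹ v
  have hr : Function.RightInverse (f α⁻¹ v) (f α w) := fun K => hv'.injective (hv _)
  refine ⟨{ toFun := f α w, invFun := f α⁻¹ v, left_inv := hv, right_inv := hr,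
            map_rel_iff' := ?_ }, fun K => rfl⟩
  intro K L
  refine ⟨fun h => ?_, fun h => hmono α w h⟩
  have := hmono α⁻¹ v h
  simp only [Equiv.coe_fn_mk] at this
  rwa [hv K, hv L] at this

theorem IsType.one (u : Ultrafilter S) : IsType u 1 1 := by
  exact ⟨pure 1, fun K => by rw [one_smul, act_pure_one, K.2]; rfl⟩

theorem IsType.mul {u : Ultrafilter S} {α β : MulAut S} {s t : LL u ≃o LL u} (hs : IsType u α s)
    (ht : IsType u β t) : IsType u (α * β) (s * t) := by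
  obtain ⟨w, hw⟩ := hs
  obtain ⟨z, hz⟩ := ht
  refine ⟨w * am α u * am α z, fun K => ?_⟩
  rw [RelIso.coe_mul, Function.comp_apply, hw, hz, smul_act, smul_act, act_mul, act_mul, mul_smul]

theorem IsType.inv {u : Ultrafilter S} (hm : IsMin u) {α : MulAut S}
    {t : LL u ≃o LL u} (ht : IsType u α t) : IsType u α⁻¹ t⁻¹ := by
  obtain ⟨w, hw⟩ := ht
  obtain ⟨v, hv⟩ := left_inv_aux hm α w
  refine ⟨v, fun K => ?_⟩
  have := hv (t⁻¹ K)
  rw [← hw, RelIso.apply_inv_self] at this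
  exact this.symm

/-- the group of automorphisms of type one -/
def GG {u : Ultrafilter S} (hm : IsMin u) : Subgroup (LL u ≃o LL u) where
  carrier := {t | IsType u 1 t}
  one_mem' := IsType.one u
  mul_mem' := fun hs ht => by simpa using IsType.mul hs ht
  inv_mem' := fun ht => by simpa using IsType.inv hm ht

theorem LL.infinite (hicc : ICC S) {u : Ultrafilter S} (hm : IsMin u) {K : LL u} (hK : K ≠ ⊥) :
    (K.1 : Set S).Infinite := by
  have h : act u K.1 ≠ ⊥ := by rw [K.2]; exact fun e => hK (LL.eq_bot_iff.2 e)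
  exact hm.infinite hicc h

/-- points: a maximal filter read in the direction `w` -/
theorem pt_of_ultra [Infinite S] (hicc : ICC S) {u : Ultrafilter S} (hm : IsMin u)
    (hu : u * u = u) {φ : Set (LL u)} (hφ : Ultra φ) (w : Ultrafilter S) :
    Pt {L : Subgroup S | mk hu (act w L) ∈ φ} := by
  refine ⟨?_, ?_, ?_, ?_⟩
  · by_contra hc
    obtain ⟨L, hL, e⟩ := hφ.max _ hc
    rw [LL.inf_eq_bot_iff, mk_val, act_top, act_top, inf_top_eq] at e
    exact hφ.ne_bot hL (LL.eq_bot_iff.2 e)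
  · intro hc
    exact hφ.ne_bot hc (by rw [LL.eq_bot_iff, mk_val, act_bot, act_bot])
  · intro K hK L hL
    have := hφ.inf _ hK _ hL
    rwa [← mk_inf, ← act_inf] at this
  · intro K hK L hL
    by_contra hc
    obtain ⟨M, hM, e⟩ := hφ.max _ hc
    have h1 := LL.infinite hicc hm (hφ.ne_bot (hφ.inf _ hM _ hK))
    have h2 : (act u (act w L)).relIndex (M ⊓ mk hu (act w K)).1 ≠ 0 :=
      fun h0 => act_relIndex u (act_relIndex w hL)
        (Subgroup.relIndex_eq_zero_of_le_right (inf_le_right : (M ⊓ mk hu (act w K)).1 ≤ _) h0)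
    apply ne_bot_of_infinite (infinite_inf h2 h1)
    rw [LL.inf_eq_bot_iff, mk_val] at e
    rw [LL.inf_val, ← inf_assoc, inf_comm (act u (act w L)), e, bot_inf_eq]

/-- FRAME, read in an arbitrary direction -/
theorem frame' (hicc : ICC S) {u : Ultrafilter S} (hm : IsMin u)
    {η : Ultrafilter S} (hη : η * η = η) (h1 : ((⊥ : Subgroup S) : Set S) ∉ η)
    (B : Subgroup S) (M : Set (Subgroup S)) (hM : M.Finite)
    (halt : ∀ X ∈ M, X ⊓ B = ⊥ ∨ (B ≤ X ∧ ∃ A : Subgroup S, (A : Set S) ∈ η ∧ X ⊓ A = ⊥))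
    (hc : ∀ d : S, ∃ X ∈ M, (act (pure d * η) X : Set S) ∈ η)
    (w : Ultrafilter S) (hB : act u (act w (act η B)) ≠ ⊥) :
    act u (act w (HH η ⊓ B)) ≠ ⊥ := by
  have h := act_relIndex u (act_relIndex w (frame hη h1 B M hM halt hc))
  have h2 := ne_bot_of_infinite (infinite_inf h (hm.act_infinite hicc hB))
  intro e
  exact h2 (by rw [e, bot_inf_eq])

/-- (E') an essential member whose finite subsets have large centralisers gives a chain -/
theorem eprime (hicc : ICC S) {u : Ultrafilter S} (hm : IsMin u) (hu : u * u = u)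
    {Γ : Set (MulAut S)} (hΓ : Γ.Finite) {L : ℕ} (hC : NoChain Γ L) (E : LL u)
    (hess : ∀ K : LL u, K ≠ ⊥ → E ⊓ K ≠ ⊥)
    (hF : ∀ F : Finset S, (∀ f ∈ F, f ∈ E.1) → ∃ w, IsMin w ∧ act w (Cen F) ≠ ⊥) : False := by
  apply hC
  refine ⟨fun _ => ⨅ γ ∈ Γ, γ⁻¹ • E.1, fun m _ F hFm => ?_⟩
  obtain ⟨w, hw, hne⟩ := hF F (by
    intro f hf
    obtain ⟨n, -, γ, hγ, d, hd, rfl⟩ := hFm f hf
    have := Subgroup.mem_iInf.1 (Subgroup.mem_iInf.1 hd γ) hγ
    simpa [mem_smul] using this)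
  have key : ∀ Γ' : Set (MulAut S), Γ'.Finite →
      act u (act w (Cen F ⊓ ⨅ γ ∈ Γ', γ⁻¹ • E.1)) ≠ ⊥ := by
    intro Γ' hΓ'
    induction Γ', hΓ' using Set.Finite.induction_on with
    | empty => simpa using hw.act_ne_bot hne u
    | @insert γ Γ' _ _ ih =>
      obtain ⟨t, ht⟩ := exists_type hm hu γ⁻¹ w
      have h1 : mk hu (act w (Cen F ⊓ ⨅ γ ∈ Γ', γ⁻¹ • E.1)) ≠ ⊥ := fun e => ih (LL.eq_bot_iff.1 e)
      have h2 := hess (t.symm _) (fun e => h1 (by
        have := congrArg t e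
        rwa [t.apply_symm_apply, t.map_bot] at this))
      intro e
      apply h2
      apply t.injective
      rw [t.map_inf, t.apply_symm_apply, t.map_bot, LL.inf_eq_bot_iff, ht, mk_val, ← act_inf,
        ← act_inf, ← e, iInf_insert]
      congr 2
      ac_rfl
  have := key Γ hΓ
  rw [← act_mul] at this
  exact (hw.mul_left u).infinite hicc this

end Pool.Agent.P.MP_a76a9f_al
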