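import Pool.Agent.P.MP_a76a9f_al.Main

set_option autoImplicit false

namespace Pool.Agent.P.MP_a76a9f_al

universe u

/-- the covering statement in an arbitrary universe, by passing to a countable subgroup -/
theorem not_cover_univ (G : Type u) [Group G] [Infinite G] (P Q : Set (G × G)) (hP : P.Finite)
    (hQ : Q.Finite) (h1 : ∀ p ∈ P, p.1 ≠ p.2) (h2 : ∀ q ∈ Q, ¬ Commute q.1 q.2)
    (h3 : ∀ x : G, x ≠ 1 →
      (∃ p ∈ P, x * p.1 * x⁻¹ = p.2) ∨ ∃ q ∈ Q, Commute (x⁻¹ * q.1 * x) q.2) : False := by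
  let s : Set G := Set.range (Infinite.natEmbedding G) ∪
    (Prod.fst '' (P ∪ Q) ∪ Prod.snd '' (P ∪ Q))
  have hs : s.Countable := (Set.countable_range _).union
    ((((hP.union hQ).image _).union ((hP.union hQ).image _)).countable)
  obtain ⟨g, hg⟩ := hs.exists_eq_range ⟨_, Or.inl ⟨0, rfl⟩⟩
  let φ : FreeGroup ℕ →* G := FreeGroup.lift g
  let ι : (FreeGroup ℕ ⧸ φ.ker) →* G := QuotientGroup.kerLift φ
  have hι : Function.Injective ι := QuotientGroup.kerLift_injective φ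
  have hr : ∀ x ∈ s, ∃ y, ι y = x := by
    intro x hx
    rw [hg] at hx
    obtain ⟨n, rfl⟩ := hx
    exact ⟨QuotientGroup.mk (FreeGroup.of n), by simp [ι, φ]⟩
  have hinf : Infinite (FreeGroup ℕ ⧸ φ.ker) := by
    choose f hf using fun n : ℕ => hr _ (Or.inl ⟨n, rfl⟩)
    refine Infinite.of_injective f fun m n e => (Infinite.natEmbedding G).injective ?_
    rw [← hf, ← hf, e]
  have hlift : ∀ p ∈ P ∪ Q, ∃ p', Prod.map ι ι p' = p := by
    intro p hp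
    obtain ⟨a, ha⟩ := hr p.1 (Or.inr (Or.inl ⟨p, hp, rfl⟩))
    obtain ⟨b, hb⟩ := hr p.2 (Or.inr (Or.inr ⟨p, hp, rfl⟩))
    exact ⟨(a, b), Prod.ext ha hb⟩
  apply not_cover (FreeGroup ℕ ⧸ φ.ker)
  refine ⟨Prod.map ι ι ⁻¹' P, Prod.map ι ι ⁻¹' Q, hP.preimage (hι.prodMap hι).injOn,
    hQ.preimage (hι.prodMap hι).injOn, fun p hp e => h1 _ hp (congrArg ι e),
    fun q hq e => h2 _ hq (e.map ι), fun x hx => ?_⟩
  rcases h3 (ι x) (fun e => hx (hι (e.trans ι.map_one.symm))) with ⟨p, hp, e⟩ | ⟨q, hq, e⟩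
  · obtain ⟨p', rfl⟩ := hlift p (Or.inl hp)
    exact Or.inl ⟨p', hp, hι (by simpa using e)⟩
  · obtain ⟨q', rfl⟩ := hlift q (Or.inr hq)
    refine Or.inr ⟨q', hq, hι ?_⟩
    simpa using e.eq

end Pool.Agent.P.MP_a76a9f_al
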